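import Pool.Agent.Helper47.PC.Tools

/-!
# From the product to the factors

Proof of `almostIn_of_product` (`j < dim Z`, else nothing to do). `s = dim T - j - 1 ≥ dim Y`,
`e = dim Z - j - 1 = s - dim Y`. Let `κ ∈ Y.corr (-dim Y)` be the algebraic left inverse of `L^(dim Y)`
on `H^0(Y)` (`LefschetzIn Y 0`), `P = κ * Y.L ^ dim Y ∈ Y.corr 0`: it is `1` on `H^0(Y)` and `0` on the
other degrees (`L^(dim Y) y = 0` for degree reasons if `y` has degree `q > 0`), so `P = Y.π 0`. Let `θ`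
be the algebraic left inverse of `L_T^s` on `H^j(T)`, and
`Ψ = ∑ i ∈ range (dim Y + 1), (s choose i) • ext τ (L^(dim Y - i)) (L^i) ∈ T.corr (dim Y)`.
For `x ∈ H^j(Z)`, `u ∈ H^0(Y)`: `L_T^s (x ⊗ u) = ∑_i (s choose i) L^(s-i) x ⊗ L^i u`, `L^i u = 0` for
`i > dim Y`, and `L^(s-i) = L^(dim Y - i) L^e`; so it is `Ψ (L^e x ⊗ u)`.
Hence `θ Ψ (L^e x ⊗ P y) = x ⊗ P y` for `x ∈ H^j(Z)` and all `y`.
Let `γ = θ * Ψ * ext τ 1 P ∈ T.corr (-e)` and `θ' = ptr (τ.symm.conj γ * map 1 Y.sgn) ∈ Z.corr (-e)`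
(`hP.contr`). Then `θ' * L^e * Z.π j = ptr (τ.symm.conj γ * map 1 Y.sgn * map (L^e * Z.π j) 1)` (`ptr_mul`)
`= ptr (map (Z.π j) (Y.π 0 * Y.sgn)) = tr (Y.π 0) • Z.π j` (`ptr_map`, `Y.π 0 * Y.sgn = Y.π 0`).
`tr (Y.π 0)` is the rank of the idempotent `Y.π 0 ≠ 0`, a natural number `≠ 0` (char. `0`); it is
rational, so divide by it (`Z.corr_smul`).
-/

set_option linter.unusedSectionVars false

namespace Pool.Agent.Helper47.PC

open Pool.Agent.Helper29.CPB Pool.Agent.Helper47.PB TensorProduct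

universe u v

variable {F : Type u} [Field F] [CharZero F] {Z Y T : Variety.{u, v} F}
  {τ : (Z.H ⊗[F] Y.H) ≃ₗ[F] T.H}

/-- the projector to `H^0(Y)` is algebraic -/
private lemma desc_π (h0 : LefschetzIn Y 0) : Y.π 0 ∈ Y.corr 0 := by
  obtain ⟨κ, hκ, hκL⟩ := h0 (Nat.zero_le _)
  have hκ' : κ ∈ Y.corr (-(Y.dim : ℤ)) := by
    have h1 : κ ∈ Y.corr (((0 : ℕ) : ℤ) - Y.dim) := hκ
    rwa [show ((0 : ℕ) : ℤ) - Y.dim = -(Y.dim : ℤ) by push_cast; ring] at h1
  have e : Y.π 0 = κ * Y.L ^ Y.dim := by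
    apply Y.ext_homog
    intro q y hy
    rw [Module.End.mul_apply]
    by_cases hq : q = 0
    · subst hq
      rw [hy]
      have h1 := hκL y (by exact_mod_cast hy)
      rw [Nat.sub_zero] at h1
      exact h1.symm
    · rw [Y.π_apply_ne (Ne.symm hq) hy]
      rcases lt_or_ge q 0 with h1 | h1
      · rw [Y.homog_zero (Or.inl h1) hy, map_zero, map_zero]
      · rw [Y.homog_zero (i := q + 2 * (Y.dim : ℤ)) (Or.inr (by omega))
          (Y.corr_homog (Y.Lpow_corr Y.dim) rfl hy), map_zero]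
  rw [e]
  exact Y.corr_mul' (by ring) hκ' (Y.Lpow_corr _)

private lemma desc_sgn : Y.π 0 * Y.sgn = Y.π 0 := by
  apply Y.ext_homog
  intro q y hy
  rw [Module.End.mul_apply, Y.sgn_apply hy, map_smul]
  by_cases hq : q = 0
  · subst hq
    rw [Int.natAbs_zero, pow_zero, one_smul]
  · rw [Y.π_apply_ne (Ne.symm hq) hy, smul_zero]

private lemma desc_trace (hY : Y.π 0 ≠ 0) : ∃ n : ℕ, n ≠ 0 ∧
    LinearMap.trace F Y.H (Y.π 0) = (n : F) := by
  have hid : IsIdempotentElem (Y.π 0) := Y.π_idem 0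
  have h1 := (LinearMap.IsIdempotentElem.isProj_range _ hid).trace
  refine ⟨_, ?_, h1⟩
  intro h
  apply hY
  refine LinearMap.IsIdempotentElem.eq_zero_of_trace_eq_zero hid ?_
  rw [h1, h, Nat.cast_zero]

/-- `L_T^s (x ⊗ u) = Ψ (L^e x ⊗ u)` for `u` of degree `0` -/
private lemma desc_pow (hP : IsTen Z Y T τ) (e : ℕ) (x : Z.H) {u : Y.H} (hu : Y.π 0 u = u) :
    (T.L ^ (e + Y.dim)) (τ (x ⊗ₜ u)) =
      (∑ q ∈ Finset.range (Y.dim + 1), ((e + Y.dim).choose q : F) •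
        ext τ (Z.L ^ (Y.dim - q)) (Y.L ^ q)) (τ (((Z.L ^ e) x) ⊗ₜ u)) := by
  rw [hP.Lpow_apply, LinearMap.sum_apply]
  have hsub : Finset.range (Y.dim + 1) ⊆ Finset.range (e + Y.dim + 1) :=
    Finset.range_subset_range.mpr (by omega)
  rw [← Finset.sum_subset hsub]
  · refine Finset.sum_congr rfl fun q hq => ?_
    have hq' := Finset.mem_range.mp hq
    rw [LinearMap.smul_apply, ext_apply, ← Module.End.mul_apply (Z.L ^ (Y.dim - q)), ← pow_add,
      show Y.dim - q + e = e + Y.dim - q by omega]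
  · intro q _ hq
    have hq' : Y.dim < q := by
      rw [Finset.mem_range] at hq
      omega
    have h0 : (Y.L ^ q) u = 0 :=
      Y.homog_zero (i := 0 + 2 * (q : ℤ)) (Or.inr (by omega)) (Y.corr_homog (Y.Lpow_corr q) rfl hu)
    rw [h0, tmul_zero, map_zero, smul_zero]

/-- a left inverse of `L^(e + dim Y)` on `H^j(Z × Y)` gives a left inverse of `L^e` on `H^j(Z)` -/
theorem leftInverseIn_of_product (hP : IsProd Z Y T τ) (h0 : LefschetzIn Y 0) (hY : Y.π 0 ≠ 0)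
    {e j : ℕ} (h : LeftInverseIn T (e + Y.dim) j) : LeftInverseIn Z e j := by
  have hPT : IsTen Z Y T τ := isTen_of_isProd hP
  obtain ⟨θ, hθ, hθL⟩ := h
  have hθ' : θ ∈ T.corr (-((e + Y.dim : ℕ) : ℤ)) := hθ
  have hπ0 := desc_π h0
  set Ψ : Module.End F T.H := ∑ q ∈ Finset.range (Y.dim + 1), ((e + Y.dim).choose q : F) •
    ext τ (Z.L ^ (Y.dim - q)) (Y.L ^ q) with hΨ
  have hΨc : Ψ ∈ T.corr Y.dim := by
    refine T.corr_sum _ _ fun q hq => ?_
    have hq' := Finset.mem_range.mp hq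
    have h1 : ext τ (Z.L ^ (Y.dim - q)) (Y.L ^ q) ∈ T.corr Y.dim :=
      hPT.ext_corr (Z.Lpow_corr (Y.dim - q)) (Y.Lpow_corr q) (by omega)
    have h2 := T.corr_smul ((e + Y.dim).choose q : ℚ) _ _ h1
    rwa [Rat.cast_natCast] at h2
  set γ' : Module.End F T.H := θ * Ψ * ext τ 1 (Y.π 0) with hγ'
  have hγc : γ' ∈ T.corr (-(e : ℤ)) := by
    refine T.corr_mul' (r := -(e : ℤ)) (s := 0) (by ring)
      (T.corr_mul' (r := -((e + Y.dim : ℕ) : ℤ)) (s := Y.dim) ?_ hθ' hΨc)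
      (hPT.ext_corr Z.corr_one hπ0 (by ring))
    push_cast
    ring
  have hγ : ∀ (x : Z.H) (y : Y.H), Z.π j x = x →
      γ' (τ (((Z.L ^ e) x) ⊗ₜ y)) = τ (x ⊗ₜ (Y.π 0 y)) := by
    intro x y hx
    have hu : Y.π 0 (Y.π 0 y) = Y.π 0 y := Y.π_apply_idem 0 y
    rw [hγ', Module.End.mul_apply, Module.End.mul_apply, ext_apply, Module.End.one_apply, hΨ,
      ← desc_pow hPT e x hu]
    apply hθL
    have h1 := hP.grade j 0 x (Y.π 0 y) hx hu
    rwa [add_zero] at h1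
  set γ : Module.End F (Z.H ⊗[F] Y.H) := τ.symm.conj γ' with hγdef
  have hconj : τ.conj γ = γ' := by
    apply LinearMap.ext
    intro b
    rw [LinearEquiv.conj_apply_apply, hγdef, LinearEquiv.conj_apply_apply]
    simp
  have hθ1 : ptr (γ * TensorProduct.map 1 Y.sgn) ∈ Z.corr (-(e : ℤ)) := by
    apply hP.contr
    rw [hconj]
    exact hγc
  obtain ⟨n, hn, hntr⟩ := desc_trace hY
  have hkey : ptr (γ * TensorProduct.map 1 Y.sgn) * (Z.L ^ e * Z.π j) = (n : F) • Z.π j := by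
    have h1 := ptr_mul (1 : Module.End F Z.H) (Z.L ^ e * Z.π j)
      (γ * TensorProduct.map 1 Y.sgn)
    rw [TensorProduct.map_one, one_mul, one_mul] at h1
    rw [← h1]
    have h2 : γ * TensorProduct.map 1 Y.sgn * TensorProduct.map (Z.L ^ e * Z.π j) 1 =
        TensorProduct.map (Z.π j) (Y.π 0) := by
      apply TensorProduct.ext'
      intro a y
      rw [Module.End.mul_apply, Module.End.mul_apply, TensorProduct.map_tmul,
        TensorProduct.map_tmul, TensorProduct.map_tmul, Module.End.one_apply,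
        Module.End.one_apply, Module.End.mul_apply]
      have h3 := hγ (Z.π j a) (Y.sgn y) (Z.π_apply_idem j a)
      rw [hγdef, LinearEquiv.conj_apply_apply, LinearEquiv.symm_symm, h3,
        LinearEquiv.symm_apply_apply, ← Module.End.mul_apply (Y.π 0), desc_sgn]
    rw [h2, ptr_map, hntr]
  have hnF : (n : F) ≠ 0 := Nat.cast_ne_zero.mpr hn
  refine ⟨((1 / n : ℚ) : F) • ptr (γ * TensorProduct.map 1 Y.sgn), Z.corr_smul _ _ _ hθ1, ?_⟩
  intro x hx
  have h4 := congrArg (fun f : Module.End F Z.H => f x) hkey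
  simp only [Module.End.mul_apply, LinearMap.smul_apply] at h4
  rw [hx] at h4
  rw [LinearMap.smul_apply, h4, smul_smul]
  push_cast
  rw [one_div, inv_mul_cancel₀ hnF, one_smul]

/-- the weak form of `B(Z × Y)` in degree `j` gives the weak form of `B(Z)` in degree `j` -/
theorem almostIn_of_product (hP : IsProd Z Y T τ) (h0 : LefschetzIn Y 0) (hY : Y.π 0 ≠ 0) {j : ℕ}
    (h : AlmostIn T j) : AlmostIn Z j := by
  intro hj
  have hdim := hP.dim
  have h1 := h (by omega)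
  rw [show T.dim - j - 1 = (Z.dim - j - 1) + Y.dim by omega] at h1
  exact leftInverseIn_of_product hP h0 hY h1

/-- `B(Z × Y)` in degree `j` gives `B(Z)` in degree `j` -/
theorem lefschetzIn_of_product (hP : IsProd Z Y T τ) (h0 : LefschetzIn Y 0) (hY : Y.π 0 ≠ 0)
    {j : ℕ} (h : LefschetzIn T j) : LefschetzIn Z j := by
  rw [lefschetzIn_iff] at h ⊢
  intro hj
  have hdim := hP.dim
  have h1 := h (by omega)
  rw [show T.dim - j = (Z.dim - j) + Y.dim by omega] at h1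
  exact leftInverseIn_of_product hP h0 hY h1

end Pool.Agent.Helper47.PC
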