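import Pool.Agent.Helper47.PC.StrDef

/-!
# Primitive decomposition in the degrees in which `B` is known: existence

For `i ∈ I` let `κ i` be an algebraic inverse of `L^(d-i) : H^i → H^(2d-i)`. The projector to the
primitive part of `H^i` is `P i = (1 - L κ_(i-2) L^(d-i+1)) π_i` (`P i = π_i` for `i < 2`), and
`c i a = P i κ_i L^(d-i-a)`.
-/

set_option linter.unusedSectionVars false

namespace Pool.Agent.Helper47.PC

open Pool.Agent.Helper29.CPB Pool.Agent.Helper47.PB

universe u v

variable {F : Type u} [Field F] [CharZero F]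

/-- the projector to the primitive part of `H^i` -/
private noncomputable def strP (X : Variety.{u, v} F) (κ : ℕ → Module.End F X.H) (i : ℕ) :
    Module.End F X.H :=
  (if 2 ≤ i then 1 - X.L * κ (i - 2) * X.L ^ (X.dim - i + 1) else 1) * X.π i

/-- the coordinates of the strings -/
private noncomputable def strC (X : Variety.{u, v} F) (κ : ℕ → Module.End F X.H) (i a : ℕ) :
    Module.End F X.H :=
  strP X κ i * κ i * X.L ^ (X.dim - i - a)

/-- `κ i`, `i ∈ I`, is an algebraic inverse of `L^(d-i) : H^i → H^(2d-i)` -/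
private structure StrInv (X : Variety.{u, v} F) (I : Finset ℕ) (κ : ℕ → Module.End F X.H) :
    Prop where
  le : ∀ i ∈ I, i ≤ X.dim
  cl : ∀ i ∈ I, 2 ≤ i → i - 2 ∈ I
  proj : ∀ i ∈ I, X.π i ∈ X.corr 0
  alg : ∀ i ∈ I, κ i ∈ X.corr (i - X.dim)
  inv : ∀ i ∈ I, ∀ x, X.π i x = x → κ i ((X.L ^ (X.dim - i)) x) = x

section

variable {X : Variety.{u, v} F} {I : Finset ℕ} {κ : ℕ → Module.End F X.H}

private lemma strP_corr (h : StrInv X I κ) {i : ℕ} (hi : i ∈ I) : strP X κ i ∈ X.corr 0 := by
  unfold strP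
  refine X.corr_mul' (r := 0) (s := 0) (by ring) ?_ (h.proj i hi)
  split_ifs with h2
  · refine (X.corr 0).sub_mem X.corr_one ?_
    refine X.corr_mul' (r := 1 + (((i - 2 : ℕ) : ℤ) - X.dim)) (s := ((X.dim - i + 1 : ℕ) : ℤ)) ?_
      (X.corr_mul' rfl X.L_corr (h.alg _ (h.cl i hi h2))) (X.Lpow_corr _)
    have := h.le i hi
    omega
  · exact X.corr_one

private lemma strP_π (i : ℕ) (x : X.H) : strP X κ i (X.π i x) = strP X κ i x := by
  unfold strP
  rw [Module.End.mul_apply, Module.End.mul_apply, X.π_apply_idem]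

private lemma strP_deg (h : StrInv X I κ) {i : ℕ} (hi : i ∈ I) (x : X.H) :
    X.π i (strP X κ i x) = strP X κ i x := by
  rw [← strP_π]
  exact X.corr_homog (strP_corr h hi) (by ring) (X.π_apply_idem _ _)

private lemma strP_ne {i : ℕ} {k : ℤ} (hk : (i : ℤ) ≠ k) {x : X.H} (hx : X.π k x = x) :
    strP X κ i x = 0 := by
  unfold strP
  rw [Module.End.mul_apply, X.π_apply_ne hk hx, map_zero]

/-- on `H^i` the projector is `x ↦ x - L z`, where `L^(d-i+2) z = L^(d-i+1) x` -/
private lemma strP_split (h : StrInv X I κ) {i : ℕ} (hi : i ∈ I) (h2 : 2 ≤ i) {x : X.H}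
    (hx : X.π i x = x) : ∃ z, X.π ((i - 2 : ℕ) : ℤ) z = z ∧
      (X.L ^ (X.dim - i + 2)) z = (X.L ^ (X.dim - i + 1)) x ∧ strP X κ i x = x - X.L z := by
  have hle := h.le i hi
  have hy : X.π (2 * X.dim - ((i - 2 : ℕ) : ℤ)) ((X.L ^ (X.dim - i + 1)) x) =
      (X.L ^ (X.dim - i + 1)) x :=
    X.corr_homog (X.Lpow_corr _) (by omega) hx
  obtain ⟨z, hz, hzy⟩ := X.hard_surj (i - 2) (by omega) _ hy
  refine ⟨z, hz, ?_, ?_⟩
  · rw [← hzy, show X.dim - (i - 2) = X.dim - i + 2 by omega]
  · unfold strP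
    rw [if_pos h2, Module.End.mul_apply, hx, LinearMap.sub_apply, Module.End.one_apply,
      Module.End.mul_apply, Module.End.mul_apply, ← hzy, h.inv (i - 2) (h.cl i hi h2) z hz]

private lemma strP_top (h : StrInv X I κ) {i : ℕ} (hi : i ∈ I) (x : X.H) :
    (X.L ^ (X.dim - i + 1)) (strP X κ i x) = 0 := by
  have hle := h.le i hi
  rcases lt_or_ge i 2 with h2 | h2
  · exact X.homog_zero (i := i + 2 * ((X.dim - i + 1 : ℕ) : ℤ)) (Or.inr (by omega))
      (X.corr_homog (X.Lpow_corr _) rfl (strP_deg h hi x))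
  · obtain ⟨z, hz, hzx, e⟩ := strP_split h hi h2 (X.π_apply_idem i x)
    rw [← strP_π, e, map_sub, ← hzx, ← Module.End.mul_apply (X.L ^ (X.dim - i + 1)) X.L,
      ← pow_succ, sub_self]

private lemma strP_L (h : StrInv X I κ) {i : ℕ} (hi : i ∈ I) {k : ℤ} (hk : k + 2 = i) {z : X.H}
    (hz : X.π k z = z) : strP X κ i (X.L z) = 0 := by
  have hle := h.le i hi
  have hLz : X.π i (X.L z) = X.L z := X.corr_homog X.L_corr (by omega) hz
  rcases lt_or_ge k 0 with hk0 | hk0
  · rw [X.homog_zero (Or.inl hk0) hz, map_zero, map_zero]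
  have h2 : 2 ≤ i := by omega
  have hk' : k = ((i - 2 : ℕ) : ℤ) := by omega
  rw [hk'] at hz
  unfold strP
  rw [if_pos h2, Module.End.mul_apply, hLz, LinearMap.sub_apply, Module.End.one_apply,
    Module.End.mul_apply, Module.End.mul_apply, ← Module.End.mul_apply (X.L ^ _) X.L, ← pow_succ,
    show X.dim - i + 1 + 1 = X.dim - (i - 2) by omega, h.inv _ (h.cl i hi h2) z hz, sub_self]

private lemma strP_prim {i : ℕ} {x : X.H} (hx : X.π i x = x)
    (h0 : (X.L ^ (X.dim - i + 1)) x = 0) : strP X κ i x = x := by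
  unfold strP
  rw [Module.End.mul_apply, hx]
  split_ifs
  · rw [LinearMap.sub_apply, Module.End.one_apply, Module.End.mul_apply, h0, map_zero, sub_zero]
  · rfl

private lemma strC_ne (h : StrInv X I κ) {i : ℕ} (hi : i ∈ I) {a : ℕ} (ha : a ≤ X.dim - i) {k : ℤ}
    (hk : k ≠ i + 2 * a) {x : X.H} (hx : X.π k x = x) : strC X κ i a x = 0 := by
  have := h.le i hi
  unfold strC
  rw [Module.End.mul_apply, Module.End.mul_apply]
  exact strP_ne (k := k - 2 * a) (by omega) (X.corr_homog (h.alg i hi)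
    (i := k + 2 * ((X.dim - i - a : ℕ) : ℤ)) (by omega) (X.corr_homog (X.Lpow_corr _) rfl hx))

/-- the coordinates of `L^b w`, `w` primitive of degree `j` -/
private lemma strC_prim (h : StrInv X I κ) {i j : ℕ} (hi : i ∈ I) (hj : j ∈ I) {a b : ℕ}
    (ha : a ≤ X.dim - i) (hb : b ≤ X.dim - j) {w : X.H} (hw : X.π j w = w)
    (h0 : (X.L ^ (X.dim - j + 1)) w = 0) :
    strC X κ i a ((X.L ^ b) w) = if i = j ∧ a = b then w else 0 := by
  have hlei := h.le i hi
  have hlej := h.le j hj
  have hLw : X.π (j + 2 * b) ((X.L ^ b) w) = (X.L ^ b) w := X.corr_homog (X.Lpow_corr _) rfl hw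
  by_cases hdeg : (j : ℤ) + 2 * b = i + 2 * a
  · rcases lt_trichotomy j i with hlt | heq | hgt
    · rw [if_neg (by omega)]
      obtain ⟨m, hm⟩ : ∃ m, b = a + (m + 1) := ⟨b - a - 1, by omega⟩
      have hv : X.π i ((X.L ^ (m + 1)) w) = (X.L ^ (m + 1)) w :=
        X.corr_homog (X.Lpow_corr _) (by omega) hw
      have e : (X.L ^ (X.dim - i - a)) ((X.L ^ b) w) =
          (X.L ^ (X.dim - i)) ((X.L ^ (m + 1)) w) := by
        rw [← Module.End.mul_apply, ← pow_add, ← Module.End.mul_apply, ← pow_add,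
          show X.dim - i - a + b = X.dim - i + (m + 1) by omega]
      unfold strC
      rw [Module.End.mul_apply, Module.End.mul_apply, e, h.inv i hi _ hv, pow_succ',
        Module.End.mul_apply]
      exact strP_L h hi (k := j + 2 * m) (by omega) (X.corr_homog (X.Lpow_corr _) rfl hw)
    · subst heq
      have hba : b = a := by omega
      subst hba
      rw [if_pos ⟨rfl, rfl⟩]
      unfold strC
      rw [Module.End.mul_apply, Module.End.mul_apply, ← Module.End.mul_apply (X.L ^ _) (X.L ^ _),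
        ← pow_add, Nat.sub_add_cancel ha, h.inv _ hj _ hw]
      exact strP_prim hw h0
    · rw [if_neg (by omega)]
      have e : (X.L ^ (X.dim - i - a)) ((X.L ^ b) w) = 0 := by
        obtain ⟨e, he⟩ : ∃ e, X.dim - i - a + b = e + (X.dim - j + 1) :=
          ⟨X.dim - i - a + b - (X.dim - j + 1), by omega⟩
        rw [← Module.End.mul_apply, ← pow_add, he, pow_add, Module.End.mul_apply, h0, map_zero]
      unfold strC
      rw [Module.End.mul_apply, Module.End.mul_apply, e, map_zero, map_zero]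
  · rw [if_neg (by rintro ⟨rfl, rfl⟩; exact hdeg rfl)]
    exact strC_ne h hi ha hdeg hLw

private lemma strC_deg (h : StrInv X I κ) {i : ℕ} (hi : i ∈ I) (a : ℕ) (x : X.H) :
    X.π i (strC X κ i a x) = strC X κ i a x := by
  unfold strC
  rw [mul_assoc, Module.End.mul_apply]
  exact strP_deg h hi _

private lemma strC_top (h : StrInv X I κ) {i : ℕ} (hi : i ∈ I) (a : ℕ) (x : X.H) :
    (X.L ^ (X.dim - i + 1)) (strC X κ i a x) = 0 := by
  unfold strC
  rw [mul_assoc, Module.End.mul_apply]
  exact strP_top h hi _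

private lemma strC_succ (i : ℕ) {a : ℕ} (ha : a < X.dim - i) :
    strC X κ i (a + 1) * X.L = strC X κ i a := by
  unfold strC
  rw [mul_assoc, ← pow_succ, show X.dim - i - (a + 1) + 1 = X.dim - i - a by omega]

private lemma strC_zero (h : StrInv X I κ) {i : ℕ} (hi : i ∈ I) : strC X κ i 0 * X.L = 0 := by
  apply X.ext_homog
  intro k x hx
  have hLx : X.π (k + 2) (X.L x) = X.L x := X.corr_homog X.L_corr (by ring) hx
  rw [Module.End.mul_apply, LinearMap.zero_apply]
  by_cases hk : k + 2 = i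
  · unfold strC
    rw [Module.End.mul_apply, Module.End.mul_apply, Nat.sub_zero,
      h.inv i hi _ (by rw [← hk]; exact hLx)]
    exact strP_L h hi hk hx
  · exact strC_ne h hi (Nat.zero_le _) (by push_cast; omega) hLx

/-- the blocks commute with `L` -/
private lemma strBlock_L (h : StrInv X I κ) {i : ℕ} (hi : i ∈ I) :
    block X (strC X κ) i * X.L = X.L * block X (strC X κ) i := by
  unfold block
  rw [Finset.sum_mul, Finset.mul_sum, Finset.sum_range_succ', Finset.sum_range_succ]
  congr 1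
  · refine Finset.sum_congr rfl fun a ha => ?_
    rw [mul_assoc, strC_succ i (Finset.mem_range.mp ha), ← mul_assoc, pow_succ']
  · rw [mul_assoc, strC_zero h hi, mul_zero, ← mul_assoc, ← pow_succ']
    symm
    apply LinearMap.ext
    intro x
    rw [Module.End.mul_apply, strC_top h hi, LinearMap.zero_apply]

private lemma strLow_L (h : StrInv X I κ) (x : X.H) :
    lowPart X I (strC X κ) (X.L x) = X.L (lowPart X I (strC X κ) x) := by
  have e : lowPart X I (strC X κ) * X.L = X.L * lowPart X I (strC X κ) := by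
    unfold lowPart
    rw [Finset.sum_mul, Finset.mul_sum]
    exact Finset.sum_congr rfl fun i hi => strBlock_L h hi
  exact congrArg (fun f : Module.End F X.H => f x) e

private lemma strLow_prim (h : StrInv X I κ) {j : ℕ} (hj : j ∈ I) {w : X.H} (hw : X.π j w = w)
    (h0 : (X.L ^ (X.dim - j + 1)) w = 0) : lowPart X I (strC X κ) w = w := by
  have hc : ∀ i ∈ I, ∀ a ≤ X.dim - i, strC X κ i a w = if i = j ∧ a = 0 then w else 0 :=
    fun i hi a ha => strC_prim h hi hj ha (Nat.zero_le _) hw h0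
  unfold lowPart
  rw [LinearMap.sum_apply, Finset.sum_eq_single_of_mem j hj]
  · unfold block
    rw [LinearMap.sum_apply, Finset.sum_eq_single_of_mem 0 (Finset.mem_range.mpr (by omega))]
    · rw [Module.End.mul_apply, hc j hj 0 (Nat.zero_le _), if_pos ⟨rfl, rfl⟩, pow_zero,
        Module.End.one_apply]
    · intro a ha ha0
      rw [Module.End.mul_apply, hc j hj a (by have := Finset.mem_range.mp ha; omega),
        if_neg (by tauto), map_zero]
  · intro i hi hij
    unfold block
    rw [LinearMap.sum_apply]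
    refine Finset.sum_eq_zero fun a ha => ?_
    rw [Module.End.mul_apply, hc i hi a (by have := Finset.mem_range.mp ha; omega),
      if_neg (by tauto), map_zero]

private lemma strLow_span (h : StrInv X I κ) : ∀ i ∈ I, ∀ x, X.π i x = x →
    lowPart X I (strC X κ) x = x := by
  intro i
  induction i using Nat.strong_induction_on with
  | _ i ih =>
    intro hi x hx
    have hP : lowPart X I (strC X κ) (strP X κ i x) = strP X κ i x :=
      strLow_prim h hi (strP_deg h hi x) (strP_top h hi x)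
    rcases lt_or_ge i 2 with h2 | h2
    · have e : strP X κ i x = x := by
        refine strP_prim hx ?_
        have hle := h.le i hi
        exact X.homog_zero (i := i + 2 * ((X.dim - i + 1 : ℕ) : ℤ)) (Or.inr (by omega))
          (X.corr_homog (X.Lpow_corr _) rfl hx)
      rw [e] at hP
      exact hP
    · obtain ⟨z, hz, -, e⟩ := strP_split h hi h2 hx
      have h1 : x = strP X κ i x + X.L z := by rw [e, sub_add_cancel]
      calc lowPart X I (strC X κ) x
          = lowPart X I (strC X κ) (strP X κ i x + X.L z) := by rw [← h1]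
        _ = strP X κ i x + X.L z := by
            rw [map_add, hP, strLow_L h, ih (i - 2) (by omega) (h.cl i hi h2) z hz]
        _ = x := h1.symm

end

theorem exists_strings (X : Variety.{u, v} F) (I : Finset ℕ) (hle : ∀ i ∈ I, i ≤ X.dim)
    (hcl : ∀ i ∈ I, 2 ≤ i → i - 2 ∈ I) (hπ : ∀ i ∈ I, X.π i ∈ X.corr 0)
    (hB : ∀ i ∈ I, LefschetzIn X i) : ∃ c, IsStrings X I c := by
  have hB' : ∀ i ∈ I, ∃ κ, κ ∈ X.corr (i - X.dim) ∧
      ∀ x, X.π i x = x → κ ((X.L ^ (X.dim - i)) x) = x := fun i hi => hB i hi (hle i hi)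
  choose! κ hκ hκL using hB'
  have h : StrInv X I κ := ⟨hle, hcl, hπ, hκ, hκL⟩
  refine ⟨strC X κ, hle, ?_, ?_, ?_, ?_, ?_, ?_, ?_⟩
  · intro i hi a ha
    have := hle i hi
    unfold strC
    exact X.corr_mul' (r := i - X.dim) (s := ((X.dim - i - a : ℕ) : ℤ)) (by omega)
      (X.corr_mul' (r := 0) (by ring) (strP_corr h hi) (hκ i hi)) (X.Lpow_corr _)
  · intro i hi a _ x
    exact strC_deg h hi a x
  · intro i hi a _
    apply LinearMap.ext
    intro x
    rw [Module.End.mul_apply, strC_top h hi, LinearMap.zero_apply]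
  · intro i hi i' hi' a ha a' ha' a'' _
    apply LinearMap.ext
    intro x
    rw [Module.End.mul_apply, Module.End.mul_apply,
      strC_prim h hi hi' ha ha' (strC_deg h hi' a'' x) (strC_top h hi' a'' x)]
    split_ifs <;> rfl
  · intro i _ a ha
    exact strC_succ i ha
  · intro i hi
    exact strC_zero h hi
  · exact strLow_span h

end Pool.Agent.Helper47.PC
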