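import Pool.Agent.Helper47.PC.StrDef

/-!
# Primitive decomposition in the degrees in which `B` is known: properties
-/

set_option linter.unusedSectionVars false

namespace Pool.Agent.Helper47.PC

open Pool.Agent.Helper29.CPB Pool.Agent.Helper47.PB

universe u v

variable {F : Type u} [Field F] [CharZero F] {X : Variety.{u, v} F} {I : Finset ℕ}
  {c : ℕ → ℕ → Module.End F X.H}

namespace IsStrings

variable (h : IsStrings X I c)

include h

lemma block_corr {i : ℕ} (hi : i ∈ I) : block X c i ∈ X.corr 0 := by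
  refine X.corr_sum _ _ fun a ha => ?_
  have ha' : a ≤ X.dim - i := by
    have := Finset.mem_range.mp ha
    omega
  exact X.corr_mul' (by ring) (X.Lpow_corr a) (h.corr i hi a ha')

lemma lowPart_corr : lowPart X I c ∈ X.corr 0 := by
  refine X.corr_sum _ _ fun i hi => ?_
  exact h.block_corr hi

lemma block_L {i : ℕ} (hi : i ∈ I) : block X c i * X.L = X.L * block X c i := by
  unfold block
  rw [Finset.sum_mul, Finset.mul_sum, Finset.sum_range_succ', Finset.sum_range_succ]
  have h0 : X.L ^ 0 * c i 0 * X.L = 0 := by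
    rw [mul_assoc, h.zero i hi, mul_zero]
  have h1 : X.L * (X.L ^ (X.dim - i) * c i (X.dim - i)) = 0 := by
    rw [← mul_assoc, ← pow_succ', h.top i hi _ le_rfl]
  rw [h0, h1, add_zero, add_zero]
  refine Finset.sum_congr rfl fun a ha => ?_
  rw [mul_assoc, h.succ i hi a (Finset.mem_range.mp ha), pow_succ', mul_assoc]

lemma lowPart_L : lowPart X I c * X.L = X.L * lowPart X I c := by
  unfold lowPart
  rw [Finset.sum_mul, Finset.mul_sum]
  exact Finset.sum_congr rfl fun i hi => h.block_L hi

lemma lowPart_Lpow (k : ℕ) : lowPart X I c * X.L ^ k = X.L ^ k * lowPart X I c := by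
  have h1 : Commute (lowPart X I c) X.L := h.lowPart_L
  exact h1.pow_right k

/-- `c i a` vanishes on the other strings -/
lemma coord_block {i i' a : ℕ} (hi : i ∈ I) (hi' : i' ∈ I) (ha : a ≤ X.dim - i) :
    c i a * block X c i' = if i = i' then c i a else 0 := by
  unfold block
  rw [Finset.mul_sum]
  have h1 : ∀ a' ∈ Finset.range (X.dim - i' + 1), c i a * (X.L ^ a' * c i' a') =
      if i = i' ∧ a = a' then c i' a' else 0 := by
    intro a' ha'
    have h2 : a' ≤ X.dim - i' := by
      have := Finset.mem_range.mp ha'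
      omega
    rw [← mul_assoc, h.coord i hi i' hi' a ha a' h2 a' h2]
  rw [Finset.sum_congr rfl h1]
  split_ifs with h3
  · subst h3
    rw [Finset.sum_eq_single a]
    · simp
    · intro b _ hb
      rw [if_neg]
      rintro ⟨_, h4⟩
      exact hb h4.symm
    · intro h4
      exact absurd (Finset.mem_range.mpr (by omega)) h4
  · refine Finset.sum_eq_zero fun a' _ => ?_
    rw [if_neg]
    rintro ⟨h4, _⟩
    exact h3 h4

lemma coord_lowPart {i a : ℕ} (hi : i ∈ I) (ha : a ≤ X.dim - i) :
    c i a * lowPart X I c = c i a := by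
  unfold lowPart
  rw [Finset.mul_sum, Finset.sum_eq_single i]
  · rw [h.coord_block hi hi ha, if_pos rfl]
  · intro i' hi' hne
    rw [h.coord_block hi hi' ha, if_neg hne.symm]
  · intro h1
    exact absurd hi h1

lemma block_block {i i' : ℕ} (hi : i ∈ I) (hi' : i' ∈ I) :
    block X c i * block X c i' = if i = i' then block X c i else 0 := by
  have h1 : block X c i * block X c i' = ∑ a ∈ Finset.range (X.dim - i + 1),
      X.L ^ a * (if i = i' then c i a else 0) := by
    conv_lhs => rw [block, Finset.sum_mul]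
    refine Finset.sum_congr rfl fun a ha => ?_
    have ha' : a ≤ X.dim - i := by
      have := Finset.mem_range.mp ha
      omega
    rw [mul_assoc, h.coord_block hi hi' ha']
  rw [h1]
  split_ifs with h2
  · rfl
  · simp

lemma block_lowPart {i : ℕ} (hi : i ∈ I) : block X c i * lowPart X I c = block X c i := by
  conv_lhs => rw [block, Finset.sum_mul]
  refine Finset.sum_congr rfl fun a ha => ?_
  have ha' : a ≤ X.dim - i := by
    have := Finset.mem_range.mp ha
    omega
  rw [mul_assoc, h.coord_lowPart hi ha']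

lemma lowPart_block {i : ℕ} (hi : i ∈ I) : lowPart X I c * block X c i = block X c i := by
  conv_lhs => rw [lowPart, Finset.sum_mul]
  rw [Finset.sum_eq_single i]
  · rw [h.block_block hi hi, if_pos rfl]
  · intro i' hi' hne
    rw [h.block_block hi' hi, if_neg hne]
  · intro h1
    exact absurd hi h1

lemma lowPart_lowPart : lowPart X I c * lowPart X I c = lowPart X I c := by
  have h1 : lowPart X I c * lowPart X I c = ∑ i ∈ I, block X c i * lowPart X I c := by
    conv_lhs => rw [lowPart, Finset.sum_mul]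
    rfl
  rw [h1]
  exact Finset.sum_congr rfl fun i hi => h.block_lowPart hi

/-- coordinates of `L^l u`, `u = c i' a'' y` -/
lemma coord_apply {i i' a l a'' : ℕ} (hi : i ∈ I) (hi' : i' ∈ I) (ha : a ≤ X.dim - i)
    (ha'' : a'' ≤ X.dim - i') (y : X.H) :
    c i a ((X.L ^ l) (c i' a'' y)) = if i = i' ∧ a = l then c i' a'' y else 0 := by
  rcases le_or_gt l (X.dim - i') with hl | hl
  · have h1 := congrArg (fun g => g y) (h.coord i hi i' hi' a ha l hl a'' ha'')
    simp only [Module.End.mul_apply] at h1
    rw [h1]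
    split_ifs with h2
    · rfl
    · rfl
  · have h2 : (X.L ^ l) (c i' a'' y) = 0 := by
      obtain ⟨k, hk⟩ : ∃ k, l = k + (X.dim - i' + 1) := ⟨l - (X.dim - i' + 1), by omega⟩
      have h3 := congrArg (fun g => g y) (h.top i' hi' a'' ha'')
      simp only [Module.End.mul_apply, LinearMap.zero_apply] at h3
      rw [hk, pow_add, Module.End.mul_apply, h3, map_zero]
    rw [h2, map_zero, if_neg]
    rintro ⟨h4, h5⟩
    subst h4
    omega

/-- the strings which start in degrees `i ∈ I` fill `H^(2d-i)` -/
lemma span_high {i : ℕ} (hi : i ∈ I) (x : X.H) (hx : X.π (2 * X.dim - i) x = x) :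
    lowPart X I c x = x := by
  have hid := h.le i hi
  obtain ⟨x', hx', hxx⟩ := X.hard_surj i hid x hx
  have h1 := congrArg (fun g => g x') (h.lowPart_Lpow (X.dim - i))
  simp only [Module.End.mul_apply] at h1
  rw [← hxx, h1, h.span i hi x' hx']

/-- if `I` contains all `i ≤ r` with `i ≤ d`, then the strings fill the degrees `≤ r` and
`≥ 2d - r` -/
lemma span_of_le {r : ℕ} (hI : ∀ i : ℕ, i ≤ r → i ≤ X.dim → i ∈ I) {p : ℤ}
    (hp : p ≤ r ∨ 2 * (X.dim : ℤ) - r ≤ p) (x : X.H) (hx : X.π p x = x) : lowPart X I c x = x := by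
  rcases lt_or_ge p 0 with h0 | h0
  · rw [X.homog_zero (Or.inl h0) hx, map_zero]
  rcases lt_or_ge (2 * (X.dim : ℤ)) p with h1 | h1
  · rw [X.homog_zero (Or.inr h1) hx, map_zero]
  rcases le_or_gt p X.dim with h2 | h2
  · obtain ⟨i, rfl⟩ := Int.eq_ofNat_of_zero_le h0
    exact h.span i (hI i (by omega) (by omega)) x hx
  · obtain ⟨i, hi⟩ := Int.eq_ofNat_of_zero_le (a := 2 * (X.dim : ℤ) - p) (by omega)
    refine h.span_high (i := i) (hI i (by omega) (by omega)) x ?_
    rw [show 2 * (X.dim : ℤ) - i = p by omega]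
    exact hx

/-- if `I` contains all `i ≤ d`, then `lowPart = 1` -/
lemma span_all (hI : ∀ i : ℕ, i ≤ X.dim → i ∈ I) : lowPart X I c = 1 := by
  apply X.ext_homog
  intro p x hx
  rw [Module.End.one_apply]
  refine h.span_of_le (r := 2 * X.dim) (fun i _ hi => hI i hi) (p := p) ?_ x hx
  push_cast
  omega

end IsStrings

end Pool.Agent.Helper47.PC
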