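import Pool.Agent.Helper47.PC.Statement
import Pool.Agent.Helper47.PB.Prod

/-!
# Products: the operators `f ⊗ g`
-/

set_option linter.unusedSectionVars false

namespace Pool.Agent.Helper47.PC

open Pool.Agent.Helper29.CPB Pool.Agent.Helper47.PB TensorProduct

universe u v

variable {F : Type u} [Field F] [CharZero F]

/-- `T = Z × Y`, in terms of an isomorphism `τ : H(Z) ⊗ H(Y) ≃ H(T)` (symmetric in `Z` and `Y`) -/
structure IsTen (Z Y T : Variety.{u, v} F) (τ : (Z.H ⊗[F] Y.H) ≃ₗ[F] T.H) : Prop where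
  dim : T.dim = Z.dim + Y.dim
  grade : ∀ (i j : ℤ) (x : Z.H) (y : Y.H), Z.π i x = x → Y.π j y = y →
    T.π (i + j) (τ (x ⊗ₜ y)) = τ (x ⊗ₜ y)
  polar : T.L = τ.conj (TensorProduct.map Z.L 1 + TensorProduct.map 1 Y.L)
  prod : ∀ (r s t : ℤ) (f : Module.End F Z.H) (g : Module.End F Y.H), f ∈ Z.corr r →
    g ∈ Y.corr s → t = r + s → τ.conj (TensorProduct.map f g) ∈ T.corr t

variable {Z Y T : Variety.{u, v} F} {τ : (Z.H ⊗[F] Y.H) ≃ₗ[F] T.H}

lemma isTen_of_isProd (h : IsProd Z Y T τ) : IsTen Z Y T τ := ⟨h.dim, h.grade, h.polar, h.prod⟩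

/-- the operator `f ⊗ g` on `H(T)` -/
noncomputable def ext (τ : (Z.H ⊗[F] Y.H) ≃ₗ[F] T.H) (f : Module.End F Z.H)
    (g : Module.End F Y.H) : Module.End F T.H :=
  τ.conj (TensorProduct.map f g)

lemma ext_apply (f : Module.End F Z.H) (g : Module.End F Y.H) (a : Z.H) (y : Y.H) :
    ext τ f g (τ (a ⊗ₜ y)) = τ (f a ⊗ₜ g y) := by
  unfold ext
  rw [LinearEquiv.conj_apply_apply, LinearEquiv.symm_apply_apply, TensorProduct.map_tmul]

/-- two operators on `H(T)` are equal if they agree on products -/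
lemma ext_of_tmul {f g : Module.End F T.H} (h : ∀ (a : Z.H) (y : Y.H),
    f (τ (a ⊗ₜ y)) = g (τ (a ⊗ₜ y))) : f = g := by
  apply LinearMap.ext
  intro b
  obtain ⟨t, rfl⟩ := τ.surjective b
  induction t using TensorProduct.induction_on with
  | zero => simp
  | tmul a y => exact h a y
  | add a b ha hb => rw [map_add, map_add, map_add, ha, hb]

/-- two operators on `H(T)` are equal if they agree on products of homogeneous classes -/
lemma ext_of_homog {f g : Module.End F T.H} (h : ∀ (p q : ℤ) (a : Z.H) (y : Y.H), Z.π p a = a →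
    Y.π q y = y → f (τ (a ⊗ₜ y)) = g (τ (a ⊗ₜ y))) : f = g := by
  apply ext_of_tmul (τ := τ)
  intro a y
  have ha : a = ∑ p ∈ Finset.Icc (0 : ℤ) (2 * Z.dim), Z.π p a := by
    rw [← LinearMap.sum_apply, Z.π_sum]; rfl
  have hy : y = ∑ q ∈ Finset.Icc (0 : ℤ) (2 * Y.dim), Y.π q y := by
    rw [← LinearMap.sum_apply, Y.π_sum]; rfl
  rw [ha, hy, TensorProduct.sum_tmul, map_sum, map_sum, map_sum]
  refine Finset.sum_congr rfl fun p _ => ?_
  rw [TensorProduct.tmul_sum, map_sum, map_sum, map_sum]
  refine Finset.sum_congr rfl fun q _ => ?_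
  exact h p q _ _ (Z.π_apply_idem p a) (Y.π_apply_idem q y)

lemma ext_mul (f f' : Module.End F Z.H) (g g' : Module.End F Y.H) :
    ext τ f g * ext τ f' g' = ext τ (f * f') (g * g') := by
  apply ext_of_tmul (τ := τ)
  intro a y
  rw [Module.End.mul_apply, ext_apply, ext_apply, ext_apply]; rfl

lemma ext_one : ext τ 1 1 = 1 := by
  apply ext_of_tmul (τ := τ)
  intro a y
  rw [ext_apply]; rfl

lemma ext_add_left (f f' : Module.End F Z.H) (g : Module.End F Y.H) :
    ext τ (f + f') g = ext τ f g + ext τ f' g := by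
  apply ext_of_tmul (τ := τ)
  intro a y
  rw [LinearMap.add_apply, ext_apply, ext_apply, ext_apply, LinearMap.add_apply,
    TensorProduct.add_tmul, map_add]

lemma ext_add_right (f : Module.End F Z.H) (g g' : Module.End F Y.H) :
    ext τ f (g + g') = ext τ f g + ext τ f g' := by
  apply ext_of_tmul (τ := τ)
  intro a y
  rw [LinearMap.add_apply, ext_apply, ext_apply, ext_apply, LinearMap.add_apply,
    TensorProduct.tmul_add, map_add]

lemma ext_zero_left (g : Module.End F Y.H) : ext τ 0 g = 0 := by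
  apply ext_of_tmul (τ := τ)
  intro a y
  rw [ext_apply, LinearMap.zero_apply, TensorProduct.zero_tmul, map_zero, LinearMap.zero_apply]

lemma ext_zero_right (f : Module.End F Z.H) : ext τ f 0 = 0 := by
  apply ext_of_tmul (τ := τ)
  intro a y
  rw [ext_apply, LinearMap.zero_apply, TensorProduct.tmul_zero, map_zero, LinearMap.zero_apply]

lemma ext_sub_left (f f' : Module.End F Z.H) (g : Module.End F Y.H) :
    ext τ (f - f') g = ext τ f g - ext τ f' g := by
  apply ext_of_tmul (τ := τ)
  intro a y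
  rw [LinearMap.sub_apply, ext_apply, ext_apply, ext_apply, LinearMap.sub_apply,
    TensorProduct.sub_tmul, map_sub]

lemma ext_sub_right (f : Module.End F Z.H) (g g' : Module.End F Y.H) :
    ext τ f (g - g') = ext τ f g - ext τ f g' := by
  apply ext_of_tmul (τ := τ)
  intro a y
  rw [LinearMap.sub_apply, ext_apply, ext_apply, ext_apply, LinearMap.sub_apply,
    TensorProduct.tmul_sub, map_sub]

lemma ext_sum_left {ι : Type*} (t : Finset ι) (f : ι → Module.End F Z.H)
    (g : Module.End F Y.H) : ext τ (∑ i ∈ t, f i) g = ∑ i ∈ t, ext τ (f i) g := by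
  classical
  induction t using Finset.induction_on with
  | empty => simp [ext_zero_left]
  | insert a t ha ih => rw [Finset.sum_insert ha, Finset.sum_insert ha, ext_add_left, ih]

lemma ext_sum_right {ι : Type*} (t : Finset ι) (f : Module.End F Z.H)
    (g : ι → Module.End F Y.H) : ext τ f (∑ i ∈ t, g i) = ∑ i ∈ t, ext τ f (g i) := by
  classical
  induction t using Finset.induction_on with
  | empty => simp [ext_zero_right]
  | insert a t ha ih => rw [Finset.sum_insert ha, Finset.sum_insert ha, ext_add_right, ih]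

namespace IsTen

variable (hP : IsTen Z Y T τ)

include hP

lemma ext_corr {r s t : ℤ} {f : Module.End F Z.H} {g : Module.End F Y.H} (hf : f ∈ Z.corr r)
    (hg : g ∈ Y.corr s) (ht : t = r + s) : ext τ f g ∈ T.corr t :=
  hP.prod r s t f g hf hg ht

lemma L_eq : T.L = ext τ Z.L 1 + ext τ 1 Y.L := by
  rw [hP.polar]
  unfold ext
  rw [map_add]

lemma swap : IsTen Y Z T ((TensorProduct.comm F Y.H Z.H).trans τ) := by
  refine ⟨by rw [hP.dim, add_comm], ?_, ?_, ?_⟩
  · intro i j x y hx hy
    rw [add_comm i j]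
    simp only [LinearEquiv.trans_apply, TensorProduct.comm_tmul]
    exact hP.grade j i y x hy hx
  · apply ext_of_tmul (τ := (TensorProduct.comm F Y.H Z.H).trans τ)
    intro a y
    rw [LinearEquiv.conj_apply_apply, LinearEquiv.symm_apply_apply, LinearMap.add_apply,
      TensorProduct.map_tmul, TensorProduct.map_tmul]
    simp only [LinearEquiv.trans_apply, TensorProduct.comm_tmul, map_add]
    rw [hP.L_eq, LinearMap.add_apply, ext_apply, ext_apply, add_comm]
  · intro r s t f g hf hg ht
    have h := hP.prod s r t g f hg hf (by omega)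
    have h2 : ((TensorProduct.comm F Y.H Z.H).trans τ).conj (TensorProduct.map f g) =
        τ.conj (TensorProduct.map g f) := by
      apply ext_of_tmul (τ := (TensorProduct.comm F Y.H Z.H).trans τ)
      intro a y
      rw [LinearEquiv.conj_apply_apply, LinearEquiv.symm_apply_apply, TensorProduct.map_tmul]
      simp only [LinearEquiv.trans_apply, TensorProduct.comm_tmul]
      rw [LinearEquiv.conj_apply_apply, LinearEquiv.symm_apply_apply, TensorProduct.map_tmul]
    rw [h2]
    exact h

/-- `L^s` on products -/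
lemma Lpow_apply (s : ℕ) (a : Z.H) (y : Y.H) : (T.L ^ s) (τ (a ⊗ₜ y)) =
    ∑ q ∈ Finset.range (s + 1), (s.choose q : F) • τ (((Z.L ^ (s - q)) a) ⊗ₜ ((Y.L ^ q) y)) := by
  have hc : Commute (ext τ 1 Y.L) (ext τ Z.L 1) := by
    show ext τ 1 Y.L * ext τ Z.L 1 = ext τ Z.L 1 * ext τ 1 Y.L
    rw [ext_mul, ext_mul, one_mul, mul_one, one_mul, mul_one]
  have hp1 : ∀ k, (ext τ 1 Y.L) ^ k = ext τ 1 (Y.L ^ k) := by
    intro k
    induction k with
    | zero => rw [pow_zero, pow_zero, ext_one]
    | succ k ih => rw [pow_succ, ih, ext_mul, one_mul, pow_succ]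
  have hp2 : ∀ k, (ext τ Z.L 1) ^ k = ext τ (Z.L ^ k) 1 := by
    intro k
    induction k with
    | zero => rw [pow_zero, pow_zero, ext_one]
    | succ k ih => rw [pow_succ, ih, ext_mul, one_mul, pow_succ]
  rw [hP.L_eq, add_comm, hc.add_pow, LinearMap.sum_apply]
  refine Finset.sum_congr rfl fun q _ => ?_
  rw [hp1, hp2, ext_mul, one_mul, mul_one]
  have h3 : ((s.choose q : ℕ) : Module.End F T.H) = (s.choose q : F) • 1 := by
    rw [← nsmul_one, ← Nat.cast_smul_eq_nsmul F]
  rw [h3, mul_smul_comm, mul_one, LinearMap.smul_apply, ext_apply]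

/-- `C⁺` passes to products -/
lemma cplus (hZ : Z.CPlus) (hY : Y.CPlus) : T.CPlus := by
  have h1 : ext τ (par Z 0) (par Y 0) + ext τ (par Z 1) (par Y 1) = par T 0 := by
    apply ext_of_homog (Z := Z) (Y := Y) (τ := τ)
    intro p q a y ha hy
    have hay := hP.grade p q a y ha hy
    rw [par_apply 0 hay, LinearMap.add_apply, ext_apply, ext_apply, par_apply 0 ha,
      par_apply 0 hy, par_apply 1 ha, par_apply 1 hy]
    simp only [Nat.cast_zero, add_zero, Nat.cast_one, Int.even_add_one]
    by_cases hp : Even p <;> by_cases hq : Even q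
    · rw [if_pos hp, if_pos hq, if_neg (not_not.mpr hp), zero_tmul, map_zero, add_zero,
        if_pos (hp.add hq)]
    · rw [if_pos hp, if_neg hq, if_neg (not_not.mpr hp), zero_tmul, tmul_zero, map_zero, add_zero,
        if_neg (fun h => hq ((Int.even_add.mp h).mp hp))]
    · rw [if_neg hp, if_pos hq, if_pos hp, if_neg (not_not.mpr hq), zero_tmul, tmul_zero, map_zero,
        add_zero, if_neg (fun h => hp ((Int.even_add.mp h).mpr hq))]
    · rw [if_neg hp, zero_tmul, map_zero, zero_add, if_pos hp, if_pos hq,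
        if_pos (Int.even_add.mpr (iff_of_false hp hq))]
  apply cplus_of_par (n := 0)
  rw [← h1]
  exact (T.corr 0).add_mem (hP.ext_corr (par_alg hZ 0) (par_alg hY 0) (by ring))
    (hP.ext_corr (par_alg hZ 1) (par_alg hY 1) (by ring))

end IsTen

end Pool.Agent.Helper47.PC
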