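import Pool.Agent.Helper47.PC.Up
import Pool.Agent.Helper47.PC.Str
import Pool.Agent.Helper47.PC.StrB
import Pool.Agent.Helper47.PC.Ten

/-!
# Tools for products
-/

set_option linter.unusedSectionVars false

namespace Pool.Agent.Helper47.PC

open Pool.Agent.Helper29.CPB Pool.Agent.Helper47.PB TensorProduct

universe u v

variable {F : Type u} [Field F] [CharZero F] {Z Y T : Variety.{u, v} F}
  {τ : (Z.H ⊗[F] Y.H) ≃ₗ[F] T.H}

/-- strings in the degrees `≤ z` -/
theorem exists_strings_low (X : Variety.{u, v} F) (hX : X.CPlus) {z : ℕ}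
    (hB : ∀ i ≤ z, LefschetzIn X i) :
    ∃ I c, IsStrings X I c ∧ ∀ i : ℕ, i ≤ z → i ≤ X.dim → i ∈ I := by
  have hmem : ∀ i, i ∈ (Finset.range (z + 1)).filter (fun i => i ≤ X.dim) ↔
      i ≤ z ∧ i ≤ X.dim := by
    intro i
    rw [Finset.mem_filter, Finset.mem_range, Nat.lt_succ_iff]
  obtain ⟨c, hc⟩ := exists_strings X ((Finset.range (z + 1)).filter (fun i => i ≤ X.dim))
    (fun i hi => ((hmem i).mp hi).2)
    (fun i hi _ => (hmem _).mpr
      ⟨(Nat.sub_le _ _).trans ((hmem i).mp hi).1, (Nat.sub_le _ _).trans ((hmem i).mp hi).2⟩)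
    (fun i hi => (proj_low X hX ((hmem i).mp hi).2
      (fun k hk _ => hB k (hk.trans ((hmem i).mp hi).1)) i le_rfl ⟨i, rfl⟩).1)
    (fun i hi => hB i ((hmem i).mp hi).1)
  exact ⟨_, c, hc, fun i h1 h2 => (hmem i).mpr ⟨h1, h2⟩⟩

/-- an operator on `H(T)` is a left inverse if it is one on the products of homogeneous classes -/
theorem leftInverseIn_of_tmul (hP : IsTen Z Y T τ) {s j : ℕ} {Θ : Module.End F T.H}
    (hΘ : Θ ∈ T.corr (-s)) (h : ∀ (p q : ℤ) (a : Z.H) (y : Y.H), Z.π p a = a → Y.π q y = y →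
      p + q = j → Θ ((T.L ^ s) (τ (a ⊗ₜ y))) = τ (a ⊗ₜ y)) : LeftInverseIn T s j := by
  refine ⟨Θ, hΘ, ?_⟩
  have key : Θ * T.L ^ s * T.π j = T.π j := by
    apply ext_of_homog (Z := Z) (Y := Y) (τ := τ)
    intro p q a y ha hy
    have hay := hP.grade p q a y ha hy
    rw [Module.End.mul_apply, Module.End.mul_apply]
    by_cases hpq : p + q = j
    · rw [hpq] at hay
      rw [hay]
      exact h p q a y ha hy hpq
    · rw [T.π_apply_ne (Ne.symm hpq) hay, map_zero, map_zero]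
  intro x hx
  have h1 := congrArg (fun f => f x) key
  simp only [Module.End.mul_apply] at h1
  rwa [hx] at h1

end Pool.Agent.Helper47.PC
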