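import Pool.Agent.Helper76.CPB.Nil
import Pool.Agent.Helper89.CPB.Generator
import Pool.Agent.Helper47.PC.Tools

/-!
# From left inverses on the product to left inverses on one of the factors

Let `θ` be an algebraic left inverse of `L^(c+c'-1)` on `H^(p+q)(Z × Y)`, let `L^c a` and `L^c' b` be
numerically trivial. Then `θ L^(c+c'-1) (a ⊗ b)` is numerically trivial, hence nilpotent, and it is
`a ⊗ b` on `H^p(Z) ⊗ H^q(Y)`.
-/

set_option linter.unusedSectionVars false

namespace Pool.Agent.Helper47.PC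

open Pool.Agent.Helper29.CPB Pool.Agent.Helper47.PB TensorProduct NL

universe u v

variable {F : Type u} [Field F] [CharZero F] {X Z Y T : Variety.{u, v} F}
  {τ : (Z.H ⊗[F] Y.H) ≃ₗ[F] T.H}

lemma IsTen.sgn_eq (hP : IsTen Z Y T τ) : T.sgn = ext τ Z.sgn Y.sgn := by
  apply ext_of_homog (Z := Z) (Y := Y) (τ := τ)
  intro p q a y ha hy
  rw [T.sgn_apply (hP.grade p q a y ha hy), ext_apply, Z.sgn_apply ha, Y.sgn_apply hy,
    TensorProduct.smul_tmul_smul, map_smul]
  congr 1
  rw [← pow_add]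
  rcases Int.even_or_odd p with hp | hp <;> rcases Int.even_or_odd q with hq | hq
  · rw [(Int.natAbs_even.mpr (hp.add hq)).neg_one_pow,
      ((Int.natAbs_even.mpr hp).add (Int.natAbs_even.mpr hq)).neg_one_pow]
  · rw [(Int.natAbs_odd.mpr (hp.add_odd hq)).neg_one_pow,
      ((Int.natAbs_even.mpr hp).add_odd (Int.natAbs_odd.mpr hq)).neg_one_pow]
  · rw [(Int.natAbs_odd.mpr (hp.add_even hq)).neg_one_pow,
      ((Int.natAbs_odd.mpr hp).add_even (Int.natAbs_even.mpr hq)).neg_one_pow]
  · rw [(Int.natAbs_even.mpr (hp.add_odd hq)).neg_one_pow,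
      ((Int.natAbs_odd.mpr hp).add_odd (Int.natAbs_odd.mpr hq)).neg_one_pow]

lemma num_ext_left (hP : IsProd Z Y T τ) {r s : ℤ} {a : Module.End F Z.H}
    {b : Module.End F Y.H} (h : NumTriv Z r a) (hb : b ∈ Y.corr s) :
    NumTriv T (r + s) (ext τ a b) := by
  intro w hw
  have hT := isTen_of_isProd hP
  set g : Module.End F (Z.H ⊗[F] Y.H) := τ.symm.conj (w * ext τ 1 b) with hg
  have hg1 : τ.conj g = w * ext τ 1 b := by
    apply LinearMap.ext
    intro z
    rw [hg]
    simp
  have hgc : τ.conj g ∈ T.corr (-r) := by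
    rw [hg1]
    exact T.corr_mul' (by ring) hw (hT.ext_corr Z.corr_one hb (t := s) (by ring))
  have h1 := h _ (hP.contr (-r) g hgc)
  rw [trace_ptr_mul, ← LinearMap.trace_conj' _ τ] at h1
  rw [← h1]
  congr 1
  have h2 : τ.conj (g * TensorProduct.map 1 Y.sgn * TensorProduct.map (a * Z.sgn) 1) =
      τ.conj g * ext τ 1 Y.sgn * ext τ (a * Z.sgn) 1 := by
    apply LinearMap.ext
    intro z
    unfold ext
    simp
  rw [h2, hg1, hT.sgn_eq, mul_assoc, mul_assoc w, ext_mul, ext_mul, ext_mul, one_mul, one_mul,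
    mul_one]

lemma ext_swap (f : Module.End F Z.H) (g : Module.End F Y.H) :
    ext ((TensorProduct.comm F Y.H Z.H).trans τ) g f = ext τ f g := by
  apply ext_of_tmul (τ := τ)
  intro a y
  have h1 : τ (a ⊗ₜ[F] y) = ((TensorProduct.comm F Y.H Z.H).trans τ) (y ⊗ₜ a) := by
    simp only [LinearEquiv.trans_apply, TensorProduct.comm_tmul]
  rw [h1, ext_apply, ← h1, ext_apply]
  simp only [LinearEquiv.trans_apply, TensorProduct.comm_tmul]

lemma num_ext_right (hP : IsProd Y Z T ((TensorProduct.comm F Y.H Z.H).trans τ)) {r s : ℤ}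
    {a : Module.End F Z.H} {b : Module.End F Y.H} (ha : a ∈ Z.corr r) (h : NumTriv Y s b) :
    NumTriv T (r + s) (ext τ a b) := by
  rw [add_comm, ← ext_swap]
  exact num_ext_left hP h ha

/-- `L^s (a ⊗ b)` -/
lemma IsTen.Lpow_ext (hP : IsTen Z Y T τ) (s : ℕ) (a : Module.End F Z.H)
    (b : Module.End F Y.H) : T.L ^ s * ext τ a b =
      ∑ q ∈ Finset.range (s + 1), (s.choose q : F) • ext τ (Z.L ^ (s - q) * a) (Y.L ^ q * b) := by
  apply ext_of_tmul (τ := τ)
  intro x y
  rw [Module.End.mul_apply, ext_apply, hP.Lpow_apply, LinearMap.sum_apply]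
  refine Finset.sum_congr rfl fun q _ => ?_
  rw [LinearMap.smul_apply, ext_apply]
  rfl

lemma leftInverseIn_of_nil {c p M : ℕ} {w : Module.End F X.H} (hw : w ∈ X.corr (-c))
    (h : ∀ x, X.π p x = x → ((1 - w * X.L ^ c) ^ M) x = 0) : LeftInverseIn X c p := by
  have hy : 1 - w * X.L ^ c ∈ X.corr 0 :=
    (X.corr 0).sub_mem X.corr_one (X.corr_mul' (by ring) hw (X.Lpow_corr c))
  refine ⟨(∑ i ∈ Finset.range M, (1 - w * X.L ^ c) ^ i) * w, ?_, fun x hx => ?_⟩
  · refine X.corr_mul' (r := 0) (by ring) ?_ hw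
    exact (X.corr 0).sum_mem fun i _ => X.corr_pow_zero hy i
  · have h1 : (∑ i ∈ Finset.range M, (1 - w * X.L ^ c) ^ i) * w * X.L ^ c =
        1 - (1 - w * X.L ^ c) ^ M := by
      have h2 := geom_sum_mul (1 - w * X.L ^ c) M
      have h3 : (1 - w * X.L ^ c) - 1 = -(w * X.L ^ c) := by abel
      rw [h3, mul_neg, neg_eq_iff_eq_neg, neg_sub, ← mul_assoc] at h2
      exact h2
    rw [← Module.End.mul_apply, h1, LinearMap.sub_apply, h x hx, sub_zero]
    rfl

/-- a left inverse of `L^(c+c'-1)` on `H^(p+q)(Z × Y)` gives a left inverse of `L^c` on `H^p(Z)` or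
a left inverse of `L^c'` on `H^q(Y)` -/
theorem leftInverse_or (hP : IsProd Z Y T τ)
    (hP' : IsProd Y Z T ((TensorProduct.comm F Y.H Z.H).trans τ)) (hTC : T.CPlus) {c c' p q : ℕ}
    (hc : 1 ≤ c) (hc' : 1 ≤ c') (h : LeftInverseIn T (c + c' - 1) (p + q)) :
    LeftInverseIn Z c p ∨ LeftInverseIn Y c' q := by
  have hT := isTen_of_isProd hP
  obtain ⟨w, hw, hwn⟩ := exists_generator_corr Z c
  obtain ⟨w', hw', hwn'⟩ := exists_generator_corr Y c'
  set a := 1 - w * Z.L ^ c with ha'
  set b := 1 - w' * Y.L ^ c' with hb'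
  have ha : a ∈ Z.corr 0 :=
    (Z.corr 0).sub_mem Z.corr_one (Z.corr_mul' (by ring) hw (Z.Lpow_corr c))
  have hb : b ∈ Y.corr 0 :=
    (Y.corr 0).sub_mem Y.corr_one (Y.corr_mul' (by ring) hw' (Y.Lpow_corr c'))
  have na : NumTriv Z c (Z.L ^ c * a) := by
    intro v hv
    have := hwn v hv
    rw [← mul_assoc, ← mul_assoc]
    exact this
  have nb : NumTriv Y c' (Y.L ^ c' * b) := by
    intro v hv
    have := hwn' v hv
    rw [← mul_assoc, ← mul_assoc]
    exact this
  obtain ⟨θ, hθ, hθi⟩ := h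
  set s := c + c' - 1 with hs
  have hA : ext τ a b ∈ T.corr 0 := hT.ext_corr ha hb (by ring)
  have hLA : NumTriv T s (T.L ^ s * ext τ a b) := by
    rw [hT.Lpow_ext]
    apply num_sum
    intro i hi
    rw [Finset.mem_range] at hi
    rcases Nat.lt_or_ge i c' with hic | hic
    · have h1 : Z.L ^ (s - i) * a = Z.L ^ (s - i - c) * (Z.L ^ c * a) := by
        rw [← mul_assoc, ← pow_add]; congr 2; omega
      have h2 := num_ext_left hP (na.mul_left (Z.Lpow_corr (s - i - c)))
        (Y.corr_mul' (by simp) (Y.Lpow_corr i) hb : Y.L ^ i * b ∈ Y.corr (i : ℤ))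
      rw [h1]
      convert h2 using 1
      omega
    · have h1 : Y.L ^ i * b = Y.L ^ (i - c') * (Y.L ^ c' * b) := by
        rw [← mul_assoc, ← pow_add]; congr 2; omega
      have h2 := num_ext_right hP' (Z.corr_mul' (by simp) (Z.Lpow_corr (s - i)) ha :
        Z.L ^ (s - i) * a ∈ Z.corr ((s - i : ℕ) : ℤ)) (nb.mul_left (Y.Lpow_corr (i - c')))
      rw [h1]
      convert h2 using 1
      omega
  set t := θ * (T.L ^ s * ext τ a b) with ht'
  have hθ' : θ ∈ T.corr (-s) := hθ
  have ht : t ∈ T.corr 0 :=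
    T.corr_mul' (r := -(s : ℤ)) (s := (s : ℤ)) (by ring) hθ'
      (T.corr_mul' (by ring) (T.Lpow_corr s) hA)
  have htn : NumTriv T 0 t := by
    have h1 := hLA.mul_left hθ'
    rwa [neg_add_cancel] at h1
  have hsgn : T.sgn ∈ T.corr 0 := by
    have h1 : T.sgn = par T 0 - par T 1 := by
      apply T.ext_homog
      intro j x hx
      rw [LinearMap.sub_apply, par_apply 0 hx, par_apply 1 hx, T.sgn_apply hx]
      simp only [Nat.cast_zero, add_zero, Nat.cast_one, Int.even_add_one]
      rcases Int.even_or_odd j with hj | hj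
      · rw [if_pos hj, if_neg (not_not.mpr hj), (Int.natAbs_even.mpr hj).neg_one_pow, one_smul,
          sub_zero]
      · have hj' := Int.not_even_iff_odd.mpr hj
        rw [if_neg hj', if_pos hj', (Int.natAbs_odd.mpr hj).neg_one_pow, neg_one_smul, zero_sub]
    rw [h1]
    exact (T.corr 0).sub_mem (par_alg hTC 0) (par_alg hTC 1)
  obtain ⟨M, hM⟩ : IsNilpotent t := by
    apply Pool.Agent.Helper89.Sgn.isNilpotent_of_trace
    intro m hm
    obtain ⟨m, rfl⟩ : ∃ m', m = m' + 1 := ⟨m - 1, by omega⟩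
    have h1 := htn (T.sgn * t ^ m) (by
      rw [neg_zero]
      exact T.corr_mul' (by ring) hsgn (T.corr_pow_zero ht m))
    rw [← mul_assoc, mul_assoc T.sgn, ← pow_succ, LinearMap.trace_mul_comm, ← mul_assoc,
      T.sgn_mul_sgn, one_mul] at h1
    exact h1
  have hact : ∀ (m : ℕ) (x : Z.H) (y : Y.H), Z.π p x = x → Y.π q y = y →
      (t ^ m) (τ (x ⊗ₜ y)) = τ (((a ^ m) x) ⊗ₜ ((b ^ m) y)) := by
    intro m
    induction m with
    | zero => intro x y _ _; simp
    | succ m ih =>
      intro x y hx hy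
      have hax : Z.π p (a x) = a x := Z.corr_homog ha (by ring) hx
      have hby : Y.π q (b y) = b y := Y.corr_homog hb (by ring) hy
      have h1 : t (τ (x ⊗ₜ y)) = τ (a x ⊗ₜ b y) := by
        rw [ht', Module.End.mul_apply, Module.End.mul_apply, ext_apply]
        apply hθi
        have := hT.grade p q _ _ hax hby
        push_cast
        exact this
      rw [pow_succ, Module.End.mul_apply, h1, ih _ _ hax hby, pow_succ, pow_succ,
        Module.End.mul_apply, Module.End.mul_apply]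
  by_cases hza : ∀ x, Z.π p x = x → (a ^ M) x = 0
  · exact Or.inl (leftInverseIn_of_nil hw hza)
  · right
    push Not at hza
    obtain ⟨x, hx, hx0⟩ := hza
    refine leftInverseIn_of_nil hw' (M := M) fun y hy => ?_
    have h1 := hact M x y hx hy
    rw [hM, LinearMap.zero_apply] at h1
    have h2 : ((a ^ M) x) ⊗ₜ[F] ((b ^ M) y) = 0 := by
      apply τ.injective
      rw [← h1, map_zero]
    obtain ⟨φ, hφ⟩ := Module.Projective.exists_dual_ne_zero F hx0
    have h3 := congrArg ((TensorProduct.lid F Y.H).toLinearMap ∘ₗ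
      TensorProduct.map φ LinearMap.id) h2
    rw [map_zero] at h3
    simp only [LinearMap.coe_comp, Function.comp_apply, TensorProduct.map_tmul,
      LinearEquiv.coe_coe, TensorProduct.lid_tmul, LinearMap.id_coe, id_eq, smul_eq_zero] at h3
    exact h3.resolve_left hφ

end Pool.Agent.Helper47.PC
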