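import Pool.Agent.Helper47.PC.Ten

/-!
# The product in both orders

The proof of `Product.isProd` (`Pool.Agent.Helper47.PB.Prod`) with the same `τ` for both:
`τ (x ⊗ y) = μ x y`, and `(TensorProduct.comm F Y.H Z.H).trans τ` maps `y ⊗ x` to `μ x y`.
-/

set_option linter.unusedSectionVars false

namespace Pool.Agent.Helper47.PC

open Pool.Agent.Helper29.CPB Pool.Agent.Helper47.PB TensorProduct

universe u v

variable {F : Type u} [Field F] [CharZero F] {Z Y T : Variety.{u, v} F}

/-- every isomorphism which maps `x ⊗ y` to `μ x y` is a product -/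
private theorem Two_isProd {μ : Z.H → Y.H → T.H} (h : Product Z Y T μ)
    (τ : (Z.H ⊗[F] Y.H) ≃ₗ[F] T.H) (hτ : ∀ x y, τ (x ⊗ₜ y) = μ x y) : IsProd Z Y T τ := by
  have hunique : ∀ (k : Module.End F T.H) (f : Module.End F (Z.H ⊗[F] Y.H)),
      (∀ x y, k (μ x y) = τ (f (x ⊗ₜ y))) → k = τ.conj f := by
    intro k f hk
    apply LinearMap.ext
    intro z
    obtain ⟨t, rfl⟩ := τ.surjective z
    rw [LinearEquiv.conj_apply_apply, LinearEquiv.symm_apply_apply]
    induction t using TensorProduct.induction_on with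
    | zero => simp
    | tmul x y => rw [hτ, hk x y]
    | add a b ha hb => rw [map_add, map_add, map_add, map_add, ha, hb]
  refine ⟨h.dim, ?_, ?_, ?_, ?_⟩
  · intro i j x y hx hy
    rw [hτ]
    exact h.grade i j x y hx hy
  · apply hunique
    intro x y
    rw [LinearMap.add_apply, TensorProduct.map_tmul, TensorProduct.map_tmul, map_add, hτ, hτ,
      h.polar]
    rfl
  · intro r s t f g hf hg ht
    subst ht
    obtain ⟨k, hk, hk2⟩ := h.prod r s f g hf hg
    rw [← hunique k (TensorProduct.map f g) (fun x y => by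
      rw [hk2, TensorProduct.map_tmul, hτ])]
    exact hk
  · intro r γ hγ
    obtain ⟨θ, hθ, hθ2⟩ := h.contr r (τ.conj γ) hγ
    have : ptr (γ * TensorProduct.map 1 Y.sgn) = θ := by
      apply eq_of_trace_mul
      intro v
      have h1 := hθ2 v (τ.conj (TensorProduct.map v Y.sgn)) (fun x y => by
        rw [← hτ, LinearEquiv.conj_apply_apply, LinearEquiv.symm_apply_apply,
          TensorProduct.map_tmul, hτ]
        rfl)
      have h2 : LinearMap.trace F T.H (τ.conj γ * τ.conj (TensorProduct.map v Y.sgn)) =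
          LinearMap.trace F (Z.H ⊗[F] Y.H) (γ * TensorProduct.map v Y.sgn) := by
        rw [← LinearMap.trace_conj' _ τ]
        congr 1
        exact (LinearEquiv.conj_comp τ _ _).symm
      have h3 : (TensorProduct.map 1 Y.sgn : Module.End F (Z.H ⊗[F] Y.H)) *
          TensorProduct.map v 1 = TensorProduct.map v Y.sgn := by
        rw [← TensorProduct.map_mul, one_mul, mul_one]
      rw [trace_ptr_mul, mul_assoc, h3]
      exact (h1.trans h2).symm
    rw [this]
    exact hθ

/-- one isomorphism `τ` for the two orders of the factors -/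
theorem exists_isProd_two {μ : Z.H → Y.H → T.H} (h : Product Z Y T μ)
    (h' : Product Y Z T (fun y x => μ x y)) : ∃ τ : (Z.H ⊗[F] Y.H) ≃ₗ[F] T.H,
      IsProd Z Y T τ ∧ IsProd Y Z T ((TensorProduct.comm F Y.H Z.H).trans τ) := by
  obtain ⟨τ, hτ⟩ : ∃ τ : (Z.H ⊗[F] Y.H) ≃ₗ[F] T.H, ∀ x y, τ (x ⊗ₜ y) = μ x y := by
    obtain ⟨B, hB, hBμ⟩ := h.tensor
    refine ⟨hB.equiv, ?_⟩
    intro x y
    rw [IsTensorProduct.equiv_apply, TensorProduct.lift.tmul, hBμ]
  refine ⟨τ, Two_isProd h τ hτ, Two_isProd h' _ ?_⟩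
  intro y x
  rw [LinearEquiv.trans_apply, TensorProduct.comm_tmul, hτ]

end Pool.Agent.Helper47.PC
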