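import Pool.Agent.Helper47.PC.Prod
import Pool.Agent.Helper47.PC.OrInv
import Pool.Agent.Helper47.PC.Descend
import Pool.Agent.Helper47.PC.Two
import Pool.Agent.Helper47.PB.Final

/-!
# The closure properties of the class
-/

set_option linter.unusedSectionVars false

namespace Pool.Agent.Helper47.PC

open Pool.Agent.Helper29.CPB Pool.Agent.Helper47.PB

universe u v

variable {F : Type u} [Field F] [CharZero F] {X Z Y T S : Variety.{u, v} F}

/-- a quasi-inverse of `L^s` is a left inverse in the degrees `< dim T - s` -/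
theorem leftInverse_of_quasiInverse {s N j : ℕ} (hd : N + s = T.dim)
    (h : QuasiInverse T (T.L ^ s) s (N + 1)) (hj : j < N) (he : Even (j + N + 1)) :
    LeftInverseIn T s j := by
  obtain ⟨θ, hθ, h⟩ := h
  refine ⟨θ, hθ, fun x hx => ?_⟩
  have h1 : (T.L ^ s) (θ ((T.L ^ s) x) - x) = 0 := by
    rw [map_sub, h j x (by exact_mod_cast (by simpa [add_assoc] using he : Even (j + (N + 1)))) hx,
      sub_self]
  have h2 : T.π j (θ ((T.L ^ s) x)) = θ ((T.L ^ s) x) :=
    T.corr_homog (show θ ∈ T.corr (-s) from hθ) (i := (j : ℤ) + 2 * s) (by ring)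
      (T.corr_homog (T.Lpow_corr s) rfl hx)
  have h3 := L_inj T (s := s) (j := j) (by omega) (by rw [map_sub, h2, hx]) h1
  exact sub_eq_zero.mp h3

/-- **The criterion.** -/
theorem cplus_of_left {s : ℕ} (D : LefschetzMap T S s) (P : Duality T) (hT : T.CPlus)
    (h : ∀ j < S.dim, Even (j + S.dim + 1) → LeftInverseIn T s j) : S.CPlus :=
  D.cplus hT (quasiInverse_of_left P D.dim h)

/-- **The criterion for generic complete intersections.** -/
theorem cplus_iff_left {s : ℕ} (G : GenericSection T S s) (P : Duality T) (hT : T.CPlus) :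
    S.CPlus ↔ ∀ j < S.dim, Even (j + S.dim + 1) → LeftInverseIn T s j :=
  ⟨fun h _ hj he => leftInverse_of_quasiInverse G.dim (quasiInverse_of_generic G h) hj he,
    fun h => cplus_of_left (ofGeneric G) P hT h⟩

/-- **Generic complete intersections of dimension `≤ n`.** -/
theorem cplus_le_iff (S : ℕ → Variety.{u, v} F)
    (G : ∀ s, 1 ≤ s → s < T.dim → GenericSection T (S s) s) (P : Duality T) (hT : T.CPlus)
    (n : ℕ) : (∀ s, 1 ≤ s → s < T.dim → (S s).dim ≤ n → (S s).CPlus) ↔
      ∀ j < n, AlmostIn T j := by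
  constructor
  · intro h j hjn hj
    rcases Nat.eq_zero_or_pos (T.dim - j - 1) with h0 | hpos
    · rw [h0]
      exact leftInverseIn_zero T j
    · have hlt : T.dim - j - 1 < T.dim := by omega
      have hd := (G _ hpos hlt).dim
      exact (cplus_iff_left (G _ hpos hlt) P hT).mp (h _ hpos hlt (by omega)) j (by omega)
        ⟨j + 1, by omega⟩
  · intro h s h1 h2 hn
    have hd := (G s h1 h2).dim
    refine (cplus_iff_left (G s h1 h2) P hT).mpr fun j hj _ => ?_
    exact (h j (by omega) (by omega)).mono (by omega)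

/-- **Products.** -/
theorem Almost.product {z z' k : ℕ} (hk : k ≤ z + z' + 1) {μ : Z.H → Y.H → T.H}
    (hP : Product Z Y T μ) (hZ : Almost z k Z) (hY : Almost z' k Y) :
    Almost (min z z') k T := by
  obtain ⟨τ, hτ⟩ := hP.isProd
  exact almost_product (isTen_of_isProd hτ) hk hZ hY

/-- varieties for which `B` holds -/
theorem almost_of_lefschetz' (hX : X.Lefschetz) (z k : ℕ) : Almost z k X :=
  almost_of_lefschetz (cplus_of_kunneth X (kunneth_of_lefschetz X hX)) hX z k

/-- `B` in degree `j` implies the weak form -/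
theorem almostIn_of_lefschetzIn {j : ℕ} (h : LefschetzIn X j) : AlmostIn X j :=
  fun hj => (lefschetzIn_iff.mp h hj.le).mono (by omega)

/-- there is no condition for `j ≥ dim X - 1` -/
theorem almostIn_of_dim {j : ℕ} (h : X.dim ≤ j + 1) : AlmostIn X j := by
  intro hj
  rw [show X.dim - j - 1 = 0 by omega]
  exact leftInverseIn_zero X j

lemma lefschetzIn_of_ge {i : ℕ} (h : X.dim ≤ i) : LefschetzIn X i := by
  rw [lefschetzIn_iff]
  intro hi
  rw [show X.dim - i = 0 by omega]
  exact leftInverseIn_zero X i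

/-- **Products: the exact criterion.** -/
theorem almostIn_product_iff {μ : Z.H → Y.H → T.H} (hP : Product Z Y T μ)
    (hP' : Product Y Z T (fun y x => μ x y)) (hZ : Z.CPlus) (hY : Y.CPlus)
    (hZ0 : LefschetzIn Z 0) (hY0 : LefschetzIn Y 0) (hZn : Z.π 0 ≠ 0) (hYn : Y.π 0 ≠ 0) (n : ℕ) :
    (∀ j < n, AlmostIn T j) ↔ (∀ j < n, AlmostIn Z j) ∧ (∀ j < n, AlmostIn Y j) ∧
      ∀ p q, p + q < n → LefschetzIn Z p ∨ LefschetzIn Y q := by
  obtain ⟨τ, h1, h2⟩ := exists_isProd_two hP hP'
  have hT := isTen_of_isProd h1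
  constructor
  · intro h
    refine ⟨fun j hj => almostIn_of_product h1 hY0 hYn (h j hj),
      fun j hj => almostIn_of_product h2 hZ0 hZn (h j hj), fun p q hpq => ?_⟩
    rcases Nat.lt_or_ge p Z.dim with hp | hp
    · rcases Nat.lt_or_ge q Y.dim with hq | hq
      · have hd := hT.dim
        have h3 := h _ hpq (by omega)
        rw [show T.dim - (p + q) - 1 = (Z.dim - p) + (Y.dim - q) - 1 by omega] at h3
        rcases leftInverse_or h1 h2 (hT.cplus hZ hY) (by omega) (by omega) h3 with h4 | h4
        · exact Or.inl (lefschetzIn_iff.mpr fun _ => h4)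
        · exact Or.inr (lefschetzIn_iff.mpr fun _ => h4)
      · exact Or.inr (lefschetzIn_of_ge hq)
    · exact Or.inl (lefschetzIn_of_ge hp)
  · rintro ⟨hWZ, hWY, hB⟩
    rcases Nat.eq_zero_or_pos n with rfl | hn
    · intro j hj
      exact absurd hj (Nat.not_lt_zero j)
    by_cases hall : ∀ p, LefschetzIn Z p
    · intro j hj
      have hA : Almost (min (n - 1) 0) (n - 1) T := almost_product hT (by omega)
        ⟨hZ, fun i _ => hall i, fun j hj => hWZ j (by omega)⟩
        ⟨hY, fun i hi => by rwa [Nat.le_zero.mp hi], fun j hj => hWY j (by omega)⟩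
      exact hA.mid j (by omega)
    · push Not at hall
      classical
      have hp0 := Nat.find_spec hall
      have hmin : ∀ i < Nat.find hall, LefschetzIn Z i := fun i hi => by
        have := Nat.find_min hall hi
        exact not_not.mp this
      set p₀ := Nat.find hall with hp₀
      have hpos : 0 < p₀ := by
        rcases Nat.eq_zero_or_pos p₀ with h0 | h0
        · rw [h0] at hp0
          exact absurd hZ0 hp0
        · exact h0
      intro j hj
      have hA : Almost (min (p₀ - 1) (n - 1 - p₀)) (n - 1) T := by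
        refine almost_product hT (by omega) ⟨hZ, fun i hi => hmin i (by omega),
          fun j hj => hWZ j (by omega)⟩ ⟨hY, fun i hi => ?_, fun j hj => hWY j (by omega)⟩
        rcases Nat.eq_zero_or_pos i with rfl | hi0
        · exact hY0
        · exact (hB p₀ i (by omega)).resolve_left hp0
      exact hA.mid j (by omega)

/-- **Products: the Lefschetz conjecture in low degrees.** -/
theorem lefschetzIn_product_iff {μ : Z.H → Y.H → T.H} (hP : Product Z Y T μ)
    (hP' : Product Y Z T (fun y x => μ x y)) (hZ : Z.CPlus) (hY : Y.CPlus)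
    (hZ0 : LefschetzIn Z 0) (hY0 : LefschetzIn Y 0) (hZn : Z.π 0 ≠ 0) (hYn : Y.π 0 ≠ 0) (n : ℕ) :
    (∀ i < n, LefschetzIn T i) ↔ (∀ i < n, LefschetzIn Z i) ∧ (∀ i < n, LefschetzIn Y i) := by
  obtain ⟨τ, h1, h2⟩ := exists_isProd_two hP hP'
  constructor
  · intro h
    exact ⟨fun j hj => lefschetzIn_of_product h1 hY0 hYn (h j hj),
      fun j hj => lefschetzIn_of_product h2 hZ0 hZn (h j hj)⟩
  · rintro ⟨hBZ, hBY⟩ i hi
    have hA : Almost (min (n - 1) (n - 1)) 0 T := almost_product (isTen_of_isProd h1) (by omega)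
      ⟨hZ, fun i _ => hBZ i (by omega), fun j hj => by
        rw [Nat.le_zero.mp hj]
        exact almostIn_of_lefschetzIn hZ0⟩
      ⟨hY, fun i _ => hBY i (by omega), fun j hj => by
        rw [Nat.le_zero.mp hj]
        exact almostIn_of_lefschetzIn hY0⟩
    exact hA.low i (by rw [min_self]; omega)

/-- **One generic complete intersection in a product.** -/
theorem lefschetz_or_of_generic {s : ℕ} {μ : Z.H → Y.H → T.H} (hP : Product Z Y T μ)
    (hP' : Product Y Z T (fun y x => μ x y)) (G : GenericSection T S s) (hZ : Z.CPlus)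
    (hY : Y.CPlus) (h : S.CPlus) (p q : ℕ) (hpq : p + q + 1 = S.dim) :
    LefschetzIn Z p ∨ LefschetzIn Y q := by
  obtain ⟨τ, h1, h2⟩ := exists_isProd_two hP hP'
  have hT := isTen_of_isProd h1
  rcases Nat.lt_or_ge p Z.dim with hp | hp
  · rcases Nat.lt_or_ge q Y.dim with hq | hq
    · have hd := hT.dim
      have hs := G.dim
      have h3 : LeftInverseIn T s (p + q) :=
        leftInverse_of_quasiInverse G.dim (quasiInverse_of_generic G h) (by omega)
          ⟨p + q + 1, by omega⟩
      rw [show s = (Z.dim - p) + (Y.dim - q) - 1 by omega] at h3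
      rcases leftInverse_or h1 h2 (hT.cplus hZ hY) (by omega) (by omega) h3 with h4 | h4
      · exact Or.inl (lefschetzIn_iff.mpr fun _ => h4)
      · exact Or.inr (lefschetzIn_iff.mpr fun _ => h4)
    · exact Or.inr (lefschetzIn_of_ge hq)
  · exact Or.inl (lefschetzIn_of_ge hp)

end Pool.Agent.Helper47.PC
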