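import Pool.Agent.Helper47.PC.Statement
import Pool.Agent.Helper47.PB.Main

/-!
# Quasi-inverses from left inverses, by duality
-/

set_option linter.unusedSectionVars false

namespace Pool.Agent.Helper47.PC

open Pool.Agent.Helper29.CPB Pool.Agent.Helper47.PB

universe u v

variable {F : Type u} [Field F] [CharZero F]

private lemma glue_step (X : Variety.{u, v} F) {A : Module.End F X.H} {s n : ℕ}
    (hA : A ∈ X.corr s)
    (h : ∀ j : ℤ, Even (j + n) → ∃ θ ∈ X.corr (-s), ∀ x, X.π j x = x → A (θ (A x)) = A x)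
    (t : Finset ℤ) : ∃ θ ∈ X.corr (-s), ∀ j ∈ t, Even (j + n) → ∀ x, X.π j x = x →
      A (θ (A x)) = A x := by
  induction t using Finset.induction_on with
  | empty =>
    refine ⟨0, (X.corr (-s)).zero_mem, ?_⟩
    intro j hj
    exact absurd hj (Finset.notMem_empty j)
  | insert j t _ ih =>
    obtain ⟨θ, hθ, hθ2⟩ := ih
    by_cases hev : Even (j + n)
    · obtain ⟨η, hη, hη2⟩ := h j hev
      have hAη : A * η ∈ X.corr 0 := X.corr_mul' (by ring) hA hη
      have hηA : η * A ∈ X.corr 0 := X.corr_mul' (by ring) hη hA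
      have hθAη : θ * (A * η) ∈ X.corr (-s) := X.corr_mul' (by ring) hθ hAη
      refine ⟨θ + η - θ * (A * η), (X.corr (-s)).sub_mem ((X.corr (-s)).add_mem hθ hη) hθAη, ?_⟩
      intro k hk hkev x hx
      have hw : X.π k (x - η (A x)) = x - η (A x) := by
        have h1 : X.π k ((η * A) x) = (η * A) x := X.corr_homog hηA (by ring) hx
        rw [Module.End.mul_apply] at h1
        rw [map_sub, h1, hx]
      have hkey : A (θ (A (x - η (A x)))) = A (x - η (A x)) := by
        rcases Finset.mem_insert.mp hk with hkj | hkt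
        · subst hkj
          have h0 : A (x - η (A x)) = 0 := by
            rw [map_sub, hη2 x hx, sub_self]
          rw [h0, map_zero, map_zero]
        · exact hθ2 k hkt hkev _ hw
      rw [map_sub A x, map_sub, map_sub] at hkey
      have e : (θ + η - θ * (A * η)) (A x) = θ (A x) + η (A x) - θ (A (η (A x))) := rfl
      rw [e, map_sub, map_add]
      have e2 : A (θ (A x)) + A (η (A x)) - A (θ (A (η (A x)))) =
          (A (θ (A x)) - A (θ (A (η (A x))))) + A (η (A x)) := by abel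
      rw [e2, hkey]
      abel
    · refine ⟨θ, hθ, ?_⟩
      intro k hk hkev x hx
      rcases Finset.mem_insert.mp hk with hkj | hkt
      · subst hkj
        exact absurd hkev hev
      · exact hθ2 k hkt hkev x hx

/-- Quasi-inverses in single degrees can be glued: for `θ' = θ + θ_j - θ A θ_j` one has
`A - A θ' A = (1 - A θ) A (1 - θ_j A)`. -/
theorem quasiInverse_of_degrees (X : Variety.{u, v} F) {A : Module.End F X.H} {s n : ℕ}
    (hA : A ∈ X.corr s)
    (h : ∀ j : ℤ, Even (j + n) → ∃ θ ∈ X.corr (-s), ∀ x, X.π j x = x → A (θ (A x)) = A x) :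
    QuasiInverse X A s n := by
  obtain ⟨θ, hθ, hθ2⟩ := glue_step X hA h (Finset.Icc (0 : ℤ) (2 * X.dim))
  refine ⟨θ, hθ, ?_⟩
  intro j x hj hx
  by_cases hm : j ∈ Finset.Icc (0 : ℤ) (2 * X.dim)
  · exact hθ2 j hm hj x hx
  · rw [Finset.mem_Icc, not_and_or, not_le, not_le] at hm
    rw [X.homog_zero hm hx]
    simp

private lemma glue_pair_pow {T : Variety.{u, v} F} (D : Duality T) (s : ℕ) :
    ∀ x y : T.H, D.pair ((T.L ^ s) x) y = D.pair x ((T.L ^ s) y) := by
  induction s with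
  | zero => intro x y; simp
  | succ s ih =>
    intro x y
    have e1 : (T.L ^ (s + 1)) x = T.L ((T.L ^ s) x) := by
      rw [pow_succ', Module.End.mul_apply]
    have e2 : (T.L ^ (s + 1)) y = (T.L ^ s) (T.L y) := by
      rw [pow_succ, Module.End.mul_apply]
    rw [e1, e2, D.polar, ih]

/-- By duality, a left inverse of `L^s` on `H^i` gives a quasi-inverse on `H^(2d-2s-i)`. -/
theorem dual_inverse {T : Variety.{u, v} F} (D : Duality T) {s i : ℕ} (h : LeftInverseIn T s i)
    {j : ℤ} (hj : j + 2 * s + i = 2 * T.dim) :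
    ∃ θ ∈ T.corr (-s), ∀ x, T.π j x = x → (T.L ^ s) (θ ((T.L ^ s) x)) = (T.L ^ s) x := by
  obtain ⟨θ, hθ, hθ2⟩ := h
  obtain ⟨g, hg, hg2⟩ := D.transpose _ θ hθ
  refine ⟨g, hg, ?_⟩
  intro x hx
  have hg' : g ∈ T.corr (-s) := hg
  have hy : T.π (2 * T.dim - i) ((T.L ^ s) x) = (T.L ^ s) x :=
    T.corr_homog (T.Lpow_corr s) (by omega) hx
  have hgy : T.π j (g ((T.L ^ s) x)) = g ((T.L ^ s) x) :=
    T.corr_homog hg' (by omega) hy
  have hLgy : T.π (2 * T.dim - i) ((T.L ^ s) (g ((T.L ^ s) x))) = (T.L ^ s) (g ((T.L ^ s) x)) :=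
    T.corr_homog (T.Lpow_corr s) (by omega) hgy
  rw [← sub_eq_zero]
  apply D.perfect
  intro w
  have hz : T.π (2 * T.dim - i) ((T.L ^ s) (g ((T.L ^ s) x)) - (T.L ^ s) x) =
      (T.L ^ s) (g ((T.L ^ s) x)) - (T.L ^ s) x := by
    rw [map_sub, hLgy, hy]
  rw [← hz, ← D.grade, map_sub, ← glue_pair_pow D s, ← hg2,
    hθ2 _ (T.π_apply_idem _ _), sub_self]

/-- Left inverses of `L^s` on the `H^j(T)`, `j < N = dim T - s`, `j ≡ N - 1`, give a quasi-inverse
in this parity. -/
theorem quasiInverse_of_left {T : Variety.{u, v} F} (D : Duality T) {s N : ℕ}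
    (hd : N + s = T.dim) (h : ∀ j < N, Even (j + N + 1) → LeftInverseIn T s j) :
    QuasiInverse T (T.L ^ s) s (N + 1) := by
  apply quasiInverse_of_degrees T (T.Lpow_corr s)
  intro j hj
  obtain ⟨r, hr⟩ := hj
  push_cast at hr
  rcases lt_trichotomy j N with hlt | heq | hgt
  · rcases lt_or_ge j 0 with h0 | h0
    · refine ⟨0, (T.corr (-s)).zero_mem, ?_⟩
      intro x hx
      rw [T.homog_zero (Or.inl h0) hx]
      simp
    · obtain ⟨i, rfl⟩ := Int.eq_ofNat_of_zero_le h0
      obtain ⟨θ, hθ, hθ2⟩ := h i (by omega) ⟨r.toNat, by omega⟩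
      refine ⟨θ, hθ, ?_⟩
      intro x hx
      rw [hθ2 x hx]
  · omega
  · rcases lt_or_ge (2 * (N : ℤ) - j) 0 with h0 | h0
    · refine ⟨0, (T.corr (-s)).zero_mem, ?_⟩
      intro x hx
      have hLx : T.π (j + 2 * s) ((T.L ^ s) x) = (T.L ^ s) x :=
        T.corr_homog (T.Lpow_corr s) rfl hx
      rw [T.homog_zero (Or.inr (by omega)) hLx]
      simp
    · obtain ⟨i, hi⟩ := Int.eq_ofNat_of_zero_le h0
      exact dual_inverse D (h i (by omega) ⟨(r - j + N).toNat, by omega⟩) (by omega)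

end Pool.Agent.Helper47.PC
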