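import Pool.Agent.Helper47.PC.Mat

/-!
# Left inverses on the product of the low parts
-/

set_option linter.unusedSectionVars false

namespace Pool.Agent.Helper47.PC

open Pool.Agent.Helper29.CPB Pool.Agent.Helper47.PB TensorProduct

universe u v

variable {F : Type u} [Field F] [CharZero F] {Z Y T : Variety.{u, v} F}
  {τ : (Z.H ⊗[F] Y.H) ≃ₗ[F] T.H} {I K : Finset ℕ} {c : ℕ → ℕ → Module.End F Z.H}
  {e : ℕ → ℕ → Module.End F Y.H}

private lemma low_sum (τ : (Z.H ⊗[F] Y.H) ≃ₗ[F] T.H) (I K : Finset ℕ)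
    (c : ℕ → ℕ → Module.End F Z.H) (e : ℕ → ℕ → Module.End F Y.H) :
    ext τ (lowPart Z I c) (lowPart Y K e) =
      ∑ i ∈ I, ∑ k ∈ K, ext τ (block Z c i) (block Y e k) := by
  unfold lowPart
  rw [ext_sum_left]
  exact Finset.sum_congr rfl fun i _ => ext_sum_right _ _ _

/-- the sum of the operators of `exists_block_inverse` over all `i ∈ I` and `k ∈ K` -/
theorem exists_low_quasi_inverse (hP : IsTen Z Y T τ) (hc : IsStrings Z I c)
    (he : IsStrings Y K e) (s : ℕ) :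
    ∃ Θ ∈ T.corr (-s), T.L ^ s * Θ * T.L ^ s = T.L ^ s * ext τ (lowPart Z I c) (lowPart Y K e) ∧
      Θ * ext τ (lowPart Z I c) (lowPart Y K e) = Θ := by
  have h : ∀ i k : ℕ, ∃ Θ : Module.End F T.H, i ∈ I → k ∈ K →
      Θ ∈ T.corr (-s) ∧ T.L ^ s * Θ * T.L ^ s = T.L ^ s * ext τ (block Z c i) (block Y e k) ∧
        Θ * ext τ (block Z c i) (block Y e k) = Θ := by
    intro i k
    by_cases hi : i ∈ I
    · by_cases hk : k ∈ K
      · obtain ⟨Θ, h1, h2, h3⟩ := exists_block_inverse hP hc he hi hk s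
        exact ⟨Θ, fun _ _ => ⟨h1, h2, h3⟩⟩
      · exact ⟨0, fun _ h => absurd h hk⟩
    · exact ⟨0, fun h => absurd h hi⟩
  choose Θ hΘ using h
  refine ⟨∑ i ∈ I, ∑ k ∈ K, Θ i k, ?_, ?_, ?_⟩
  · exact T.corr_sum _ _ fun i hi => T.corr_sum _ _ fun k hk => (hΘ i k hi hk).1
  · rw [low_sum, Finset.mul_sum, Finset.sum_mul, Finset.mul_sum]
    refine Finset.sum_congr rfl fun i hi => ?_
    rw [Finset.mul_sum, Finset.sum_mul, Finset.mul_sum]
    exact Finset.sum_congr rfl fun k hk => (hΘ i k hi hk).2.1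
  · rw [Finset.sum_mul]
    refine Finset.sum_congr rfl fun i hi => ?_
    rw [Finset.sum_mul]
    refine Finset.sum_congr rfl fun k hk => ?_
    have h3 := (hΘ i k hi hk).2.2
    have h4 : ext τ (block Z c i) (block Y e k) * ext τ (lowPart Z I c) (lowPart Y K e) =
        ext τ (block Z c i) (block Y e k) := by
      rw [ext_mul, hc.block_lowPart hi, he.block_lowPart hk]
    rw [← h3, mul_assoc, h4]

/-- As `L^s` is injective in the degrees `≤ dim T - s`, the quasi-inverse is a left inverse there.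
It vanishes on the complement of the product of the low parts. -/
theorem exists_low_left_inverse (hP : IsTen Z Y T τ) (hc : IsStrings Z I c)
    (he : IsStrings Y K e) (s : ℕ) :
    ∃ Θ ∈ T.corr (-s), ∀ (p q : ℤ) (a : Z.H) (y : Y.H), Z.π p a = a → Y.π q y = y →
      p + q + s ≤ T.dim →
      Θ ((T.L ^ s) (τ (a ⊗ₜ y))) = τ ((lowPart Z I c a) ⊗ₜ (lowPart Y K e y)) := by
  obtain ⟨Θ, h1, h2, -⟩ := exists_low_quasi_inverse hP hc he s
  refine ⟨Θ, h1, ?_⟩
  intro p q a y ha hy hpq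
  have hay := hP.grade p q a y ha hy
  have hR : ext τ (lowPart Z I c) (lowPart Y K e) ∈ T.corr 0 :=
    hP.ext_corr hc.lowPart_corr he.lowPart_corr (by ring)
  have hRt : T.π (p + q) (ext τ (lowPart Z I c) (lowPart Y K e) (τ (a ⊗ₜ y))) =
      ext τ (lowPart Z I c) (lowPart Y K e) (τ (a ⊗ₜ y)) :=
    T.corr_homog hR (by ring) hay
  have hLt : T.π (p + q + 2 * s) ((T.L ^ s) (τ (a ⊗ₜ y))) = (T.L ^ s) (τ (a ⊗ₜ y)) :=
    T.corr_homog (T.Lpow_corr s) (by ring) hay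
  have hΘt : T.π (p + q) (Θ ((T.L ^ s) (τ (a ⊗ₜ y)))) = Θ ((T.L ^ s) (τ (a ⊗ₜ y))) :=
    T.corr_homog h1 (by ring) hLt
  rw [← ext_apply, ← sub_eq_zero]
  apply L_inj T (s := s) (j := p + q) hpq
  · rw [map_sub, hΘt, hRt]
  · have h3 := congrArg (fun g => g (τ (a ⊗ₜ y))) h2
    rw [map_sub, sub_eq_zero]
    exact h3

end Pool.Agent.Helper47.PC
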