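import Mathlib

/-!
# Quasi-inverses of homogeneous matrices
-/

namespace Pool.Agent.Helper47.PC

/-- Every endomorphism of a vector space has a quasi-inverse. -/
lemma exists_quasi_inverse {K V : Type*} [Field K] [AddCommGroup V] [Module K V]
    (f : V →ₗ[K] V) : ∃ g : V →ₗ[K] V, f ∘ₗ g ∘ₗ f = f := by
  obtain ⟨r, hr⟩ := f.rangeRestrict.exists_rightInverse_of_surjective
    (LinearMap.range_rangeRestrict f)
  obtain ⟨g, hg⟩ := LinearMap.exists_extend r
  refine ⟨g, LinearMap.ext fun x => ?_⟩
  have h1 : g (f x) = r (f.rangeRestrict x) := LinearMap.congr_fun hg (f.rangeRestrict x)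
  have h2 : f.rangeRestrict (r (f.rangeRestrict x)) = f.rangeRestrict x :=
    LinearMap.congr_fun hr (f.rangeRestrict x)
  have h3 := congrArg Subtype.val h2
  rw [LinearMap.comp_apply, LinearMap.comp_apply, h1]
  exact h3

/-- A homogeneous matrix `G` of degree `s` (with respect to the grading `w` of the index set) has
a quasi-inverse which is homogeneous of degree `-s`. -/
lemma exists_homogeneous_quasi_inverse {ι K : Type*} [Fintype ι] [DecidableEq ι] [Field K]
    (w : ι → ℕ) (s : ℕ) (G : Matrix ι ι K) (hG : ∀ p q, G p q ≠ 0 → w p = w q + s) :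
    ∃ θ : Matrix ι ι K, G * θ * G = G ∧ ∀ p q, θ p q ≠ 0 → w p + s = w q := by
  obtain ⟨g, hg⟩ := exists_quasi_inverse (Matrix.toLin' G)
  have h0 : G * LinearMap.toMatrix' g * G = G := by
    have h1 := congrArg LinearMap.toMatrix' hg
    rw [LinearMap.toMatrix'_comp, LinearMap.toMatrix'_comp, LinearMap.toMatrix'_toLin'] at h1
    rw [Matrix.mul_assoc]
    exact h1
  generalize LinearMap.toMatrix' g = T at h0
  refine ⟨Matrix.of fun p q => if w p + s = w q then T p q else 0, ?_, ?_⟩
  · ext a b
    have h2 : (G * T * G) a b = G a b := by rw [h0]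
    have h3 : ∀ M : Matrix ι ι K, (G * M * G) a b = ∑ q, ∑ p, G a p * M p q * G q b := by
      intro M
      rw [Matrix.mul_apply]
      refine Finset.sum_congr rfl fun q _ => ?_
      rw [Matrix.mul_apply, Finset.sum_mul]
    by_cases hab : w a = w b + s
    · rw [← h2, h3, h3]
      refine Finset.sum_congr rfl fun q _ => Finset.sum_congr rfl fun p _ => ?_
      by_cases h4 : G a p = 0
      · rw [h4, zero_mul, zero_mul, zero_mul, zero_mul]
      by_cases h5 : G q b = 0
      · rw [h5, mul_zero, mul_zero]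
      have h6 := hG _ _ h4
      have h7 := hG _ _ h5
      have h8 : w p + s = w q := by omega
      rw [Matrix.of_apply, if_pos h8]
    · have h9 : G a b = 0 := by
        by_contra h
        exact hab (hG _ _ h)
      rw [h9, h3]
      refine Finset.sum_eq_zero fun q _ => Finset.sum_eq_zero fun p _ => ?_
      by_cases h4 : G a p = 0
      · rw [h4, zero_mul, zero_mul]
      by_cases h5 : G q b = 0
      · rw [h5, mul_zero]
      have h6 := hG _ _ h4
      have h7 := hG _ _ h5
      have h8 : ¬ w p + s = w q := by omega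
      rw [Matrix.of_apply, if_neg h8, mul_zero, zero_mul]
  · intro p q h
    rw [Matrix.of_apply] at h
    by_contra h1
    rw [if_neg h1] at h
    exact h rfl

private lemma qi_pow {ι K : Type*} [Fintype ι] [DecidableEq ι] [Field K] (w : ι → ℕ)
    (M : Matrix ι ι K) (hM : ∀ p q, M p q ≠ 0 → w p = w q + 1) (s : ℕ) :
    ∀ p q, (M ^ s) p q ≠ 0 → w p = w q + s := by
  induction s with
  | zero =>
    intro p q h
    rw [pow_zero] at h
    by_cases hpq : p = q
    · rw [hpq, add_zero]
    · rw [Matrix.one_apply_ne hpq] at h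
      exact absurd rfl h
  | succ s ih =>
    intro p q h
    rw [pow_succ, Matrix.mul_apply] at h
    obtain ⟨r, -, hr⟩ := Finset.exists_ne_zero_of_sum_ne_zero h
    have h1 := ih p r (left_ne_zero_of_mul hr)
    have h2 := hM r q (right_ne_zero_of_mul hr)
    omega

/-- the shift matrices -/
def shiftA (m n : ℕ) : Matrix (Fin (m + 1) × Fin (n + 1)) (Fin (m + 1) × Fin (n + 1)) ℚ :=
  fun p q => if p.1.val = q.1.val + 1 ∧ p.2 = q.2 then 1 else 0

def shiftB (m n : ℕ) : Matrix (Fin (m + 1) × Fin (n + 1)) (Fin (m + 1) × Fin (n + 1)) ℚ :=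
  fun p q => if p.1 = q.1 ∧ p.2.val = q.2.val + 1 then 1 else 0

/-- powers of the sum of the shift matrices are homogeneous -/
lemma shift_pow_homogeneous (m n s : ℕ) (p q : Fin (m + 1) × Fin (n + 1))
    (h : ((shiftA m n + shiftB m n) ^ s) p q ≠ 0) :
    p.1.val + p.2.val = q.1.val + q.2.val + s := by
  refine qi_pow (fun p : Fin (m + 1) × Fin (n + 1) => p.1.val + p.2.val) (shiftA m n + shiftB m n)
    ?_ s p q h
  intro p q h
  rw [Matrix.add_apply] at h
  by_cases h1 : p.1.val = q.1.val + 1 ∧ p.2 = q.2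
  · rw [h1.1, h1.2]
    omega
  · by_cases h2 : p.1 = q.1 ∧ p.2.val = q.2.val + 1
    · rw [h2.1, h2.2]
      omega
    · exfalso
      apply h
      simp only [shiftA, shiftB, if_neg h1, if_neg h2, add_zero]

end Pool.Agent.Helper47.PC
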