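import Pool.Agent.Helper47.PC.StrB
import Pool.Agent.Helper47.PC.Ten
import Pool.Agent.Helper47.PC.Qi

/-!
# Quasi-inverses on the product of two strings

Let `A = (shiftA + shiftB)`, a rational matrix. For a rational matrix `M` let
`Φ M = Σ M_(p,q) (L^p₁ c_(i,q₁)) ⊗ (L^p₂ c_(k,q₂))`. Then `Φ M Φ N = Φ (M N)`,
`Φ 1 = block i ⊗ block k` and `L^s Φ 1 = Φ (A^s) = Φ 1 L^s`. If `θ` is a quasi-inverse of `A^s`,
homogeneous of degree `-s`, then `Θ = Φ θ`.
-/

set_option linter.unusedSectionVars false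

namespace Pool.Agent.Helper47.PC

open Pool.Agent.Helper29.CPB Pool.Agent.Helper47.PB TensorProduct

universe u v

variable {F : Type u} [Field F] [CharZero F] {Z Y T : Variety.{u, v} F}
  {τ : (Z.H ⊗[F] Y.H) ≃ₗ[F] T.H} {I K : Finset ℕ} {c : ℕ → ℕ → Module.End F Z.H}
  {e : ℕ → ℕ → Module.End F Y.H}

/-- the elementary operators `(L^p₁ c_(i,q₁)) ⊗ (L^p₂ c_(k,q₂))` -/
private noncomputable def mat_u (τ : (Z.H ⊗[F] Y.H) ≃ₗ[F] T.H) (c : ℕ → ℕ → Module.End F Z.H)
    (e : ℕ → ℕ → Module.End F Y.H) (i k : ℕ) (p q : ℕ × ℕ) : Module.End F T.H :=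
  ext τ (Z.L ^ p.1 * c i q.1) (Y.L ^ p.2 * e k q.2)

private lemma mat_u_mul (hc : IsStrings Z I c) (he : IsStrings Y K e) {i k : ℕ} (hi : i ∈ I)
    (hk : k ∈ K) (p q p' q' : ℕ × ℕ) (hq1 : q.1 ≤ Z.dim - i) (hq2 : q.2 ≤ Y.dim - k)
    (hp1 : p'.1 ≤ Z.dim - i) (hp2 : p'.2 ≤ Y.dim - k) (hq1' : q'.1 ≤ Z.dim - i)
    (hq2' : q'.2 ≤ Y.dim - k) :
    mat_u τ c e i k p q * mat_u τ c e i k p' q' =
      if q = p' then mat_u τ c e i k p q' else 0 := by
  unfold mat_u
  have h1 : Z.L ^ p.1 * c i q.1 * (Z.L ^ p'.1 * c i q'.1) =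
      if q.1 = p'.1 then Z.L ^ p.1 * c i q'.1 else 0 := by
    have h := hc.coord i hi i hi q.1 hq1 p'.1 hp1 q'.1 hq1'
    rw [mul_assoc, ← mul_assoc (c i q.1), h]
    by_cases h0 : q.1 = p'.1
    · rw [if_pos ⟨rfl, h0⟩, if_pos h0]
    · rw [if_neg (fun h' => h0 h'.2), if_neg h0, mul_zero]
  have h2 : Y.L ^ p.2 * e k q.2 * (Y.L ^ p'.2 * e k q'.2) =
      if q.2 = p'.2 then Y.L ^ p.2 * e k q'.2 else 0 := by
    have h := he.coord k hk k hk q.2 hq2 p'.2 hp2 q'.2 hq2'
    rw [mul_assoc, ← mul_assoc (e k q.2), h]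
    by_cases h0 : q.2 = p'.2
    · rw [if_pos ⟨rfl, h0⟩, if_pos h0]
    · rw [if_neg (fun h' => h0 h'.2), if_neg h0, mul_zero]
  rw [ext_mul, h1, h2]
  by_cases h3 : q = p'
  · rw [if_pos h3, if_pos (congrArg Prod.fst h3), if_pos (congrArg Prod.snd h3)]
  · rw [if_neg h3]
    by_cases h4 : q.1 = p'.1
    · have h5 : ¬ q.2 = p'.2 := fun h5 => h3 (Prod.ext h4 h5)
      rw [if_neg h5, ext_zero_right]
    · rw [if_neg h4, ext_zero_left]

/-- the index set -/
private abbrev mat_ι (m n : ℕ) := Fin (m + 1) × Fin (n + 1)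

private def mat_val {m n : ℕ} (p : mat_ι m n) : ℕ × ℕ := (p.1.val, p.2.val)

private lemma mat_val_inj {m n : ℕ} (p q : mat_ι m n) : mat_val p = mat_val q ↔ p = q := by
  unfold mat_val
  constructor
  · intro h
    have h1 := congrArg Prod.fst h
    have h2 := congrArg Prod.snd h
    exact Prod.ext (Fin.ext h1) (Fin.ext h2)
  · intro h
    rw [h]

private noncomputable def mat_phi (τ : (Z.H ⊗[F] Y.H) ≃ₗ[F] T.H)
    (c : ℕ → ℕ → Module.End F Z.H) (e : ℕ → ℕ → Module.End F Y.H) (i k m n : ℕ)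
    (M : Matrix (mat_ι m n) (mat_ι m n) ℚ) : Module.End F T.H :=
  ∑ p, ∑ q, ((M p q : ℚ) : F) • mat_u τ c e i k (mat_val p) (mat_val q)

private lemma mat_phi_mul (hc : IsStrings Z I c) (he : IsStrings Y K e) {i k : ℕ} (hi : i ∈ I)
    (hk : k ∈ K) {m n : ℕ} (hm : m = Z.dim - i) (hn : n = Y.dim - k)
    (M N : Matrix (mat_ι m n) (mat_ι m n) ℚ) :
    mat_phi τ c e i k m n M * mat_phi τ c e i k m n N = mat_phi τ c e i k m n (M * N) := by
  unfold mat_phi
  rw [Finset.sum_mul]
  refine Finset.sum_congr rfl fun p _ => ?_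
  rw [Finset.sum_mul]
  have h1 : ∀ q : mat_ι m n, ((M p q : ℚ) : F) • mat_u τ c e i k (mat_val p) (mat_val q) *
      ∑ p', ∑ q', ((N p' q' : ℚ) : F) • mat_u τ c e i k (mat_val p') (mat_val q') =
      ∑ q', (((M p q * N q q' : ℚ)) : F) • mat_u τ c e i k (mat_val p) (mat_val q') := by
    intro q
    rw [Finset.mul_sum, Finset.sum_eq_single q]
    · rw [Finset.mul_sum]
      refine Finset.sum_congr rfl fun q' _ => ?_
      rw [smul_mul_smul_comm, mat_u_mul hc he hi hk, if_pos rfl, Rat.cast_mul]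
      · have := q.1.2; simp only [mat_val]; omega
      · have := q.2.2; simp only [mat_val]; omega
      · have := q.1.2; simp only [mat_val]; omega
      · have := q.2.2; simp only [mat_val]; omega
      · have := q'.1.2; simp only [mat_val]; omega
      · have := q'.2.2; simp only [mat_val]; omega
    · intro p' _ hp'
      rw [Finset.mul_sum]
      refine Finset.sum_eq_zero fun q' _ => ?_
      rw [smul_mul_smul_comm, mat_u_mul hc he hi hk, if_neg, smul_zero]
      · rw [mat_val_inj]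
        exact fun h => hp' h.symm
      · have := q.1.2; simp only [mat_val]; omega
      · have := q.2.2; simp only [mat_val]; omega
      · have := p'.1.2; simp only [mat_val]; omega
      · have := p'.2.2; simp only [mat_val]; omega
      · have := q'.1.2; simp only [mat_val]; omega
      · have := q'.2.2; simp only [mat_val]; omega
    · intro h
      exact absurd (Finset.mem_univ _) h
  simp only [h1]
  rw [Finset.sum_comm]
  refine Finset.sum_congr rfl fun q' _ => ?_
  rw [Matrix.mul_apply, Rat.cast_sum, Finset.sum_smul]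

private lemma mat_phi_one {i k m n : ℕ} (hm : m = Z.dim - i) (hn : n = Y.dim - k) :
    mat_phi τ c e i k m n 1 = ext τ (block Z c i) (block Y e k) := by
  unfold mat_phi block
  have h1 : ∀ p : mat_ι m n, (∑ q, ((((1 : Matrix (mat_ι m n) (mat_ι m n) ℚ) p q : ℚ)) : F) •
      mat_u τ c e i k (mat_val p) (mat_val q)) = mat_u τ c e i k (mat_val p) (mat_val p) := by
    intro p
    rw [Finset.sum_eq_single p]
    · rw [Matrix.one_apply_eq, Rat.cast_one, one_smul]
    · intro q _ hq
      rw [Matrix.one_apply_ne (Ne.symm hq), Rat.cast_zero, zero_smul]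
    · intro h
      exact absurd (Finset.mem_univ _) h
  simp only [h1]
  rw [← hm, ← hn, ext_sum_left, Fintype.sum_prod_type, Finset.sum_range]
  refine Finset.sum_congr rfl fun a _ => ?_
  rw [ext_sum_right, Finset.sum_range]
  rfl

private lemma mat_L_block {X : Variety.{u, v} F} {J : Finset ℕ}
    {c : ℕ → ℕ → Module.End F X.H} (hc : IsStrings X J c) {i m : ℕ} (hi : i ∈ J)
    (hm : m = X.dim - i) :
    X.L * block X c i = ∑ p : Fin (m + 1), ∑ q : Fin (m + 1),
      if p.val = q.val + 1 then X.L ^ p.val * c i q.val else 0 := by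
  unfold block
  rw [← hm, Finset.mul_sum, Finset.sum_comm, Finset.sum_range]
  refine Finset.sum_congr rfl fun q _ => ?_
  by_cases hq : q.val = m
  · rw [Finset.sum_eq_zero]
    · rw [← mul_assoc, ← pow_succ', hq, hm]
      exact hc.top i hi _ le_rfl
    · intro p _
      rw [if_neg]
      have := p.2
      omega
  · have hq' : q.val + 1 < m + 1 := by
      have := q.2
      omega
    rw [Finset.sum_eq_single (⟨q.val + 1, hq'⟩ : Fin (m + 1))]
    · rw [if_pos rfl, ← mul_assoc, ← pow_succ']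
    · intro p _ hp
      rw [if_neg]
      intro h
      exact hp (Fin.ext h)
    · intro h
      exact absurd (Finset.mem_univ _) h

private lemma mat_phi_add {i k m n : ℕ} (M N : Matrix (mat_ι m n) (mat_ι m n) ℚ) :
    mat_phi τ c e i k m n (M + N) = mat_phi τ c e i k m n M + mat_phi τ c e i k m n N := by
  unfold mat_phi
  rw [← Finset.sum_add_distrib]
  refine Finset.sum_congr rfl fun p _ => ?_
  rw [← Finset.sum_add_distrib]
  refine Finset.sum_congr rfl fun q _ => ?_
  rw [Matrix.add_apply, Rat.cast_add, add_smul]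

private lemma mat_phi_shiftA (hc : IsStrings Z I c) {i k m n : ℕ} (hi : i ∈ I)
    (hm : m = Z.dim - i) (hn : n = Y.dim - k) :
    mat_phi τ c e i k m n (shiftA m n) = ext τ (Z.L * block Z c i) (block Y e k) := by
  rw [mat_L_block hc hi hm]
  unfold mat_phi block
  rw [← hn, ext_sum_left, Fintype.sum_prod_type]
  refine Finset.sum_congr rfl fun p1 _ => ?_
  rw [ext_sum_left]
  have h1 : ∀ p2 : Fin (n + 1), (∑ q : mat_ι m n, ((shiftA m n (p1, p2) q : ℚ) : F) •
      mat_u τ c e i k (mat_val (p1, p2)) (mat_val q)) =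
      ∑ q1 : Fin (m + 1), ext τ (if p1.val = q1.val + 1 then Z.L ^ p1.val * c i q1.val else 0)
        (Y.L ^ p2.val * e k p2.val) := by
    intro p2
    rw [Fintype.sum_prod_type]
    refine Finset.sum_congr rfl fun q1 _ => ?_
    rw [Finset.sum_eq_single p2]
    · unfold shiftA
      by_cases h : p1.val = q1.val + 1
      · rw [if_pos ⟨h, rfl⟩, if_pos h, Rat.cast_one, one_smul]
        rfl
      · rw [if_neg (fun h' => h h'.1), if_neg h, Rat.cast_zero, zero_smul, ext_zero_left]
    · intro q2 _ hq2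
      unfold shiftA
      rw [if_neg (fun h' => hq2 h'.2.symm), Rat.cast_zero, zero_smul]
    · intro h
      exact absurd (Finset.mem_univ _) h
  simp only [h1]
  rw [Finset.sum_comm]
  refine Finset.sum_congr rfl fun q1 _ => ?_
  rw [ext_sum_right, Finset.sum_range]

private lemma mat_phi_shiftB (he : IsStrings Y K e) {i k m n : ℕ} (hk : k ∈ K)
    (hm : m = Z.dim - i) (hn : n = Y.dim - k) :
    mat_phi τ c e i k m n (shiftB m n) = ext τ (block Z c i) (Y.L * block Y e k) := by
  rw [mat_L_block he hk hn]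
  unfold mat_phi block
  rw [← hm, ext_sum_left, Fintype.sum_prod_type, Finset.sum_range]
  refine Finset.sum_congr rfl fun p1 _ => ?_
  rw [ext_sum_right]
  refine Finset.sum_congr rfl fun p2 _ => ?_
  rw [ext_sum_right, Fintype.sum_prod_type, Finset.sum_eq_single p1]
  · refine Finset.sum_congr rfl fun q2 _ => ?_
    unfold shiftB
    by_cases h : p2.val = q2.val + 1
    · rw [if_pos ⟨rfl, h⟩, if_pos h, Rat.cast_one, one_smul]
      rfl
    · rw [if_neg (fun h' => h h'.2), if_neg h, Rat.cast_zero, zero_smul, ext_zero_right]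
  · intro q1 _ hq1
    refine Finset.sum_eq_zero fun q2 _ => ?_
    unfold shiftB
    rw [if_neg (fun h' => hq1 h'.1.symm), Rat.cast_zero, zero_smul]
  · intro h
    exact absurd (Finset.mem_univ _) h

theorem exists_block_inverse (hP : IsTen Z Y T τ) (hc : IsStrings Z I c) (he : IsStrings Y K e)
    {i k : ℕ} (hi : i ∈ I) (hk : k ∈ K) (s : ℕ) :
    ∃ Θ ∈ T.corr (-s), T.L ^ s * Θ * T.L ^ s = T.L ^ s * ext τ (block Z c i) (block Y e k) ∧
      Θ * ext τ (block Z c i) (block Y e k) = Θ := by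
  obtain ⟨m, hm⟩ : ∃ m, m = Z.dim - i := ⟨_, rfl⟩
  obtain ⟨n, hn⟩ : ∃ n, n = Y.dim - k := ⟨_, rfl⟩
  set A := shiftA m n + shiftB m n with hA
  obtain ⟨θ, hθ1, hθ2⟩ := exists_homogeneous_quasi_inverse (fun p : mat_ι m n => p.1.val + p.2.val)
    s (A ^ s) (fun p q h => shift_pow_homogeneous m n s p q h)
  have hone : mat_phi τ c e i k m n 1 = ext τ (block Z c i) (block Y e k) := mat_phi_one hm hn
  have hmul := fun M N => mat_phi_mul (τ := τ) hc he hi hk hm hn M N
  have hL : T.L * mat_phi τ c e i k m n 1 = mat_phi τ c e i k m n A := by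
    rw [hone, hP.L_eq, add_mul, ext_mul, ext_mul, one_mul, one_mul, hA, mat_phi_add,
      mat_phi_shiftA hc hi hm hn, mat_phi_shiftB he hk hm hn]
  have hR : mat_phi τ c e i k m n 1 * T.L = T.L * mat_phi τ c e i k m n 1 := by
    rw [hone, hP.L_eq, mul_add, add_mul, ext_mul, ext_mul, ext_mul, ext_mul, one_mul, one_mul,
      mul_one, mul_one, hc.block_L hi, he.block_L hk]
  have hLs : ∀ t : ℕ, T.L ^ t * mat_phi τ c e i k m n 1 = mat_phi τ c e i k m n (A ^ t) := by
    intro t
    induction t with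
    | zero => rw [pow_zero, pow_zero, one_mul]
    | succ t ih =>
      have h1 : mat_phi τ c e i k m n (A ^ t) =
          mat_phi τ c e i k m n 1 * mat_phi τ c e i k m n (A ^ t) := by rw [hmul, one_mul]
      rw [pow_succ' T.L, mul_assoc, ih, h1, ← mul_assoc, hL, hmul, ← pow_succ']
  have hRs : ∀ t : ℕ, mat_phi τ c e i k m n 1 * T.L ^ t = T.L ^ t * mat_phi τ c e i k m n 1 := by
    intro t
    have h : Commute (mat_phi τ c e i k m n 1) T.L := hR
    exact h.pow_right t
  have hΘ : mat_phi τ c e i k m n θ = mat_phi τ c e i k m n 1 * mat_phi τ c e i k m n θ *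
      mat_phi τ c e i k m n 1 := by
    rw [hmul, hmul, one_mul, mul_one]
  refine ⟨mat_phi τ c e i k m n θ, ?_, ?_, ?_⟩
  · unfold mat_phi
    refine T.corr_sum _ _ fun p _ => T.corr_sum _ _ fun q _ => ?_
    by_cases h0 : θ p q = 0
    · rw [h0, Rat.cast_zero, zero_smul]
      exact (T.corr (-s)).zero_mem
    · refine T.corr_smul _ _ _ ?_
      have h1 := hθ2 p q h0
      have hp1 := p.1.2
      have hp2 := p.2.2
      have hq1 := q.1.2
      have hq2 := q.2.2
      refine hP.ext_corr (Z.corr_mul _ _ _ _ (Z.Lpow_corr _) (hc.corr i hi q.1.val (by omega)))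
        (Y.corr_mul _ _ _ _ (Y.Lpow_corr _) (he.corr k hk q.2.val (by omega))) ?_
      simp only [mat_val]
      omega
  · rw [hΘ]
    have h2 : T.L ^ s * (mat_phi τ c e i k m n 1 * mat_phi τ c e i k m n θ *
        mat_phi τ c e i k m n 1) * T.L ^ s = (T.L ^ s * mat_phi τ c e i k m n 1) *
        mat_phi τ c e i k m n θ * (mat_phi τ c e i k m n 1 * T.L ^ s) := by
      simp only [mul_assoc]
    rw [h2, hRs, hLs, hmul, hmul, hθ1, ← hLs, hone]
  · rw [← hone, hmul, mul_one]

end Pool.Agent.Helper47.PC
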