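import Mathlib

/-!
# A Padé type statement on `(1 + x)^s p`

If `deg p < k` and `(1 + x)^s p` has no terms of degree `m - k + 1, …, m`, then
`(1 + x)^s p = A + x^(m+1) B` with `deg A ≤ m - k`, `deg B ≤ s + k - m - 2`. The `(m-k+1)`-st derivative
is divisible by `(1 + x)^(s-m+k-1)` and it is `x^k B₁` with `deg B₁ = deg B`; so `B = 0`, and then
`A = 0`.
-/

namespace Pool.Agent.Helper47.PC

open Polynomial

lemma pade_unique (m s k : ℕ) (hk : k ≤ m + 1) (hs : m + 1 ≤ s + k) (p : ℚ[X])
    (hp : p.degree < k)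
    (h : ∀ j, m < j + k → j ≤ m → ((1 + X) ^ s * p).coeff j = 0) : p = 0 := by
  by_contra hp0
  set G : ℚ[X] := (1 + X) ^ s * p with hG
  obtain ⟨r, hr⟩ : ∃ r, r + k = m + 1 := ⟨m + 1 - k, by omega⟩
  have hrs : r ≤ s := by omega
  have hne : (1 + X : ℚ[X]) ≠ 0 := by
    intro h0
    have := congrArg (fun f => coeff f 1) h0
    simp [coeff_one] at this
  have hdeg1 : (1 + X : ℚ[X]).natDegree = 1 := by
    rw [add_comm, ← C_1, natDegree_X_add_C]
  have hdegG : G.natDegree = s + p.natDegree := by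
    rw [hG, natDegree_mul (pow_ne_zero _ hne) hp0, natDegree_pow, hdeg1, mul_one]
  have hpk : p.natDegree < k := (natDegree_lt_iff_degree_lt hp0).mpr hp
  have hG0 : G ≠ 0 := mul_ne_zero (pow_ne_zero _ hne) hp0
  have h1 : (1 + X) ^ (s - r) ∣ derivative^[r] G :=
    Polynomial.pow_sub_dvd_iterate_derivative_of_pow_dvd r (Dvd.intro _ rfl)
  have h2 : X ^ k ∣ derivative^[r] G := by
    rw [X_pow_dvd_iff]
    intro j hj
    rw [coeff_iterate_derivative, h (j + r) (by omega) (by omega), smul_zero]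
  have hcop : IsCoprime (X ^ k : ℚ[X]) ((1 + X) ^ (s - r)) :=
    IsCoprime.pow ⟨-1, 1, by ring⟩
  have h3 := hcop.mul_dvd h2 h1
  have h6 : (derivative^[r] G).coeff (G.natDegree - r) ≠ 0 := by
    rw [coeff_iterate_derivative, Nat.sub_add_cancel (by omega)]
    rw [nsmul_eq_mul]
    refine mul_ne_zero ?_ (leadingCoeff_ne_zero.mpr hG0)
    have : 0 < (G.natDegree).descFactorial r := Nat.descFactorial_pos.mpr (by omega)
    exact_mod_cast this.ne'
  have hD0 : derivative^[r] G ≠ 0 := by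
    intro h0
    rw [h0] at h6
    exact h6 (coeff_zero _)
  have h4 := natDegree_le_of_dvd h3 hD0
  rw [natDegree_mul (pow_ne_zero _ X_ne_zero) (pow_ne_zero _ hne), natDegree_pow, natDegree_pow,
    natDegree_X, hdeg1, mul_one, mul_one] at h4
  have h5 : (derivative^[r] G).natDegree ≤ G.natDegree - r := natDegree_iterate_derivative G r
  omega

end Pool.Agent.Helper47.PC
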