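import Pool.Agent.Helper47.PC.Pade

/-!
# Padé polynomials: existence

By `pade_unique` the linear map from the polynomials of degree `< k` to `ℚ^k` given by the
coefficients of `x^(m-k+1), …, x^m` of `(1 + x)^s p` is injective, hence surjective.
-/

namespace Pool.Agent.Helper47.PC

open Polynomial

/-- the coefficients of `x^(m-k+1), …, x^m` of `(1 + x)^s p` -/
private noncomputable def padeE_map (m s k : ℕ) : Polynomial.degreeLT ℚ k →ₗ[ℚ] (Fin k → ℚ) :=
  LinearMap.pi (fun i => (Polynomial.lcoeff ℚ (m - k + 1 + (i : ℕ))).comp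
    ((LinearMap.mulLeft ℚ ((1 + X) ^ s : ℚ[X])).comp (Polynomial.degreeLT ℚ k).subtype))

private lemma padeE_map_apply (m s k : ℕ) (p : Polynomial.degreeLT ℚ k) (i : Fin k) :
    padeE_map m s k p i = ((1 + X) ^ s * (p : ℚ[X])).coeff (m - k + 1 + (i : ℕ)) := rfl

private lemma padeE_inj (m s k : ℕ) (hk : k ≤ m) (hs : m + 1 ≤ s + k) :
    Function.Injective (padeE_map m s k) := by
  rw [injective_iff_map_eq_zero]
  intro p hp
  have h0 : (p : ℚ[X]) = 0 := by
    refine pade_unique m s k (by omega) hs p (Polynomial.mem_degreeLT.1 p.2) ?_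
    intro j hj hjm
    have hi : j - (m - k + 1) < k := by omega
    have h1 := congrFun hp ⟨j - (m - k + 1), hi⟩
    rw [padeE_map_apply] at h1
    have h2 : m - k + 1 + (j - (m - k + 1)) = j := by omega
    simp only [h2] at h1
    exact h1
  exact Subtype.ext h0

lemma pade_exists (m s k : ℕ) (hk : k ≤ m) (hs : m + 1 ≤ s + k) :
    ∃ f : ℚ[X], f.Monic ∧ f.natDegree = k ∧
      (∀ j, m < j + k → j ≤ m → ((1 + X) ^ s * f).coeff j = 0) ∧
      ((1 + X) ^ s * f).coeff (m - k) ≠ 0 := by
  have hsurj : Function.Surjective (padeE_map m s k) := by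
    have hfin : Module.finrank ℚ (Polynomial.degreeLT ℚ k) = Module.finrank ℚ (Fin k → ℚ) :=
      (Polynomial.degreeLTEquiv ℚ k).finrank_eq
    have : FiniteDimensional ℚ (Polynomial.degreeLT ℚ k) :=
      Module.Finite.equiv (Polynomial.degreeLTEquiv ℚ k).symm
    exact (LinearMap.injective_iff_surjective_of_finrank_eq_finrank hfin).1
      (padeE_inj m s k hk hs)
  obtain ⟨p, hp⟩ := hsurj (fun i => ((1 + X) ^ s * (X : ℚ[X]) ^ k).coeff (m - k + 1 + (i : ℕ)))
  have hpd : (p : ℚ[X]).degree < k := Polynomial.mem_degreeLT.1 p.2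
  have hmon : (X ^ k - (p : ℚ[X])).Monic := Polynomial.monic_X_pow_sub hpd
  have hdeg : (X ^ k - (p : ℚ[X])).degree = (k : WithBot ℕ) := by
    rw [Polynomial.degree_sub_eq_left_of_degree_lt]
    · exact Polynomial.degree_X_pow k
    · rw [Polynomial.degree_X_pow]
      exact hpd
  have hz : ∀ j, m < j + k → j ≤ m → ((1 + X) ^ s * (X ^ k - (p : ℚ[X]))).coeff j = 0 := by
    intro j hj hjm
    have hi : j - (m - k + 1) < k := by omega
    have h1 := congrFun hp ⟨j - (m - k + 1), hi⟩
    rw [padeE_map_apply] at h1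
    have h2 : m - k + 1 + (j - (m - k + 1)) = j := by omega
    simp only [h2] at h1
    rw [mul_sub, Polynomial.coeff_sub, h1, sub_self]
  refine ⟨X ^ k - (p : ℚ[X]), hmon, Polynomial.natDegree_eq_of_degree_eq_some hdeg, hz, ?_⟩
  intro hcon
  have h0 : (X ^ k - (p : ℚ[X])) = 0 := by
    refine pade_unique m s (k + 1) (by omega) (by omega) _ ?_ ?_
    · rw [hdeg]
      exact_mod_cast Nat.lt_succ_self k
    · intro j hj hjm
      rcases Nat.eq_or_lt_of_le (show m - k ≤ j by omega) with h | h
      · rw [← h]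
        exact hcon
      · exact hz j (by omega) hjm
  exact hmon.ne_zero h0

end Pool.Agent.Helper47.PC
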