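import Pool.Agent.Helper47.PC.Smith
import Pool.Agent.Helper47.PC.StrB
import Pool.Agent.Helper47.PC.Ten

/-!
# Left inverses on the product of `H(Z)` with the strings of `H(Y)`

Let `m = dim Y - b`, `j = dim T - s - 1`, and `e_k = s + k - dg m s k`, which is `0` for `k + s ≤ m`
and `2k + s - m` otherwise. In the second case `H^(j-b-2k)(Z)` is in degree `dim Z - 1 - e_k`, and
there is an algebraic `θ_k` with `θ_k L^(e_k) = 1` on it. With `φ, ψ, γ` of `exists_smith` let
`C_k = Σ_l γ_(k,l) L^(l - dg k) ⊗ e b l`, `F_k = Σ_l φ_(k,l) L^(k-l) ⊗ L^l`, and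
`Θ = Σ_k F_k (θ_k ⊗ 1) C_k`. As `e b l L^r = e b (l-r)` (`0` if `r > l`), one has
`C_k L^s (a ⊗ y) = Σ_l' ψ_(k,l') L^(e_k + l' - k) a ⊗ e b l' y`, then
`(θ_k ⊗ 1) C_k L^s (a ⊗ y) = Σ_l' ψ_(k,l') L^(l' - k) a ⊗ e b l' y` (the degree of `L^(l'-k) a` is
`j - b - 2k` if `e b l' y ≠ 0`), and the sum of the `F_k (…)` is `Σ_l' a ⊗ L^l' e b l' y`.
-/

set_option linter.unusedSectionVars false

namespace Pool.Agent.Helper47.PC

open Pool.Agent.Helper29.CPB Pool.Agent.Helper47.PB TensorProduct

universe u v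

variable {F : Type u} [Field F] [CharZero F] {Z Y T : Variety.{u, v} F}
  {τ : (Z.H ⊗[F] Y.H) ≃ₗ[F] T.H} {K : Finset ℕ} {e : ℕ → ℕ → Module.End F Y.H}

/-- the left inverses on `H(Z)` -/
lemma exists_theta (m s k : ℕ) (hk : k ≤ m) (hZ : ∀ j, j + s + 1 ≤ Z.dim + m → AlmostIn Z j) :
    ∃ θ ∈ Z.corr (-((s + k - dg m s k : ℕ) : ℤ)), ∀ (p : ℤ) (x : Z.H), Z.π p x = x →
      p + 2 * k + s + 1 = Z.dim + m → θ ((Z.L ^ (s + k - dg m s k)) x) = x := by
  by_cases h : k + s ≤ m
  · have h0 : s + k - dg m s k = 0 := by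
      unfold dg
      rw [if_pos h]
      omega
    refine ⟨1, ?_, fun p x _ _ => ?_⟩
    · rw [h0]
      simpa using Z.corr_one
    · rw [h0, pow_zero]
      rfl
  · have h0 : s + k - dg m s k = s + 2 * k - m := by
      unfold dg
      rw [if_neg h]
      omega
    rw [h0]
    rcases le_or_gt (s + 2 * k + 1) (Z.dim + m) with h1 | h1
    · have h2 := hZ (Z.dim + m - 2 * k - s - 1) (by omega) (by omega)
      obtain ⟨θ, hθ, hθ2⟩ := h2
      have h3 : Z.dim - (Z.dim + m - 2 * k - s - 1) - 1 = s + 2 * k - m := by omega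
      rw [h3] at hθ hθ2
      refine ⟨θ, hθ, fun p x hx hp => hθ2 x ?_⟩
      rw [show ((Z.dim + m - 2 * k - s - 1 : ℕ) : ℤ) = p by omega]
      exact hx
    · refine ⟨0, (Z.corr _).zero_mem, fun p x hx hp => ?_⟩
      have h2 : x = 0 := Z.homog_zero (Or.inl (by omega)) hx
      rw [h2, map_zero, map_zero]

/-- coordinates of `L^r y` -/
lemma coord_Lpow (he : IsStrings Y K e) {b l : ℕ} (hb : b ∈ K) (hl : l ≤ Y.dim - b) (r : ℕ) :
    e b l * Y.L ^ r = if r ≤ l then e b (l - r) else 0 := by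
  induction r generalizing l with
  | zero => rw [pow_zero, mul_one, if_pos (Nat.zero_le _), Nat.sub_zero]
  | succ r ih =>
    rw [pow_succ', ← mul_assoc]
    rcases l with _ | l
    · rw [he.zero b hb, zero_mul, if_neg (by omega)]
    · rw [he.succ b hb l (by omega), ih (by omega)]
      by_cases h : r ≤ l
      · rw [if_pos h, if_pos (by omega), show l + 1 - (r + 1) = l - r by omega]
      · rw [if_neg h, if_neg (by omega)]

/-- `e b l L^s` on products, before the sum over `l` -/
private lemma strLeft_row (hP : IsTen Z Y T τ) (he : IsStrings Y K e) {b l m : ℕ} (hb : b ∈ K)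
    (hm : m = Y.dim - b) (hl : l ≤ m) (s d : ℕ) (a : Z.H) (y : Y.H) :
    ext τ (Z.L ^ d) (e b l) ((T.L ^ s) (τ (a ⊗ₜ y))) =
      ∑ l' ∈ Finset.range (m + 1), (if l' ≤ l then ((s.choose (l - l') : ℕ) : F) else 0) •
        τ ((Z.L ^ d) ((Z.L ^ (s - (l - l'))) a) ⊗ₜ (e b l' y)) := by
  set G : ℕ → T.H := fun q => ((s.choose q : ℕ) : F) •
    τ ((Z.L ^ d) ((Z.L ^ (s - q)) a) ⊗ₜ (e b l ((Y.L ^ q) y))) with hG
  have h1 : ext τ (Z.L ^ d) (e b l) ((T.L ^ s) (τ (a ⊗ₜ y))) = ∑ q ∈ Finset.range (s + 1), G q := by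
    rw [hP.Lpow_apply, map_sum]
    refine Finset.sum_congr rfl fun q _ => ?_
    rw [map_smul, ext_apply]
  have h2 : ∀ q, l < q → G q = 0 := by
    intro q hq
    have h3 := congrArg (fun g => g y) (coord_Lpow he hb (hm ▸ hl) q)
    rw [if_neg (by omega)] at h3
    simp only [Module.End.mul_apply, LinearMap.zero_apply] at h3
    simp only [hG, h3, tmul_zero, map_zero, smul_zero]
  have h2' : ∀ q, s < q → G q = 0 := by
    intro q hq
    simp only [hG, Nat.choose_eq_zero_of_lt hq, Nat.cast_zero, zero_smul]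
  have h3 : ∑ q ∈ Finset.range (s + 1), G q = ∑ q ∈ Finset.range (l + 1), G q := by
    have h4 : ∑ q ∈ Finset.range (s + 1), G q = ∑ q ∈ Finset.range (s + l + 1), G q := by
      refine Finset.sum_subset (Finset.range_subset_range.2 (by omega)) fun q _ hq => h2' q ?_
      rw [Finset.mem_range] at hq
      omega
    have h5 : ∑ q ∈ Finset.range (l + 1), G q = ∑ q ∈ Finset.range (s + l + 1), G q := by
      refine Finset.sum_subset (Finset.range_subset_range.2 (by omega)) fun q _ hq => h2 q ?_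
      rw [Finset.mem_range] at hq
      omega
    rw [h4, h5]
  rw [h1, h3]
  set H : ℕ → T.H := fun l' => (if l' ≤ l then ((s.choose (l - l') : ℕ) : F) else 0) •
        τ ((Z.L ^ d) ((Z.L ^ (s - (l - l'))) a) ⊗ₜ (e b l' y)) with hH
  have h6 : ∑ l' ∈ Finset.range (l + 1), H l' = ∑ l' ∈ Finset.range (m + 1), H l' := by
    refine Finset.sum_subset (Finset.range_subset_range.2 (by omega)) fun q _ hq => ?_
    rw [Finset.mem_range] at hq
    simp only [hH, if_neg (show ¬ q ≤ l by omega), zero_smul]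
  rw [← h6, ← Finset.sum_flip H]
  refine Finset.sum_congr rfl fun q hq => ?_
  have hq' : q ≤ l := by
    have := Finset.mem_range.mp hq
    omega
  have h7 := congrArg (fun g => g y) (coord_Lpow he hb (hm ▸ hl) q)
  rw [if_pos hq'] at h7
  simp only [Module.End.mul_apply] at h7
  simp only [hG, hH, h7, if_pos (Nat.sub_le l q), show l - (l - q) = q by omega]

theorem exists_string_left_inverse (hP : IsTen Z Y T τ) (he : IsStrings Y K e) {b : ℕ}
    (hb : b ∈ K) (s : ℕ) (hZ : ∀ j, j + s + 1 ≤ T.dim → AlmostIn Z j) :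
    ∃ Θ ∈ T.corr (-s), ∀ (p q : ℤ) (a : Z.H) (y : Y.H), Z.π p a = a → Y.π q y = y →
      p + q + s + 1 = T.dim →
      Θ ((T.L ^ s) (τ (a ⊗ₜ y))) = τ (a ⊗ₜ (block Y e b y)) := by
  have hbd := he.le b hb
  obtain ⟨m, hm⟩ : ∃ m, m = Y.dim - b := ⟨_, rfl⟩
  have hdim := hP.dim
  obtain ⟨φ, ψ, γ, hφ, hψ, hγ, hφψ, hγψ⟩ := exists_smith m s
  have h0 : ∀ k, ∃ θ, k ≤ m → (θ ∈ Z.corr (-((s + k - dg m s k : ℕ) : ℤ)) ∧
      ∀ (p : ℤ) (x : Z.H), Z.π p x = x →
        p + 2 * k + s + 1 = Z.dim + m → θ ((Z.L ^ (s + k - dg m s k)) x) = x) := by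
    intro k
    by_cases hk : k ≤ m
    · obtain ⟨θ, h1, h2⟩ := exists_theta (Z := Z) m s k hk fun j hj => hZ j (by omega)
      exact ⟨θ, fun _ => ⟨h1, h2⟩⟩
    · exact ⟨0, fun h => absurd h hk⟩
  choose θ hθ using h0
  have hdg : ∀ k ≤ m, dg m s k ≤ s + k := by
    intro k hk
    unfold dg
    split_ifs <;> omega
  refine ⟨∑ k ∈ Finset.range (m + 1),
    (∑ l ∈ Finset.range (m + 1), ((φ k l : ℚ) : F) • ext τ (Z.L ^ (k - l)) (Y.L ^ l)) *
    (ext τ (θ k) 1 *
    (∑ l ∈ Finset.range (m + 1), ((γ k l : ℚ) : F) • ext τ (Z.L ^ (l - dg m s k)) (e b l))),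
    ?_, ?_⟩
  · refine T.corr_sum _ _ fun k hk => ?_
    have hk' : k ≤ m := by
      have := Finset.mem_range.mp hk
      omega
    have hd := hdg k hk'
    refine T.corr_mul' (r := k) (s := -(s : ℤ) - k) (by ring) ?_
      (T.corr_mul' (r := -((s + k - dg m s k : ℕ) : ℤ)) (s := -(dg m s k : ℤ)) (by omega) ?_ ?_)
    · refine T.corr_sum _ _ fun l _ => ?_
      by_cases h : φ k l = 0
      · rw [h, Rat.cast_zero, zero_smul]
        exact (T.corr _).zero_mem
      · have hl := hφ k l h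
        exact T.corr_smul _ _ _ (hP.ext_corr (Z.Lpow_corr (k - l)) (Y.Lpow_corr l) (by omega))
    · exact hP.ext_corr (hθ k hk').1 Y.corr_one (by ring)
    · refine T.corr_sum _ _ fun l hl => ?_
      have hl' : l ≤ m := by
        have := Finset.mem_range.mp hl
        omega
      by_cases h : γ k l = 0
      · rw [h, Rat.cast_zero, zero_smul]
        exact (T.corr _).zero_mem
      · have hl2 := hγ k l h
        exact T.corr_smul _ _ _ (hP.ext_corr (Z.Lpow_corr (l - dg m s k))
          (he.corr b hb l (hm ▸ hl')) (by omega))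
  · intro p q a y ha hy hpq
    -- the coordinates of `L^s (a ⊗ y)`
    have h1 : ∀ k ≤ m, (∑ l ∈ Finset.range (m + 1),
        ((γ k l : ℚ) : F) • ext τ (Z.L ^ (l - dg m s k)) (e b l)) ((T.L ^ s) (τ (a ⊗ₜ y))) =
        ∑ l' ∈ Finset.range (m + 1), ((ψ k l' : ℚ) : F) •
          τ ((Z.L ^ (s + l' - dg m s k)) a ⊗ₜ (e b l' y)) := by
      intro k hk
      rw [LinearMap.sum_apply]
      have h2 : ∀ l ∈ Finset.range (m + 1), (((γ k l : ℚ) : F) •
          ext τ (Z.L ^ (l - dg m s k)) (e b l)) ((T.L ^ s) (τ (a ⊗ₜ y))) =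
          ∑ l' ∈ Finset.range (m + 1), (((γ k l : ℚ) : F) *
            (if l' ≤ l then ((s.choose (l - l') : ℕ) : F) else 0)) •
            τ ((Z.L ^ (s + l' - dg m s k)) a ⊗ₜ (e b l' y)) := by
        intro l hl
        have hl' : l ≤ m := by
          have := Finset.mem_range.mp hl
          omega
        rw [LinearMap.smul_apply, strLeft_row hP he hb hm hl', Finset.smul_sum]
        refine Finset.sum_congr rfl fun l' _ => ?_
        rw [smul_smul]
        by_cases h3 : γ k l = 0
        · rw [h3, Rat.cast_zero, zero_mul, zero_smul, zero_smul]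
        · have h4 := hγ k l h3
          by_cases h5 : l' ≤ l
          · rw [if_pos h5]
            rcases le_or_gt (l - l') s with h6 | h6
            · rw [← Module.End.mul_apply, ← pow_add,
                show l - dg m s k + (s - (l - l')) = s + l' - dg m s k by omega]
            · rw [Nat.choose_eq_zero_of_lt h6, Nat.cast_zero, mul_zero, zero_smul, zero_smul]
          · rw [if_neg h5, mul_zero, zero_smul, zero_smul]
      rw [Finset.sum_congr rfl h2, Finset.sum_comm]
      refine Finset.sum_congr rfl fun l' hl' => ?_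
      have hl'' : l' ≤ m := by
        have := Finset.mem_range.mp hl'
        omega
      rw [← Finset.sum_smul, ← hγψ k hk l' hl'', Rat.cast_sum]
      congr 1
      refine Finset.sum_congr rfl fun l _ => ?_
      rw [Rat.cast_mul]
      split_ifs
      · rw [Rat.cast_natCast]
      · rw [Rat.cast_zero]
    -- the left inverses on `H(Z)`
    have h2 : ∀ k ≤ m, ext τ (θ k) 1 ((∑ l ∈ Finset.range (m + 1),
        ((γ k l : ℚ) : F) • ext τ (Z.L ^ (l - dg m s k)) (e b l)) ((T.L ^ s) (τ (a ⊗ₜ y)))) =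
        ∑ l' ∈ Finset.range (m + 1), ((ψ k l' : ℚ) : F) •
          τ ((Z.L ^ (l' - k)) a ⊗ₜ (e b l' y)) := by
      intro k hk
      rw [h1 k hk, map_sum]
      refine Finset.sum_congr rfl fun l' hl' => ?_
      have hl'' : l' ≤ m := by
        have := Finset.mem_range.mp hl'
        omega
      rw [map_smul, ext_apply, Module.End.one_apply]
      by_cases h3 : ψ k l' = 0
      · rw [h3, Rat.cast_zero, zero_smul, zero_smul]
      have h4 := hψ k l' h3
      by_cases h5 : e b l' y = 0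
      · rw [h5, tmul_zero, tmul_zero]
      have h6 : q = b + 2 * l' := by
        by_contra hne
        apply h5
        have h7 := he.deg b hb l' (hm ▸ hl'') y
        have h8 : Y.π (q - 2 * l') (e b l' y) = e b l' y :=
          Y.corr_homog (he.corr b hb l' (hm ▸ hl'')) (by ring) hy
        rw [← h7]
        exact Y.π_apply_ne (by omega) h8
      have hd := hdg k hk
      have h7 : (Z.L ^ (s + l' - dg m s k)) a =
          (Z.L ^ (s + k - dg m s k)) ((Z.L ^ (l' - k)) a) := by
        rw [← Module.End.mul_apply, ← pow_add]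
        congr 2
        omega
      have h8 : Z.π (p + 2 * (l' - k : ℕ)) ((Z.L ^ (l' - k)) a) = (Z.L ^ (l' - k)) a :=
        Z.corr_homog (Z.Lpow_corr (l' - k)) rfl ha
      rw [h7, (hθ k hk).2 _ _ h8 (by omega)]
    rw [LinearMap.sum_apply]
    have h3 : ∀ k ∈ Finset.range (m + 1),
        ((∑ l ∈ Finset.range (m + 1), ((φ k l : ℚ) : F) • ext τ (Z.L ^ (k - l)) (Y.L ^ l)) *
        (ext τ (θ k) 1 * (∑ l ∈ Finset.range (m + 1),
          ((γ k l : ℚ) : F) • ext τ (Z.L ^ (l - dg m s k)) (e b l))))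
          ((T.L ^ s) (τ (a ⊗ₜ y))) =
        ∑ l ∈ Finset.range (m + 1), ∑ l' ∈ Finset.range (m + 1),
          ((φ k l * ψ k l' : ℚ) : F) • τ ((Z.L ^ (l' - l)) a ⊗ₜ ((Y.L ^ l) (e b l' y))) := by
      intro k hk
      have hk' : k ≤ m := by
        have := Finset.mem_range.mp hk
        omega
      rw [Module.End.mul_apply, Module.End.mul_apply, h2 k hk', LinearMap.sum_apply]
      refine Finset.sum_congr rfl fun l _ => ?_
      rw [map_sum]
      refine Finset.sum_congr rfl fun l' _ => ?_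
      rw [map_smul, LinearMap.smul_apply, ext_apply, smul_smul, Rat.cast_mul,
        mul_comm ((ψ k l' : ℚ) : F)]
      by_cases h4 : φ k l = 0
      · rw [h4, Rat.cast_zero, zero_mul, zero_smul, zero_smul]
      by_cases h5 : ψ k l' = 0
      · rw [h5, Rat.cast_zero, mul_zero, zero_smul, zero_smul]
      have h6 := hφ k l h4
      have h7 := hψ k l' h5
      rw [← Module.End.mul_apply (Z.L ^ (k - l)), ← pow_add,
        show k - l + (l' - k) = l' - l by omega]
    rw [Finset.sum_congr rfl h3, Finset.sum_comm]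
    have h4 : block Y e b y = ∑ l ∈ Finset.range (m + 1), (Y.L ^ l) (e b l y) := by
      unfold block
      rw [LinearMap.sum_apply, hm]
      rfl
    rw [h4, tmul_sum, map_sum]
    refine Finset.sum_congr rfl fun l hl => ?_
    have hl' : l ≤ m := by
      have := Finset.mem_range.mp hl
      omega
    rw [Finset.sum_comm, Finset.sum_eq_single l]
    · rw [← Finset.sum_smul, ← Rat.cast_sum, hφψ l hl' l hl', if_pos rfl, Rat.cast_one, one_smul,
        Nat.sub_self, pow_zero, Module.End.one_apply]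
    · intro l' hl2 hne
      have hl2' : l' ≤ m := by
        have := Finset.mem_range.mp hl2
        omega
      rw [← Finset.sum_smul, ← Rat.cast_sum, hφψ l hl' l' hl2', if_neg hne.symm, Rat.cast_zero,
        zero_smul]
    · intro h
      exact absurd hl h

end Pool.Agent.Helper47.PC
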