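import Pool.Agent.Helper47.PC.Tools
import Pool.Agent.Helper47.PC.Low
import Pool.Agent.Helper47.PC.StrLeft

/-!
# Products

Let `ρ` be the projector `lowPart`. In the degree `j ≤ k ≤ z + z' + 1` there are algebraic operators
which map `L^s (a ⊗ y)`, `s = dim T - j - 1`, to `a ⊗ ρ y`, to `ρ a ⊗ y` and to `ρ a ⊗ ρ y`, and
`(a - ρ a) ⊗ (y - ρ y) = 0`.
-/

set_option linter.unusedSectionVars false

namespace Pool.Agent.Helper47.PC

open Pool.Agent.Helper29.CPB Pool.Agent.Helper47.PB TensorProduct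

universe u v

variable {F : Type u} [Field F] [CharZero F] {Z Y T : Variety.{u, v} F}
  {τ : (Z.H ⊗[F] Y.H) ≃ₗ[F] T.H}

/-- the sum of the operators of `exists_string_left_inverse` -/
theorem exists_right_low_inverse (hP : IsTen Z Y T τ) {K : Finset ℕ}
    {e : ℕ → ℕ → Module.End F Y.H} (he : IsStrings Y K e) (s : ℕ)
    (hZ : ∀ j, j + s + 1 ≤ T.dim → AlmostIn Z j) :
    ∃ Θ ∈ T.corr (-s), ∀ (p q : ℤ) (a : Z.H) (y : Y.H), Z.π p a = a → Y.π q y = y →
      p + q + s + 1 = T.dim →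
      Θ ((T.L ^ s) (τ (a ⊗ₜ y))) = τ (a ⊗ₜ (lowPart Y K e y)) := by
  have h1 := fun b (hb : b ∈ K) => exists_string_left_inverse hP he hb s hZ
  choose! Θ hΘ h using h1
  refine ⟨∑ b ∈ K, Θ b, T.corr_sum _ _ fun b hb => hΘ b hb, fun p q a y ha hy hpq => ?_⟩
  have h2 : ∀ b ∈ K, Θ b ((T.L ^ s) (τ (a ⊗ₜ y))) = τ (a ⊗ₜ (block Y e b y)) :=
    fun b hb => h b hb p q a y ha hy hpq
  rw [LinearMap.sum_apply, Finset.sum_congr rfl h2, ← map_sum, ← tmul_sum]
  congr 2
  rw [lowPart, LinearMap.sum_apply]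

/-- **Products.** -/
theorem almost_product (hP : IsTen Z Y T τ) {z z' k : ℕ} (hk : k ≤ z + z' + 1)
    (hZ : Almost z k Z) (hY : Almost z' k Y) : Almost (min z z') k T := by
  obtain ⟨I, c, hc, hI⟩ := exists_strings_low Z hZ.cplus hZ.low
  obtain ⟨K, e, he, hK⟩ := exists_strings_low Y hY.cplus hY.low
  have hn := hP.dim
  refine ⟨hP.cplus hZ.cplus hY.cplus, fun i hi => ?_, fun j hj hjT => ?_⟩
  · rw [lefschetzIn_iff]
    intro hiT
    obtain ⟨Θ, hΘ, h⟩ := exists_low_left_inverse hP hc he (T.dim - i)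
    refine leftInverseIn_of_tmul hP hΘ fun p q a y ha hy hpq => ?_
    rw [h p q a y ha hy (by omega)]
    rcases lt_or_ge p 0 with hp0 | hp0
    · rw [Z.homog_zero (Or.inl hp0) ha, map_zero, zero_tmul, zero_tmul]
    rcases lt_or_ge q 0 with hq0 | hq0
    · rw [Y.homog_zero (Or.inl hq0) hy, map_zero, tmul_zero, tmul_zero]
    have h1 := le_min_iff.mp hi
    rw [hc.span_of_le hI (Or.inl (by omega)) a ha, he.span_of_le hK (Or.inl (by omega)) y hy]
  · set s := T.dim - j - 1 with hs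
    obtain ⟨Θ₀, hΘ₀, h0⟩ := exists_low_left_inverse hP hc he s
    obtain ⟨Θ₁, hΘ₁, h1⟩ := exists_right_low_inverse hP he s fun i hi => hZ.mid i (by omega)
    obtain ⟨Θ₂, hΘ₂, h2⟩ := exists_right_low_inverse hP.swap hc s fun i hi =>
      hY.mid i (by omega)
    refine leftInverseIn_of_tmul hP (Θ := Θ₁ + Θ₂ - Θ₀)
      ((T.corr _).sub_mem ((T.corr _).add_mem hΘ₁ hΘ₂) hΘ₀) fun p q a y ha hy hpq => ?_
    have e0 := h0 p q a y ha hy (by omega)
    have e1 := h1 p q a y ha hy (by omega)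
    have e2 := h2 q p y a hy ha (by omega)
    simp only [LinearEquiv.trans_apply, TensorProduct.comm_tmul] at e2
    rw [LinearMap.sub_apply, LinearMap.add_apply, e0, e1, e2]
    rcases le_or_gt p z with hp | hp
    · rw [hc.span_of_le hI (Or.inl hp) a ha, add_sub_cancel_left]
    · rw [he.span_of_le hK (Or.inl (by omega)) y hy, add_sub_cancel_right]

end Pool.Agent.Helper47.PC
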