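import Pool.Agent.Helper47.PC.StrB
import Pool.Agent.Helper47.PC.Ten

/-!
# Left inverses on the product of the rest of `H(Z)` with a low string of `H(Y)`
-/

set_option linter.unusedSectionVars false

namespace Pool.Agent.Helper47.PC

open Pool.Agent.Helper29.CPB Pool.Agent.Helper47.PB TensorProduct

universe u v

variable {F : Type u} [Field F] [CharZero F] {Z Y T : Variety.{u, v} F}
  {τ : (Z.H ⊗[F] Y.H) ≃ₗ[F] T.H} {I K : Finset ℕ} {c : ℕ → ℕ → Module.End F Z.H}
  {e : ℕ → ℕ → Module.End F Y.H}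

/-- the coordinates `e q0 b` vanish in the wrong degrees -/
private lemma rest_zero (he : IsStrings Y K e) {q0 b : ℕ} (hq : q0 ∈ K) (hb : b ≤ Y.dim - q0)
    {k : ℤ} (hk : k ≠ q0 + 2 * b) {y : Y.H} (hy : Y.π k y = y) : e q0 b y = 0 := by
  have h1 : Y.π (k - 2 * b) (e q0 b y) = e q0 b y :=
    Y.corr_homog (he.corr q0 hq b hb) (by ring) hy
  have h2 := he.deg q0 hq b hb y
  rw [← h2]
  exact Y.π_apply_ne (by omega) h1

private lemma rest_prim (he : IsStrings Y K e) {q0 : ℕ} (h0 : q0 ≤ 1) (hq : q0 ∈ K) {y : Y.H}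
    (hy : Y.π q0 y = y) : e q0 0 y = y := by
  have h1 := he.span q0 hq y hy
  unfold lowPart block at h1
  rw [LinearMap.sum_apply, Finset.sum_eq_single q0] at h1
  · rw [LinearMap.sum_apply, Finset.sum_eq_single 0] at h1
    · rw [pow_zero, one_mul] at h1
      exact h1
    · intro b hb hb0
      rw [Module.End.mul_apply, rest_zero he hq (by
        have := Finset.mem_range.1 hb
        omega) (k := q0) (by omega) hy, map_zero]
    · intro h
      exact absurd (Finset.mem_range.2 (Nat.succ_pos _)) h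
  · intro k hk hkq
    rw [LinearMap.sum_apply]
    refine Finset.sum_eq_zero fun b hb => ?_
    rw [Module.End.mul_apply, rest_zero he hk (by
      have := Finset.mem_range.1 hb
      omega) (k := q0) (by omega) hy, map_zero]
  · intro h
    exact absurd hq h

private lemma rest_pow (he : IsStrings Y K e) {q0 b : ℕ} (h0 : q0 ≤ 1) (hq : q0 ∈ K)
    (hb : b ≤ Y.dim - q0) {y : Y.H} (hy : Y.π q0 y = y) : e q0 b ((Y.L ^ b) y) = y := by
  have h1 := rest_prim he h0 hq hy
  have h2 := he.coord_apply hq hq hb (Nat.zero_le _) (l := b) y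
  rw [if_pos ⟨rfl, rfl⟩, h1] at h2
  exact h2

private lemma rest_Lhomog {V : Variety.{u, v} F} {k : ℤ} {x : V.H} (hx : V.π k x = x) (m : ℕ) :
    V.π (k + 2 * m) ((V.L ^ m) x) = (V.L ^ m) x :=
  V.corr_homog (V.Lpow_corr m) rfl hx

private lemma rest_kill (hP : IsTen Z Y T τ) (hc : IsStrings Z I c) (f : Module.End F Z.H)
    (g : Module.End F Y.H) (s : ℕ) {a : Z.H} (ha : lowPart Z I c a = a) (y : Y.H) :
    ext τ (f * (1 - lowPart Z I c)) g ((T.L ^ s) (τ (a ⊗ₜ y))) = 0 := by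
  rw [hP.Lpow_apply, map_sum]
  refine Finset.sum_eq_zero fun m _ => ?_
  have h1 : lowPart Z I c ((Z.L ^ (s - m)) a) = (Z.L ^ (s - m)) a := by
    rw [← Module.End.mul_apply, hc.lowPart_Lpow, Module.End.mul_apply, ha]
  rw [map_smul, ext_apply, Module.End.mul_apply, LinearMap.sub_apply, h1, Module.End.one_apply,
    sub_self, map_zero, zero_tmul, map_zero, smul_zero]

private lemma rest_val (hP : IsTen Z Y T τ) (he : IsStrings Y K e) {q0 b : ℕ} (h0 : q0 ≤ 1)
    (hq : q0 ∈ K) (hb : b ≤ Y.dim - q0) {s : ℕ} (hbs : b ≤ s) (f : Module.End F Z.H) (a : Z.H)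
    {y : Y.H} (hy : Y.π q0 y = y) :
    ext τ f (e q0 b) ((T.L ^ s) (τ (a ⊗ₜ y))) =
      (s.choose b : F) • τ (f ((Z.L ^ (s - b)) a) ⊗ₜ y) := by
  rw [hP.Lpow_apply, map_sum, Finset.sum_eq_single b]
  · rw [map_smul, ext_apply, rest_pow he h0 hq hb hy]
  · intro m _ hm
    rw [map_smul, ext_apply, rest_zero he hq hb (k := q0 + 2 * m) (by omega) (rest_Lhomog hy m),
      tmul_zero, map_zero, smul_zero]
  · intro h
    exact absurd (Finset.mem_range.2 (by omega)) h

private lemma rest_off (hP : IsTen Z Y T τ) {z j : ℕ} (hj : j ≤ z + 2) (hc : IsStrings Z I c)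
    (hI : ∀ i : ℕ, i ≤ z → i ≤ Z.dim → i ∈ I) (he : IsStrings Y K e) {q0 b : ℕ} (h0 : q0 ≤ 1)
    (hq : q0 ∈ K) (hb : b ≤ Y.dim - q0) (s : ℕ) (f : Module.End F Z.H) {p q : ℤ} {a : Z.H}
    {y : Y.H} (ha : Z.π p a = a) (hy : Y.π q y = y) (hpq : p + q = j) (hqq : q ≠ q0) :
    ext τ (f * (1 - lowPart Z I c)) (e q0 b) ((T.L ^ s) (τ (a ⊗ₜ y))) = 0 := by
  rcases lt_or_ge q 2 with h2 | h2
  · rw [hP.Lpow_apply, map_sum]
    refine Finset.sum_eq_zero fun m _ => ?_
    rcases lt_or_ge q 0 with h3 | h3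
    · rw [Y.homog_zero (Or.inl h3) hy, map_zero, tmul_zero, map_zero, smul_zero, map_zero]
    · rw [map_smul, ext_apply, rest_zero he hq hb (k := q + 2 * m) (by omega) (rest_Lhomog hy m),
        tmul_zero, map_zero, smul_zero]
  · exact rest_kill hP hc f _ s (hc.span_of_le hI (Or.inl (by omega)) a ha) y

private lemma rest_one (hP : IsTen Z Y T τ) {z j : ℕ} (hj : j ≤ z + 2)
    (hjT : j < T.dim) (hc : IsStrings Z I c) (hI : ∀ i : ℕ, i ≤ z → i ≤ Z.dim → i ∈ I)
    (he : IsStrings Y K e) (hK : ∀ i : ℕ, i ≤ 1 → i ≤ Y.dim → i ∈ K)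
    (hZ : ∀ p ≤ z + 2, AlmostIn Z p) {q0 : ℕ} (h0 : q0 ≤ 1) :
    ∃ Θ ∈ T.corr (-(T.dim - j - 1 : ℕ)), ∀ (p q : ℤ) (a : Z.H) (y : Y.H), Z.π p a = a →
      Y.π q y = y → p + q = j →
      Θ ((T.L ^ (T.dim - j - 1)) (τ (a ⊗ₜ y))) =
        if q = q0 then τ ((a - lowPart Z I c a) ⊗ₜ y) else 0 := by
  have hdim := hP.dim
  -- the trivial cases
  have htriv : (∀ (p : ℤ) (a : Z.H) (y : Y.H), Z.π p a = a → Y.π q0 y = y → p + q0 = j →
      (a - lowPart Z I c a) ⊗ₜ[F] y = 0) → ∃ Θ ∈ T.corr (-(T.dim - j - 1 : ℕ)),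
      ∀ (p q : ℤ) (a : Z.H) (y : Y.H), Z.π p a = a → Y.π q y = y → p + q = j →
      Θ ((T.L ^ (T.dim - j - 1)) (τ (a ⊗ₜ y))) =
        if q = q0 then τ ((a - lowPart Z I c a) ⊗ₜ y) else 0 := by
    intro h
    refine ⟨0, (T.corr _).zero_mem, fun p q a y ha hy hpq => ?_⟩
    rw [LinearMap.zero_apply]
    split_ifs with hq
    · subst hq
      rw [h p a y ha hy hpq, map_zero]
    · rfl
  rcases Nat.lt_or_ge j q0 with hjq | hjq
  · refine htriv fun p a y ha hy hpq => ?_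
    rw [Z.homog_zero (Or.inl (by omega)) ha, map_zero, sub_zero, zero_tmul]
  rcases Nat.lt_or_ge Y.dim q0 with hqY | hqY
  · refine htriv fun p a y ha hy hpq => ?_
    rw [Y.homog_zero (Or.inr (by omega)) hy, tmul_zero]
  have hqK : q0 ∈ K := hK q0 h0 hqY
  rcases Nat.lt_trichotomy (j - q0) Z.dim with hp | hp | hp
  · obtain ⟨θ, hθ, hθ'⟩ := hZ (j - q0) (by omega) hp
    have hθc : θ ∈ Z.corr (-(Z.dim - (j - q0) - 1 : ℕ)) := hθ
    have hch : ((T.dim - j - 1).choose (Y.dim - q0) : F) ≠ 0 :=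
      Nat.cast_ne_zero.2 (Nat.choose_pos (by omega)).ne'
    refine ⟨((((T.dim - j - 1).choose (Y.dim - q0) : ℚ)⁻¹ : ℚ) : F) •
      ext τ (θ * (1 - lowPart Z I c)) (e q0 (Y.dim - q0)), ?_, ?_⟩
    · refine T.corr_smul _ _ _ (hP.ext_corr (r := -(Z.dim - (j - q0) - 1 : ℕ))
        (s := -(Y.dim - q0 : ℕ)) (Z.corr_mul' (by ring) hθc
          ((Z.corr 0).sub_mem Z.corr_one hc.lowPart_corr)) (he.corr q0 hqK _ le_rfl) (by omega))
    · intro p q a y ha hy hpq
      rw [LinearMap.smul_apply]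
      split_ifs with hq
      · subst hq
        rw [rest_val hP he h0 hqK le_rfl (by omega) _ a hy, smul_smul]
        have h1 : T.dim - j - 1 - (Y.dim - q0) = Z.dim - (j - q0) - 1 := by omega
        have h2 : p = ((j - q0 : ℕ) : ℤ) := by omega
        subst h2
        have h3 : (θ * (1 - lowPart Z I c)) ((Z.L ^ (Z.dim - (j - q0) - 1)) a) =
            a - lowPart Z I c a := by
          have h4 : Z.π ((j - q0 : ℕ) : ℤ) (a - lowPart Z I c a) = a - lowPart Z I c a := by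
            rw [map_sub, ha, Z.corr_homog hc.lowPart_corr (by ring) ha]
          rw [Module.End.mul_apply, LinearMap.sub_apply, Module.End.one_apply,
            ← Module.End.mul_apply, hc.lowPart_Lpow, Module.End.mul_apply, ← map_sub]
          exact hθ' _ h4
        rw [h1, h3]
        push_cast
        rw [inv_mul_cancel₀ hch, one_smul]
      · rw [rest_off hP hj hc hI he h0 hqK le_rfl _ _ ha hy hpq hq, smul_zero]
  · refine ⟨ext τ (1 * (1 - lowPart Z I c)) (e q0 (T.dim - j - 1)), ?_, ?_⟩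
    · refine hP.ext_corr (r := 0) (s := -(T.dim - j - 1 : ℕ)) (Z.corr_mul' (by ring) Z.corr_one
          ((Z.corr 0).sub_mem Z.corr_one hc.lowPart_corr)) (he.corr q0 hqK _ (by omega)) (by ring)
    · intro p q a y ha hy hpq
      split_ifs with hq
      · subst hq
        rw [rest_val hP he h0 hqK (by omega) le_rfl _ a hy, Nat.sub_self, pow_zero,
          Nat.choose_self, Nat.cast_one, one_smul, Module.End.one_apply, Module.End.mul_apply,
          Module.End.one_apply, LinearMap.sub_apply, Module.End.one_apply]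
      · exact rest_off hP hj hc hI he h0 hqK (by omega) _ _ ha hy hpq hq
  · refine htriv fun p a y ha hy hpq => ?_
    rw [hc.span_of_le hI (Or.inr (by omega)) a ha, sub_self, zero_tmul]

/-- Let `B(Z)` be known in the degrees `≤ z`, and `j ≤ z + 2`, `s = dim T - j - 1`. In the part
`(1 - lowPart) H^p(Z) ⊗ H^q(Y)` of `H^j(T)` one has `q ≤ 1`. If `p < dim Z`, one uses the left inverse
`θ` of `L^(dim Z - p - 1)` on `H^p(Z)` and the top coordinate `e q (dim Y - q)`: the operator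
`θ ⊗ e q (dim Y - q)` maps `L^s (a ⊗ y)` to `binomial(s, dim Y - q) a ⊗ y`. If `p = dim Z`, then
`L a = 0`, and one uses `1 ⊗ e q s`. If `p > dim Z`, then `a = 0`. -/
theorem exists_rest_left_inverse (hP : IsTen Z Y T τ) {z j : ℕ} (hj : j ≤ z + 2)
    (hjT : j < T.dim) (hc : IsStrings Z I c) (hI : ∀ i : ℕ, i ≤ z → i ≤ Z.dim → i ∈ I)
    (he : IsStrings Y K e) (hK : ∀ i : ℕ, i ≤ 1 → i ≤ Y.dim → i ∈ K)
    (hZ : ∀ p ≤ z + 2, AlmostIn Z p) :
    ∃ Θ ∈ T.corr (-(T.dim - j - 1 : ℕ)), ∀ (p q : ℤ) (a : Z.H) (y : Y.H), Z.π p a = a →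
      Y.π q y = y → p + q = j →
      Θ ((T.L ^ (T.dim - j - 1)) (τ (a ⊗ₜ y))) =
        if q ≤ 1 then τ ((a - lowPart Z I c a) ⊗ₜ y) else 0 := by
  obtain ⟨A, hA, hA'⟩ := rest_one hP hj hjT hc hI he hK hZ (q0 := 0) (by norm_num)
  obtain ⟨B, hB, hB'⟩ := rest_one hP hj hjT hc hI he hK hZ (q0 := 1) le_rfl
  refine ⟨A + B, (T.corr _).add_mem hA hB, fun p q a y ha hy hpq => ?_⟩
  rw [LinearMap.add_apply, hA' p q a y ha hy hpq, hB' p q a y ha hy hpq]
  rcases lt_or_ge q 0 with h | h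
  · rw [if_neg (by push_cast; omega), if_neg (by push_cast; omega), if_pos (by omega),
      Y.homog_zero (Or.inl h) hy, tmul_zero, map_zero, add_zero]
  · by_cases h1 : q = 0
    · rw [if_pos (by push_cast; omega), if_neg (by push_cast; omega), if_pos (by omega), add_zero]
    · by_cases h2 : q = 1
      · rw [if_neg (by push_cast; omega), if_pos (by push_cast; omega), if_pos (by omega), zero_add]
      · rw [if_neg (by push_cast; omega), if_neg (by push_cast; omega), if_neg (by omega),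
          add_zero]

end Pool.Agent.Helper47.PC
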