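import Pool.Agent.Helper47.PC.StrB
import Pool.Agent.Helper47.PC.Ten

/-!
# Left inverses on the product of the rest of `H(Z)` with `H(Y)`, if `dim Z ≤ z + 2` and `B(Y)` holds

Let `R = 1 - lowPart` on `H(Z)`. If `dim Z ≤ z + 2`, then `L² R = 0`, and `L R H^p(Z) = 0` for
`p ≥ dim Z`. Let `D t` be the operator of `H(Y)` which maps `L^k u`, `u` primitive, to `L^(k-t) u`
(`0` if `k < t`).
For `a` in `R H^p(Z)` and `u` primitive of degree `b` one has
`L^s (a ⊗ L^l u) = a ⊗ L^(l+s) u + s (L a) ⊗ L^(l+s-1) u`, hence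
`(R ⊗ D_s - s (L R) ⊗ D_(s+1)) L^s = 1` on `a ⊗ L^l u`, if `l + s ≤ dim Y - b`. If the degree of
`a ⊗ L^l u` is `j = dim T - s - 1`, then `s = dim Z - p + (dim Y - b) - 2 l - 1`, and `p ≥ dim Z - 1`.
-/

set_option linter.unusedSectionVars false

namespace Pool.Agent.Helper47.PC

open Pool.Agent.Helper29.CPB Pool.Agent.Helper47.PB TensorProduct

universe u v

variable {F : Type u} [Field F] [CharZero F] {Z Y T : Variety.{u, v} F}
  {τ : (Z.H ⊗[F] Y.H) ≃ₗ[F] T.H} {I K : Finset ℕ} {c : ℕ → ℕ → Module.End F Z.H}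
  {e : ℕ → ℕ → Module.End F Y.H}

/-- division by `L^t` -/
noncomputable def divL (Y : Variety.{u, v} F) (K : Finset ℕ) (e : ℕ → ℕ → Module.End F Y.H)
    (t : ℕ) : Module.End F Y.H :=
  ∑ b ∈ K, ∑ l ∈ Finset.range (Y.dim - b + 1),
    if l + t ≤ Y.dim - b then Y.L ^ l * e b (l + t) else 0

lemma divL_corr (he : IsStrings Y K e) (t : ℕ) : divL Y K e t ∈ Y.corr (-(t : ℤ)) := by
  unfold divL
  refine Y.corr_sum _ _ fun b hb => Y.corr_sum _ _ fun l _ => ?_
  split_ifs with h
  · refine Y.corr_mul' ?_ (Y.Lpow_corr l) (he.corr b hb (l + t) h)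
    push_cast
    ring
  · exact (Y.corr _).zero_mem

lemma divL_apply (he : IsStrings Y K e) (t k : ℕ) {b a : ℕ} (hb : b ∈ K) (ha : a ≤ Y.dim - b)
    (hk : k ≤ Y.dim - b) (y : Y.H) :
    divL Y K e t ((Y.L ^ k) (e b a y)) = if t ≤ k then (Y.L ^ (k - t)) (e b a y) else 0 := by
  unfold divL
  have key : ∀ b' ∈ K, ∀ l : ℕ, l + t ≤ Y.dim - b' → (e b' (l + t)) ((Y.L ^ k) (e b a y)) =
      if b' = b ∧ l + t = k then e b a y else 0 := by
    intro b' hb' l hl
    have h := congrArg (fun f => f y) (he.coord b' hb' b hb (l + t) hl k hk a ha)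
    simp only [Module.End.mul_apply] at h
    rw [h]
    split_ifs <;> rfl
  rw [LinearMap.sum_apply]
  have h1 : ∀ b' ∈ K, (∑ l ∈ Finset.range (Y.dim - b' + 1),
      (if l + t ≤ Y.dim - b' then Y.L ^ l * e b' (l + t) else 0)) ((Y.L ^ k) (e b a y)) =
      if b' = b then (if t ≤ k then (Y.L ^ (k - t)) (e b a y) else 0) else 0 := by
    intro b' hb'
    rw [LinearMap.sum_apply]
    have h2 : ∀ l ∈ Finset.range (Y.dim - b' + 1),
        (if l + t ≤ Y.dim - b' then Y.L ^ l * e b' (l + t) else 0) ((Y.L ^ k) (e b a y)) =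
        if b' = b ∧ l + t = k then (Y.L ^ l) (e b a y) else 0 := by
      intro l _
      by_cases hl : l + t ≤ Y.dim - b'
      · rw [if_pos hl, Module.End.mul_apply, key b' hb' l hl]
        split_ifs
        · rfl
        · exact map_zero _
      · rw [if_neg hl, if_neg]
        · rfl
        · rintro ⟨rfl, rfl⟩
          exact hl hk
    rw [Finset.sum_congr rfl h2]
    by_cases hbb : b' = b
    · subst hbb
      rw [if_pos rfl]
      by_cases htk : t ≤ k
      · rw [if_pos htk, Finset.sum_eq_single (k - t)]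
        · rw [if_pos ⟨rfl, by omega⟩]
        · intro l _ hl
          rw [if_neg]
          rintro ⟨-, h⟩
          omega
        · intro h
          exact absurd (Finset.mem_range.mpr (by omega)) h
      · rw [if_neg htk]
        refine Finset.sum_eq_zero fun l _ => ?_
        rw [if_neg]
        rintro ⟨-, h⟩
        omega
    · rw [if_neg hbb]
      refine Finset.sum_eq_zero fun l _ => ?_
      rw [if_neg]
      rintro ⟨h, -⟩
      exact hbb h
  rw [Finset.sum_congr rfl h1, Finset.sum_ite_eq' K b, if_pos hb]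

private lemma restB_zero {z : ℕ} (hc : IsStrings Z I c)
    (hI : ∀ i : ℕ, i ≤ z → i ≤ Z.dim → i ∈ I) {p : ℤ}
    (hp : p ≤ z ∨ 2 * (Z.dim : ℤ) - z ≤ p) {a : Z.H} (ha : Z.π p a = a) :
    (1 - lowPart Z I c) a = 0 := by
  rw [LinearMap.sub_apply, Module.End.one_apply, hc.span_of_le hI hp a ha, sub_self]

private lemma restB_comm (hc : IsStrings Z I c) (k : ℕ) (a : Z.H) :
    (1 - lowPart Z I c) ((Z.L ^ k) a) = (Z.L ^ k) ((1 - lowPart Z I c) a) := by
  have h := congrArg (fun f => f a) (hc.lowPart_Lpow k)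
  simp only [Module.End.mul_apply] at h
  rw [LinearMap.sub_apply, Module.End.one_apply, h, LinearMap.sub_apply, Module.End.one_apply,
    map_sub]

private lemma restB_sq {z : ℕ} (hd : Z.dim ≤ z + 2) (hc : IsStrings Z I c)
    (hI : ∀ i : ℕ, i ≤ z → i ≤ Z.dim → i ∈ I) {p : ℤ} {a : Z.H} (ha : Z.π p a = a) {k : ℕ}
    (hk : 2 ≤ k) : (Z.L ^ k) ((1 - lowPart Z I c) a) = 0 := by
  by_cases hp : p ≤ z
  · rw [restB_zero hc hI (Or.inl hp) ha, map_zero]
  · have h2 : (Z.L ^ 2) ((1 - lowPart Z I c) a) = 0 := by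
      rw [← restB_comm hc]
      exact restB_zero hc hI (p := p + 2 * ((2 : ℕ) : ℤ)) (Or.inr (by push_cast; omega))
        (Z.corr_homog (Z.Lpow_corr 2) rfl ha)
    obtain ⟨m, rfl⟩ := Nat.exists_eq_add_of_le hk
    rw [add_comm 2 m, pow_add, Module.End.mul_apply, h2, map_zero]

/-- the operator of the theorem -/
private noncomputable def restTh (τ : (Z.H ⊗[F] Y.H) ≃ₗ[F] T.H) (I K : Finset ℕ)
    (c : ℕ → ℕ → Module.End F Z.H) (e : ℕ → ℕ → Module.End F Y.H) (s : ℕ) :
    Module.End F T.H :=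
  ext τ (1 - lowPart Z I c) (divL Y K e s) -
    (s : F) • ext τ (Z.L * (1 - lowPart Z I c)) (divL Y K e (s + 1))

private lemma restTh_corr (hP : IsTen Z Y T τ) (hc : IsStrings Z I c) (he : IsStrings Y K e)
    (s : ℕ) : restTh τ I K c e s ∈ T.corr (-s) := by
  have hR : (1 - lowPart Z I c) ∈ Z.corr 0 := (Z.corr 0).sub_mem Z.corr_one hc.lowPart_corr
  unfold restTh
  refine (T.corr _).sub_mem (hP.ext_corr hR (divL_corr he s) (by ring)) ?_
  have h1 : ext τ (Z.L * (1 - lowPart Z I c)) (divL Y K e (s + 1)) ∈ T.corr (-s) :=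
    hP.ext_corr (Z.corr_mul' (show (1 : ℤ) = 1 + 0 by ring) Z.L_corr hR) (divL_corr he (s + 1))
      (by push_cast; ring)
  have h2 := T.corr_smul (s : ℚ) _ _ h1
  rwa [Rat.cast_natCast] at h2

private lemma restTh_apply {z : ℕ} (hP : IsTen Z Y T τ) (hd : Z.dim ≤ z + 2)
    (hc : IsStrings Z I c) (hI : ∀ i : ℕ, i ≤ z → i ≤ Z.dim → i ∈ I)
    (he : IsStrings Y K e) (s : ℕ) {p : ℤ} {a : Z.H} (ha : Z.π p a = a) {b l : ℕ} (hb : b ∈ K)
    (hl : l ≤ Y.dim - b) (hdeg : p + (b + 2 * l) + s + 1 = T.dim) (y : Y.H) :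
    restTh τ I K c e s ((T.L ^ s) (τ (a ⊗ₜ ((Y.L ^ l) (e b l y))))) =
      τ (((1 - lowPart Z I c) a) ⊗ₜ ((Y.L ^ l) (e b l y))) := by
  have hbY := he.le b hb
  have hT := hP.dim
  by_cases hp : (p ≤ z ∨ 2 * (Z.dim : ℤ) - z ≤ p)
  · have h0 := restB_zero hc hI hp ha
    have h1 : ∀ k : ℕ, (1 - lowPart Z I c) ((Z.L ^ k) a) = 0 := by
      intro k
      rw [restB_comm hc, h0, map_zero]
    rw [h0, TensorProduct.zero_tmul, map_zero, hP.Lpow_apply, map_sum]
    refine Finset.sum_eq_zero fun q _ => ?_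
    rw [map_smul, restTh, LinearMap.sub_apply, LinearMap.smul_apply, ext_apply, ext_apply,
      Module.End.mul_apply, h1, map_zero, TensorProduct.zero_tmul, TensorProduct.zero_tmul,
      map_zero, smul_zero, sub_zero, smul_zero]
  · have hsl : s + l ≤ Y.dim - b := by omega
    rcases Nat.eq_zero_or_pos s with hs | hs
    · subst hs
      rw [pow_zero, Module.End.one_apply, restTh, LinearMap.sub_apply, LinearMap.smul_apply,
        ext_apply, divL_apply he 0 l hb hl hl, if_pos (Nat.zero_le _), Nat.sub_zero,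
        Nat.cast_zero, zero_smul, sub_zero]
    · obtain ⟨s, rfl⟩ : ∃ s', s = s' + 1 := ⟨s - 1, by omega⟩
      have hterm : ∀ q : ℕ, restTh τ I K c e (s + 1)
          (τ (((Z.L ^ (s + 1 - q)) a) ⊗ₜ ((Y.L ^ q) ((Y.L ^ l) (e b l y))))) =
          τ (((Z.L ^ (s + 1 - q)) ((1 - lowPart Z I c) a)) ⊗ₜ
            (divL Y K e (s + 1) ((Y.L ^ (q + l)) (e b l y)))) -
          ((s + 1 : ℕ) : F) • τ (((Z.L ^ (s + 1 - q + 1)) ((1 - lowPart Z I c) a)) ⊗ₜ
            (divL Y K e (s + 1 + 1) ((Y.L ^ (q + l)) (e b l y)))) := by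
        intro q
        rw [restTh, LinearMap.sub_apply, LinearMap.smul_apply, ext_apply, ext_apply,
          Module.End.mul_apply, restB_comm hc, ← Module.End.mul_apply (Y.L ^ q), ← pow_add,
          ← Module.End.mul_apply Z.L, ← pow_succ']
      have hsq : ∀ k : ℕ, 2 ≤ k → (Z.L ^ k) ((1 - lowPart Z I c) a) = 0 :=
        fun k hk => restB_sq hd hc hI ha hk
      have h1 : ∀ q ∈ Finset.range s, restTh τ I K c e (s + 1)
          (((s + 1).choose q : F) • τ (((Z.L ^ (s + 1 - q)) a) ⊗ₜ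
            ((Y.L ^ q) ((Y.L ^ l) (e b l y))))) = 0 := by
        intro q hq
        have hq' := Finset.mem_range.mp hq
        rw [map_smul, hterm, hsq _ (by omega), hsq _ (by omega), TensorProduct.zero_tmul,
          TensorProduct.zero_tmul, map_zero, smul_zero, sub_zero, smul_zero]
      rw [hP.Lpow_apply, map_sum, Finset.sum_range_succ, Finset.sum_range_succ,
        Finset.sum_eq_zero h1, zero_add, map_smul, map_smul, hterm, hterm]
      have e1 : s + 1 - s = 1 := by omega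
      have e2 : s + 1 - (s + 1) = 0 := by omega
      rw [e1, e2, hsq (1 + 1) (by omega), TensorProduct.zero_tmul, map_zero, smul_zero, sub_zero,
        Nat.choose_self, Nat.cast_one, one_smul, Nat.choose_succ_self_right, pow_zero,
        Module.End.one_apply, divL_apply he (s + 1) (s + l) hb hl (by omega),
        divL_apply he (s + 1) (s + 1 + l) hb hl (by omega),
        divL_apply he (s + 1 + 1) (s + 1 + l) hb hl (by omega)]
      rw [if_pos (show s + 1 ≤ s + 1 + l by omega), show s + 1 + l - (s + 1) = l by omega]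
      by_cases hl0 : 1 ≤ l
      · rw [if_pos (show s + 1 ≤ s + l by omega), if_pos (show s + 1 + 1 ≤ s + 1 + l by omega),
          show s + l - (s + 1) = l - 1 by omega, show s + 1 + l - (s + 1 + 1) = l - 1 by omega,
          zero_add]
        abel
      · rw [if_neg (show ¬ (s + 1 ≤ s + l) by omega),
          if_neg (show ¬ (s + 1 + 1 ≤ s + 1 + l) by omega)]
        simp only [TensorProduct.tmul_zero, map_zero, smul_zero, sub_zero, zero_add]

theorem exists_rest_left_inverse_B (hP : IsTen Z Y T τ) {z : ℕ} (hd : Z.dim ≤ z + 2)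
    (hc : IsStrings Z I c) (hI : ∀ i : ℕ, i ≤ z → i ≤ Z.dim → i ∈ I)
    (he : IsStrings Y K e) (hK : ∀ i : ℕ, i ≤ Y.dim → i ∈ K) (s : ℕ) :
    ∃ Θ ∈ T.corr (-s), ∀ (p q : ℤ) (a : Z.H) (y : Y.H), Z.π p a = a → Y.π q y = y →
      p + q + s + 1 = T.dim →
      Θ ((T.L ^ s) (τ (a ⊗ₜ y))) = τ ((a - lowPart Z I c a) ⊗ₜ y) := by
  refine ⟨restTh τ I K c e s, restTh_corr hP hc he s, ?_⟩
  intro p q a y ha hy hpq
  have hy1 : y = ∑ b ∈ K, ∑ l ∈ Finset.range (Y.dim - b + 1), (Y.L ^ l) (e b l y) := by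
    have h := congrArg (fun f => f y) (he.span_all hK)
    simp only [lowPart, block, LinearMap.sum_apply, Module.End.mul_apply,
      Module.End.one_apply] at h
    exact h.symm
  have hR : a - lowPart Z I c a = (1 - lowPart Z I c) a := by
    rw [LinearMap.sub_apply, Module.End.one_apply]
  rw [hR]
  have key : ∀ b ∈ K, ∀ l ∈ Finset.range (Y.dim - b + 1),
      restTh τ I K c e s ((T.L ^ s) (τ (a ⊗ₜ ((Y.L ^ l) (e b l y))))) =
      τ (((1 - lowPart Z I c) a) ⊗ₜ ((Y.L ^ l) (e b l y))) := by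
    intro b hb l hl
    have hl' : l ≤ Y.dim - b := by
      have := Finset.mem_range.mp hl
      omega
    by_cases hq : q = b + 2 * l
    · exact restTh_apply hP hd hc hI he s ha hb hl' (by rw [← hq]; exact hpq) y
    · have h1 : Y.π (q - 2 * l) (e b l y) = e b l y :=
        Y.corr_homog (he.corr b hb l hl') (by ring) hy
      have h2 := he.deg b hb l hl' y
      have h3 : e b l y = 0 := by
        rw [← h1]
        exact Y.π_apply_ne (by omega) h2
      rw [h3, map_zero, TensorProduct.tmul_zero, TensorProduct.tmul_zero, map_zero, map_zero,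
        map_zero]
  calc restTh τ I K c e s ((T.L ^ s) (τ (a ⊗ₜ y)))
      = restTh τ I K c e s ((T.L ^ s) (τ (a ⊗ₜ
          (∑ b ∈ K, ∑ l ∈ Finset.range (Y.dim - b + 1), (Y.L ^ l) (e b l y))))) := by
        rw [← hy1]
    _ = ∑ b ∈ K, ∑ l ∈ Finset.range (Y.dim - b + 1),
          restTh τ I K c e s ((T.L ^ s) (τ (a ⊗ₜ ((Y.L ^ l) (e b l y))))) := by
        simp only [TensorProduct.tmul_sum, map_sum]
    _ = ∑ b ∈ K, ∑ l ∈ Finset.range (Y.dim - b + 1),
          τ (((1 - lowPart Z I c) a) ⊗ₜ ((Y.L ^ l) (e b l y))) :=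
        Finset.sum_congr rfl fun b hb => Finset.sum_congr rfl fun l hl => key b hb l hl
    _ = τ (((1 - lowPart Z I c) a) ⊗ₜ
          (∑ b ∈ K, ∑ l ∈ Finset.range (Y.dim - b + 1), (Y.L ^ l) (e b l y))) := by
        simp only [TensorProduct.tmul_sum, map_sum]
    _ = τ (((1 - lowPart Z I c) a) ⊗ₜ y) := by rw [← hy1]

end Pool.Agent.Helper47.PC
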