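import Pool.Agent.Helper47.PC.StrLeft
import Pool.Agent.Helper47.PC.Descend

/-!
# From left inverses on `H(Z × Y)` to left inverses on `H(Z)`, through a string of `H(Y)`

Plan. `m = dim Y - b`, `A = c b 0 ∈ Y.corr 0` (the projector to the primitive classes of degree `b`;
`A * A = A` by `he.coord`, `A ≠ 0`). Let `f` be the polynomial of `pade_exists m s k` (monic of degree
`k`, `(1 + X)^s f` has no terms of degree `m - k + 1, …, m`), `g_l = ((1 + X)^s * f).coeff l`.
For `x ∈ H^i(Z)`, `y ∈ im A` put `t = ∑_(l ≤ k) f_l L^(k-l) x ⊗ L^l y ∈ H^(i+b+2k)(T)`. As `L^(m+1) y = 0`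
(`he.top`), `L_T^s t = ∑_(l ≤ m) g_l L^(s+k-l) x ⊗ L^l y = Ψ (L^E x ⊗ y)`, `E = 2k + s - m`,
`Ψ = ∑_(l ≤ m-k) g_l • ext τ (L^(m-k-l)) (L^l) ∈ T.corr (m - k)` (`s + k - l = (m - k - l) + E`).
Let `θ` be the left inverse of `L^s` on `H^(i+b+2k)(T)`: `θ Ψ (L^E x ⊗ y) = t`, and
`ext τ 1 (c b k) t = x ⊗ y` (`c b k (L^l y) = 0` for `l ≠ k`, `y` for `l = k`, `f_k = 1`; `he.coord_apply`).
So `γ = ext τ 1 (c b k) * (θ * (Ψ * ext τ 1 A)) ∈ T.corr (-E)` maps `L^E x ⊗ y` to `x ⊗ A y` for all `y`.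
Now contract with `Y` as in `Descend.lean` (with `A` in place of `π 0`; `A * Y.sgn = (-1)^b • A`, the trace
of the idempotent `A ≠ 0` is a natural number `≠ 0`).
-/

set_option linter.unusedSectionVars false

namespace Pool.Agent.Helper47.PC

open Pool.Agent.Helper29.CPB Pool.Agent.Helper47.PB TensorProduct Polynomial

universe u v

variable {F : Type u} [Field F] [CharZero F] {Z Y T : Variety.{u, v} F}
  {τ : (Z.H ⊗[F] Y.H) ≃ₗ[F] T.H} {K : Finset ℕ} {c : ℕ → ℕ → Module.End F Y.H}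

/-- products of polynomials and double sums -/
private lemma strC_sum {M : Type*} [AddCommGroup M] [Module F M] (G : ℕ → M) (f g : ℚ[X]) :
    (g * f).sum (fun n a => ((a : ℚ) : F) • G n) =
      f.sum (fun l b => ((b : ℚ) : F) • g.sum (fun q a => ((a : ℚ) : F) • G (q + l))) := by
  have h0 : ∀ (n : ℕ) (H : ℕ → M), (((0 : ℚ) : F)) • H n = 0 := by
    intro n H
    rw [Rat.cast_zero, zero_smul]
  have ha : ∀ (n : ℕ) (a b : ℚ) (H : ℕ → M),
      (((a + b : ℚ) : F)) • H n = ((a : ℚ) : F) • H n + ((b : ℚ) : F) • H n := by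
    intro n a b H
    rw [Rat.cast_add, add_smul]
  induction f using Polynomial.induction_on' with
  | add p q hp hq =>
    rw [mul_add, Polynomial.sum_add_index _ _ _ (fun n => h0 n G) (fun n a b => ha n a b G),
      Polynomial.sum_add_index _ _ _ (fun n => h0 n fun l => g.sum (fun q a => ((a : ℚ) : F) •
        G (q + l))) (fun n a b => ha n a b fun l => g.sum (fun q a => ((a : ℚ) : F) •
        G (q + l))), hp, hq]
  | monomial l b =>
    rw [Polynomial.sum_monomial_index b _ (h0 l fun l => g.sum (fun q a => ((a : ℚ) : F) •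
        G (q + l)))]
    induction g using Polynomial.induction_on' with
    | add p q hp hq =>
      rw [add_mul, Polynomial.sum_add_index _ _ _ (fun n => h0 n G) (fun n a b => ha n a b G),
        Polynomial.sum_add_index _ _ _ (fun n => h0 n fun q => G (q + l))
          (fun n a b => ha n a b fun q => G (q + l)), hp, hq, smul_add]
    | monomial q a =>
      rw [Polynomial.monomial_mul_monomial, Polynomial.sum_monomial_index _ _ (h0 (q + l) G),
        Polynomial.sum_monomial_index _ _ (h0 q fun q => G (q + l)), smul_smul, Rat.cast_mul,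
        mul_comm]

private lemma strC_range {M : Type*} [AddCommGroup M] [Module F M] (G : ℕ → M) (f : ℚ[X]) (N : ℕ)
    (h : f.natDegree < N) : f.sum (fun n a => ((a : ℚ) : F) • G n) =
      ∑ r ∈ Finset.range N, ((f.coeff r : ℚ) : F) • G r := by
  refine Polynomial.sum_over_range' f ?_ N h
  intro n
  rw [Rat.cast_zero, zero_smul]

/-- `L_T^s` of the Pade element -/
private lemma strC_pow (hP : IsTen Z Y T τ) {m k s : ℕ} (hk : k ≤ m) (hks : m < k + s) {f : ℚ[X]}
    (hf : f.natDegree = k)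
    (hf0 : ∀ j, m < j + k → j ≤ m → ((1 + X) ^ s * f).coeff j = 0) (x : Z.H) {u : Y.H}
    (hu : (Y.L ^ (m + 1)) u = 0) :
    (T.L ^ s) (∑ l ∈ Finset.range (k + 1), ((f.coeff l : ℚ) : F) •
      τ ((Z.L ^ (k - l)) x ⊗ₜ (Y.L ^ l) u)) =
      (∑ r ∈ Finset.range (m - k + 1), ((((1 + X) ^ s * f).coeff r : ℚ) : F) •
        ext τ (Z.L ^ (m - k - r)) (Y.L ^ r)) (τ (((Z.L ^ (2 * k + s - m)) x) ⊗ₜ u)) := by
  set G : ℕ → T.H := fun r => τ ((Z.L ^ (s + k - r)) x ⊗ₜ (Y.L ^ r) u) with hG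
  have hd1 : ((1 + X) ^ s : ℚ[X]).natDegree < s + 1 := by
    refine Nat.lt_succ_of_le ((Polynomial.natDegree_pow_le).trans ?_)
    have h1 : (1 + X : ℚ[X]).natDegree ≤ 1 := by
      rw [add_comm]
      exact (Polynomial.natDegree_X_add_C (1 : ℚ)).le
    calc s * (1 + X : ℚ[X]).natDegree ≤ s * 1 := Nat.mul_le_mul_left s h1
      _ = s := mul_one s
  have hd2 : ((1 + X) ^ s * f : ℚ[X]).natDegree < s + k + 1 := by
    refine Nat.lt_succ_of_le ((Polynomial.natDegree_mul_le).trans ?_)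
    omega
  have e1 : (T.L ^ s) (∑ l ∈ Finset.range (k + 1), ((f.coeff l : ℚ) : F) •
      τ ((Z.L ^ (k - l)) x ⊗ₜ (Y.L ^ l) u)) =
      ∑ r ∈ Finset.range (s + k + 1), ((((1 + X) ^ s * f).coeff r : ℚ) : F) • G r := by
    rw [← strC_range G _ _ hd2, strC_sum, strC_range (F := F) (fun l =>
      ((1 + X) ^ s : ℚ[X]).sum (fun q a => ((a : ℚ) : F) • G (q + l))) f (k + 1) (by omega),
      map_sum]
    refine Finset.sum_congr rfl fun l hl => ?_
    have hl' : l ≤ k := by
      have := Finset.mem_range.mp hl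
      omega
    rw [map_smul, hP.Lpow_apply, strC_range (F := F) (fun q => G (q + l)) _ _ hd1]
    congr 1
    refine Finset.sum_congr rfl fun q hq => ?_
    have hq' : q ≤ s := by
      have := Finset.mem_range.mp hq
      omega
    rw [Polynomial.coeff_one_add_X_pow, Rat.cast_natCast]
    simp only [hG]
    rw [← Module.End.mul_apply (Z.L ^ (s - q)), ← pow_add, ← Module.End.mul_apply (Y.L ^ q),
      ← pow_add, show s - q + (k - l) = s + k - (q + l) by omega]
  rw [e1, LinearMap.sum_apply]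
  have hsub : Finset.range (m - k + 1) ⊆ Finset.range (s + k + 1) :=
    Finset.range_subset_range.mpr (by omega)
  rw [← Finset.sum_subset hsub]
  · refine Finset.sum_congr rfl fun r hr => ?_
    have hr' := Finset.mem_range.mp hr
    rw [LinearMap.smul_apply, ext_apply, ← Module.End.mul_apply (Z.L ^ (m - k - r)), ← pow_add,
      show m - k - r + (2 * k + s - m) = s + k - r by omega]
  · intro r _ hr
    have hr' : m - k < r := by
      rw [Finset.mem_range] at hr
      omega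
    rcases le_or_gt r m with h1 | h1
    · rw [hf0 r (by omega) h1, Rat.cast_zero, zero_smul]
    · have h2 : (Y.L ^ r) u = 0 := by
        obtain ⟨a, rfl⟩ : ∃ a, r = a + (m + 1) := ⟨r - (m + 1), by omega⟩
        rw [pow_add, Module.End.mul_apply, hu, map_zero]
      simp only [hG]
      rw [h2, tmul_zero, map_zero, smul_zero]

private lemma strC_sgn {b : ℕ} {A : Module.End F Y.H} (hA : A ∈ Y.corr 0)
    (hAb : ∀ y, Y.π b (A y) = A y) : A * Y.sgn = ((-1 : F) ^ b) • A := by
  apply Y.ext_homog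
  intro q y hy
  rw [Module.End.mul_apply, Y.sgn_apply hy, map_smul, LinearMap.smul_apply]
  by_cases hq : q = b
  · subst hq
    rw [Int.natAbs_natCast]
  · have h1 : Y.π q (A y) = A y := Y.corr_homog hA (by ring) hy
    have h2 : A y = 0 := by
      rw [← hAb y]
      exact Y.π_apply_ne (Ne.symm hq) h1
    rw [h2, smul_zero, smul_zero]

private lemma strC_trace {A : Module.End F Y.H} (hid : IsIdempotentElem A) (hY : A ≠ 0) :
    ∃ n : ℕ, n ≠ 0 ∧ LinearMap.trace F Y.H A = (n : F) := by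
  have h1 := (LinearMap.IsIdempotentElem.isProj_range _ hid).trace
  refine ⟨_, ?_, h1⟩
  intro h
  apply hY
  refine LinearMap.IsIdempotentElem.eq_zero_of_trace_eq_zero hid ?_
  rw [h1, h, Nat.cast_zero]

theorem leftInverseIn_of_string (hP : IsProd Z Y T τ) (he : IsStrings Y K c) {b : ℕ}
    (hb : b ∈ K) (hn : c b 0 ≠ 0) {k s i : ℕ} (hk : k ≤ Y.dim - b) (hks : Y.dim - b < k + s)
    (h : LeftInverseIn T s (i + b + 2 * k)) : LeftInverseIn Z (2 * k + s - (Y.dim - b)) i := by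
  have hPT : IsTen Z Y T τ := isTen_of_isProd hP
  obtain ⟨θ, hθ, hθL⟩ := h
  have hθ' : θ ∈ T.corr (-((s : ℕ) : ℤ)) := hθ
  obtain ⟨f, hfm, hfd, hf0, -⟩ := pade_exists (Y.dim - b) s k hk (by omega)
  have hA : c b 0 ∈ Y.corr 0 := by
    have h1 := he.corr b hb 0 (Nat.zero_le _)
    rwa [Nat.cast_zero, neg_zero] at h1
  have hAb : ∀ y, Y.π b (c b 0 y) = c b 0 y := he.deg b hb 0 (Nat.zero_le _)
  have hAA : c b 0 * c b 0 = c b 0 := by
    have h1 := he.coord b hb b hb 0 (Nat.zero_le _) 0 (Nat.zero_le _) 0 (Nat.zero_le _)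
    rwa [pow_zero, mul_one, if_pos ⟨rfl, rfl⟩] at h1
  set Ψ : Module.End F T.H := ∑ r ∈ Finset.range (Y.dim - b - k + 1),
    ((((1 + X) ^ s * f).coeff r : ℚ) : F) • ext τ (Z.L ^ (Y.dim - b - k - r)) (Y.L ^ r) with hΨ
  have hΨc : Ψ ∈ T.corr ((Y.dim - b - k : ℕ) : ℤ) := by
    refine T.corr_sum _ _ fun q hq => ?_
    have hq' := Finset.mem_range.mp hq
    exact T.corr_smul _ _ _ (hPT.ext_corr (Z.Lpow_corr (Y.dim - b - k - q)) (Y.Lpow_corr q)
      (by omega))
  have hck : c b k ∈ Y.corr (-(k : ℤ)) := he.corr b hb k hk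
  set γ' : Module.End F T.H := ext τ 1 (c b k) * (θ * (Ψ * ext τ 1 (c b 0))) with hγ'
  have hγc : γ' ∈ T.corr (-((2 * k + s - (Y.dim - b) : ℕ) : ℤ)) := by
    refine T.corr_mul' (r := -(k : ℤ)) (s := -(s : ℤ) + ((Y.dim - b - k : ℕ) : ℤ)) (by omega)
      (hPT.ext_corr Z.corr_one hck (by ring))
      (T.corr_mul' (r := -(s : ℤ)) (s := ((Y.dim - b - k : ℕ) : ℤ)) (by ring) hθ'
      (T.corr_mul' (r := ((Y.dim - b - k : ℕ) : ℤ)) (s := 0) (by ring) hΨc
        (hPT.ext_corr Z.corr_one hA (by ring))))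
  have hγ : ∀ (x : Z.H) (y : Y.H), Z.π i x = x →
      γ' (τ (((Z.L ^ (2 * k + s - (Y.dim - b))) x) ⊗ₜ y)) = τ (x ⊗ₜ (c b 0 y)) := by
    intro x y hx
    have hu0 : (Y.L ^ (Y.dim - b + 1)) (c b 0 y) = 0 := by
      have h1 := congrArg (fun g => g y) (he.top b hb 0 (Nat.zero_le _))
      simpa only [Module.End.mul_apply, LinearMap.zero_apply] using h1
    have hpow := strC_pow hPT hk hks hfd hf0 x hu0
    set t : T.H := ∑ l ∈ Finset.range (k + 1), ((f.coeff l : ℚ) : F) •
      τ ((Z.L ^ (k - l)) x ⊗ₜ (Y.L ^ l) (c b 0 y)) with ht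
    have htd : T.π ((i + b + 2 * k : ℕ) : ℤ) t = t := by
      rw [ht, map_sum]
      refine Finset.sum_congr rfl fun l hl => ?_
      have hl' := Finset.mem_range.mp hl
      rw [map_smul]
      congr 1
      have h1 := hP.grade (i + 2 * ((k - l : ℕ) : ℤ)) (b + 2 * (l : ℤ)) ((Z.L ^ (k - l)) x)
        ((Y.L ^ l) (c b 0 y)) (Z.corr_homog (Z.Lpow_corr (k - l)) rfl hx)
        (Y.corr_homog (Y.Lpow_corr l) rfl (hAb y))
      rwa [show (i : ℤ) + 2 * ((k - l : ℕ) : ℤ) + (b + 2 * (l : ℤ)) =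
        ((i + b + 2 * k : ℕ) : ℤ) by omega] at h1
    rw [hγ', Module.End.mul_apply, Module.End.mul_apply, Module.End.mul_apply, ext_apply,
      Module.End.one_apply, hΨ, ← hpow, hθL t htd, ht, map_sum, Finset.sum_eq_single k]
    · rw [map_smul, ext_apply, Module.End.one_apply, Nat.sub_self, pow_zero, Module.End.one_apply,
        he.coord_apply hb hb hk (Nat.zero_le _) y, if_pos ⟨rfl, rfl⟩]
      have h1 : f.coeff k = 1 := by
        rw [← hfd]
        exact hfm
      rw [h1, Rat.cast_one, one_smul]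
    · intro l _ hlk
      rw [map_smul, ext_apply, he.coord_apply hb hb hk (Nat.zero_le _) y,
        if_neg (fun h => hlk h.2.symm), tmul_zero, map_zero, smul_zero]
    · intro h1
      exact absurd (Finset.mem_range.mpr (Nat.lt_succ_self k)) h1
  set γ : Module.End F (Z.H ⊗[F] Y.H) := τ.symm.conj γ' with hγdef
  have hconj : τ.conj γ = γ' := by
    apply LinearMap.ext
    intro b
    rw [LinearEquiv.conj_apply_apply, hγdef, LinearEquiv.conj_apply_apply]
    simp
  have hθ1 : ptr (γ * TensorProduct.map 1 Y.sgn) ∈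
      Z.corr (-((2 * k + s - (Y.dim - b) : ℕ) : ℤ)) := by
    apply hP.contr
    rw [hconj]
    exact hγc
  obtain ⟨n, hn0, hntr⟩ := strC_trace hAA hn
  have hkey : ptr (γ * TensorProduct.map 1 Y.sgn) *
      (Z.L ^ (2 * k + s - (Y.dim - b)) * Z.π i) = ((-1 : F) ^ b * (n : F)) • Z.π i := by
    have h1 := ptr_mul (1 : Module.End F Z.H) (Z.L ^ (2 * k + s - (Y.dim - b)) * Z.π i)
      (γ * TensorProduct.map 1 Y.sgn)
    rw [TensorProduct.map_one, one_mul, one_mul] at h1
    rw [← h1]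
    have h2 : γ * TensorProduct.map 1 Y.sgn *
        TensorProduct.map (Z.L ^ (2 * k + s - (Y.dim - b)) * Z.π i) 1 =
        TensorProduct.map (Z.π i) (((-1 : F) ^ b) • c b 0) := by
      rw [← strC_sgn hA hAb]
      apply TensorProduct.ext'
      intro a y
      rw [Module.End.mul_apply, Module.End.mul_apply, TensorProduct.map_tmul,
        TensorProduct.map_tmul, TensorProduct.map_tmul, Module.End.one_apply,
        Module.End.one_apply, Module.End.mul_apply]
      have h3 := hγ (Z.π i a) (Y.sgn y) (Z.π_apply_idem i a)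
      rw [hγdef, LinearEquiv.conj_apply_apply, LinearEquiv.symm_symm, h3,
        LinearEquiv.symm_apply_apply, Module.End.mul_apply]
    rw [h2, ptr_map, map_smul, hntr, smul_eq_mul]
  have hnF : (-1 : F) ^ b * (n : F) ≠ 0 :=
    mul_ne_zero (pow_ne_zero _ (neg_ne_zero.mpr one_ne_zero)) (Nat.cast_ne_zero.mpr hn0)
  refine ⟨((1 / ((-1 : ℚ) ^ b * n) : ℚ) : F) • ptr (γ * TensorProduct.map 1 Y.sgn),
    Z.corr_smul _ _ _ hθ1, ?_⟩
  intro x hx
  have h4 := congrArg (fun f : Module.End F Z.H => f x) hkey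
  simp only [Module.End.mul_apply, LinearMap.smul_apply] at h4
  rw [hx] at h4
  rw [LinearMap.smul_apply, h4, smul_smul]
  push_cast
  rw [one_div, inv_mul_cancel₀ hnF, one_smul]

end Pool.Agent.Helper47.PC
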