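import Pool.Agent.Helper47.PC.StrG
import Pool.Agent.Helper47.PC.StrC
import Pool.Agent.Helper47.PC.Final

/-!
# A single complete intersection in `Z × Y`, when `B(Y)` holds
-/

set_option linter.unusedSectionVars false

namespace Pool.Agent.Helper47.PC

open Pool.Agent.Helper29.CPB Pool.Agent.Helper47.PB TensorProduct

universe u v

variable {F : Type u} [Field F] [CharZero F] {Z Y T S : Variety.{u, v} F}
  {τ : (Z.H ⊗[F] Y.H) ≃ₗ[F] T.H} {c : ℕ → ℕ → Module.End F Y.H}

lemma exists_strings_all (hY : Y.Lefschetz) :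
    ∃ c, IsStrings Y (Finset.range (Y.dim + 1)) c := by
  refine exists_strings Y _ (fun i hi => ?_) (fun i hi _ => ?_)
    (fun i _ => kunneth_of_lefschetz Y hY i) fun i _ hi => hY i hi
  · have := Finset.mem_range.mp hi
    omega
  · have := Finset.mem_range.mp hi
    rw [Finset.mem_range]
    omega

lemma coord_ne_iff (he : IsStrings Y (Finset.range (Y.dim + 1)) c) {b : ℕ} (hb : b ≤ Y.dim) :
    c b 0 ≠ 0 ↔ HasPrimitive Y (Y.dim - b) := by
  have hbK : b ∈ Finset.range (Y.dim + 1) := by
    rw [Finset.mem_range]; omega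
  have hbm : ((Y.dim : ℤ) - (Y.dim - b : ℕ)) = b := by omega
  constructor
  · intro h
    obtain ⟨y, hy⟩ : ∃ y, c b 0 y ≠ 0 := by
      by_contra hcon
      push Not at hcon
      exact h (LinearMap.ext hcon)
    refine ⟨c b 0 y, hy, ?_, ?_⟩
    · rw [hbm]
      exact he.deg b hbK 0 (Nat.zero_le _) y
    · exact congrArg (fun g => g y) (he.top b hbK 0 (Nat.zero_le _))
  · rintro ⟨y, hy0, hy, hyp⟩ h0
    rw [hbm] at hy
    apply hy0
    have h1 : lowPart Y (Finset.range (Y.dim + 1)) c y = y := he.span b hbK y hy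
    rw [← h1]
    unfold lowPart block
    rw [LinearMap.sum_apply]
    refine Finset.sum_eq_zero fun i' hi' => ?_
    rw [LinearMap.sum_apply]
    refine Finset.sum_eq_zero fun a ha => ?_
    have ha' : a ≤ Y.dim - i' := by
      have := Finset.mem_range.mp ha
      omega
    have hi'' : i' ≤ Y.dim := he.le i' hi'
    rw [Module.End.mul_apply]
    have h2 : c i' a y = 0 := by
      by_cases hdeg : (i' : ℤ) = b - 2 * a
      · rcases Nat.eq_zero_or_pos a with rfl | hpos
        · have h3 : i' = b := by omega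
          rw [h3, h0, LinearMap.zero_apply]
        · have h3 := coord_Lpow he hi' (l := a + (Y.dim - b + 1)) (by omega) (Y.dim - b + 1)
          rw [if_pos (by omega), Nat.add_sub_cancel] at h3
          rw [← h3, Module.End.mul_apply, hyp, map_zero]
      · have h3 := he.deg i' hi' a ha' y
        have h4 : Y.π (b - 2 * a) (c i' a y) = c i' a y :=
          Y.corr_homog (he.corr i' hi' a ha') (by ring) hy
        rw [← h3]
        exact Y.π_apply_ne hdeg h4
    rw [h2, map_zero]

/-- left inverses on `H(Z × Y)` from left inverses on `H(Z)` -/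
theorem leftInverseIn_prod_of (hP : IsTen Z Y T τ) (hY : Y.Lefschetz) (s j : ℕ)
    (h : ∀ b ≤ Y.dim, HasPrimitive Y (Y.dim - b) → ∀ k ≤ Y.dim - b, Y.dim - b < k + s →
      ∀ i, i + b + 2 * k = j → LeftInverseIn Z (2 * k + s - (Y.dim - b)) i) :
    LeftInverseIn T s j := by
  obtain ⟨c, he⟩ := exists_strings_all hY
  have hmem : ∀ b, b ∈ Finset.range (Y.dim + 1) ↔ b ≤ Y.dim := fun b => by
    rw [Finset.mem_range, Nat.lt_succ_iff]
  have h1 : ∀ b ∈ Finset.range (Y.dim + 1), ∃ Θ ∈ T.corr (-s), ∀ (p q : ℤ) (a : Z.H) (y : Y.H),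
      Z.π p a = a → Y.π q y = y → p + q = j →
      Θ ((T.L ^ s) (τ (a ⊗ₜ y))) = τ (a ⊗ₜ (block Y c b y)) := by
    intro b hb
    have hb' := (hmem b).mp hb
    by_cases hp : HasPrimitive Y (Y.dim - b)
    · exact exists_string_left_inverse_gen hP he hb s j (h b hb' hp)
    · refine ⟨0, (T.corr _).zero_mem, fun p q a y _ _ _ => ?_⟩
      have h0 : c b 0 = 0 := by
        by_contra hne
        exact hp ((coord_ne_iff he hb').mp hne)
      have h2 : block Y c b = 0 := by
        unfold block
        refine Finset.sum_eq_zero fun a ha => ?_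
        have ha' : a ≤ Y.dim - b := by
          have := Finset.mem_range.mp ha
          omega
        have h3 := he.coord b hb b hb 0 (Nat.zero_le _) 0 (Nat.zero_le _) a ha'
        rw [if_pos ⟨rfl, rfl⟩, pow_zero, mul_one, h0, zero_mul] at h3
        rw [← h3, mul_zero]
      rw [h2, LinearMap.zero_apply, LinearMap.zero_apply, tmul_zero, map_zero]
  choose! Θ hΘ hΘ2 using h1
  refine leftInverseIn_of_tmul hP (Θ := ∑ b ∈ Finset.range (Y.dim + 1), Θ b)
    (T.corr_sum _ _ fun b hb => hΘ b hb) fun p q a y ha hy hpq => ?_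
  have h2 : ∀ b ∈ Finset.range (Y.dim + 1), Θ b ((T.L ^ s) (τ (a ⊗ₜ y))) =
      τ (a ⊗ₜ (block Y c b y)) := fun b hb => hΘ2 b hb p q a y ha hy hpq
  rw [LinearMap.sum_apply, Finset.sum_congr rfl h2, ← map_sum, ← tmul_sum]
  congr 2
  have h3 := congrArg (fun g => g y) (he.span_all fun i hi => (hmem i).mpr hi)
  rw [Module.End.one_apply] at h3
  conv_rhs => rw [← h3]
  rw [lowPart, LinearMap.sum_apply]

/-- the condition for a complete intersection of codimension `s` in `Z × Y` -/
def SectionCondition (Z Y : Variety.{u, v} F) (s : ℕ) : Prop :=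
  ∀ m ≤ Y.dim, HasPrimitive Y m → ∀ e, m + 2 ≤ e + s → s ≤ e + m → e ≤ m + s →
    Even (e + m + s) → ∀ i, i + e < Z.dim → Even (i + e + 1 + Z.dim) → LeftInverseIn Z e i

/-- **Complete intersections in `Z × Y`, `B(Y)`: sufficient condition.** -/
theorem cplus_of_condition {s : ℕ} {μ : Z.H → Y.H → T.H} (hP : Product Z Y T μ)
    (D : LefschetzMap T S s) (P : Duality T) (hZ : Z.CPlus) (hY : Y.Lefschetz)
    (h : SectionCondition Z Y s) : S.CPlus := by
  obtain ⟨τ, hτ⟩ := hP.isProd
  have hT := isTen_of_isProd hτ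
  have hd := hT.dim
  have hs := D.dim
  refine cplus_of_left D P (hT.cplus hZ (cplus_of_kunneth Y (kunneth_of_lefschetz Y hY)))
    fun j hj he => leftInverseIn_prod_of hT hY s j fun b hb hp k hk hks i hi => ?_
  refine h _ (Nat.sub_le _ _) hp _ (by omega) (by omega) (by omega) ?_ i (by omega) ?_
  · rw [Nat.even_iff] at he ⊢
    omega
  · rw [Nat.even_iff] at he ⊢
    omega

/-- **Generic complete intersections in `Z × Y`, `B(Y)`: the exact criterion.** -/
theorem cplus_iff_condition {s : ℕ} {μ : Z.H → Y.H → T.H} (hP : Product Z Y T μ)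
    (G : GenericSection T S s) (P : Duality T) (hZ : Z.CPlus) (hY : Y.Lefschetz) :
    S.CPlus ↔ SectionCondition Z Y s := by
  refine ⟨fun h => ?_, cplus_of_condition hP (ofGeneric G) P hZ hY⟩
  obtain ⟨τ, hτ⟩ := hP.isProd
  have hT := isTen_of_isProd hτ
  have hd := hT.dim
  have hs := G.dim
  have hTC := hT.cplus hZ (cplus_of_kunneth Y (kunneth_of_lefschetz Y hY))
  intro m hm hp e h1 h2 h3 h4 i h5 h6
  obtain ⟨c, he⟩ := exists_strings_all hY
  obtain ⟨k, hk⟩ : ∃ k, 2 * k + s = e + m := by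
    rw [Nat.even_iff] at h4
    exact ⟨(e + m - s) / 2, by omega⟩
  have hb : Y.dim - m ∈ Finset.range (Y.dim + 1) := by
    rw [Finset.mem_range]; omega
  have hm' : Y.dim - (Y.dim - m) = m := by omega
  have hn : c (Y.dim - m) 0 ≠ 0 := by
    rw [coord_ne_iff he (by omega), hm']
    exact hp
  have h7 : LeftInverseIn T s (i + (Y.dim - m) + 2 * k) := by
    refine (cplus_iff_left G P hTC).mp h _ (by omega) ?_
    rw [Nat.even_iff] at h6 ⊢
    omega
  have h8 := leftInverseIn_of_string hτ he hb hn (k := k) (by omega) (by omega) h7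
  rwa [hm', show 2 * k + s - m = e by omega] at h8

end Pool.Agent.Helper47.PC
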