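import Pool.Agent.Helper47.PC.Sections
import Pool.Agent.Helper47.PC.Single

/-!
# The results in terms of generic complete intersections
-/

set_option linter.unusedSectionVars false

namespace Pool.Agent.Helper47.PC

open Pool.Agent.Helper29.CPB Pool.Agent.Helper47.PB

universe u v

variable {F : Type u} [Field F] [CharZero F] {X Z Y T S : Variety.{u, v} F}

theorem cplusUpTo_iff (G : Sections X) (P : Duality X) (hX : X.CPlus) (n : ℕ) :
    G.CPlusUpTo n ↔ ∀ j < n, AlmostIn X j := by
  rw [← cplus_le_iff G.sec G.gen P hX n]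
  refine forall_congr' fun e => forall_congr' fun h1 => forall_congr' fun h2 => ?_
  have hd := (G.gen e h1 h2).dim
  constructor
  · intro h h3
    exact h (by omega)
  · intro h h3
    exact h (by omega)

/-- **Products.** -/
theorem cplusUpTo_product_iff {μ : Z.H → Y.H → T.H} (hP : Product Z Y T μ)
    (hP' : Product Y Z T (fun y x => μ x y)) (GT : Sections T) (GZ : Sections Z)
    (GY : Sections Y) (PT : Duality T) (PZ : Duality Z) (PY : Duality Y) (hZ : Z.CPlus)
    (hY : Y.CPlus) (hZ0 : LefschetzIn Z 0) (hY0 : LefschetzIn Y 0) (hZn : Z.π 0 ≠ 0)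
    (hYn : Y.π 0 ≠ 0) (n : ℕ) :
    GT.CPlusUpTo n ↔ GZ.CPlusUpTo n ∧ GY.CPlusUpTo n ∧
      ∀ p q, p + q < n → LefschetzIn Z p ∨ LefschetzIn Y q := by
  have hT : T.CPlus := by
    obtain ⟨τ, h1, -⟩ := exists_isProd_two hP hP'
    exact (isTen_of_isProd h1).cplus hZ hY
  rw [cplusUpTo_iff GT PT hT, cplusUpTo_iff GZ PZ hZ, cplusUpTo_iff GY PY hY]
  exact almostIn_product_iff hP hP' hZ hY hZ0 hY0 hZn hYn n

lemma condition_iff (GZ : Sections Z) (PZ : Duality Z) (hZ : Z.CPlus) (s : ℕ) :
    SectionCondition Z Y s ↔ ∀ m ≤ Y.dim, HasPrimitive Y m → ∀ e, m + 2 ≤ e + s → s ≤ e + m →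
      e ≤ m + s → Even (e + m + s) → e < Z.dim → (GZ.sec e).CPlus := by
  unfold SectionCondition
  refine forall_congr' fun m => forall_congr' fun _ => forall_congr' fun _ =>
    forall_congr' fun e => forall_congr' fun h1 => forall_congr' fun h2 =>
    forall_congr' fun h3 => forall_congr' fun h4 => ?_
  constructor
  · intro h he
    have G := GZ.gen e (by omega) he
    have hd := G.dim
    refine (cplus_iff_left G PZ hZ).mpr fun j hj hje => h j (by omega) ?_
    rw [Nat.even_iff] at hje ⊢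
    omega
  · intro h i hi hie
    have he : e < Z.dim := by omega
    have G := GZ.gen e (by omega) he
    have hd := G.dim
    refine (cplus_iff_left G PZ hZ).mp (h he) i (by omega) ?_
    rw [Nat.even_iff] at hie ⊢
    omega

/-- **The rule of Clebsch and Gordan**, sufficient condition. -/
theorem cplus_of_rule {s : ℕ} {μ : Z.H → Y.H → T.H} (hP : Product Z Y T μ)
    (D : LefschetzMap T S s) (PT : Duality T) (GZ : Sections Z) (PZ : Duality Z) (hZ : Z.CPlus)
    (hY : Y.Lefschetz) (h : ∀ m ≤ Y.dim, HasPrimitive Y m → ∀ e, m + 2 ≤ e + s → s ≤ e + m →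
      e ≤ m + s → Even (e + m + s) → e < Z.dim → (GZ.sec e).CPlus) : S.CPlus :=
  cplus_of_condition hP D PT hZ hY ((condition_iff GZ PZ hZ s).mpr h)

/-- **The rule of Clebsch and Gordan.** -/
theorem cplus_iff_rule {s : ℕ} {μ : Z.H → Y.H → T.H} (hP : Product Z Y T μ)
    (G : GenericSection T S s) (PT : Duality T) (GZ : Sections Z) (PZ : Duality Z) (hZ : Z.CPlus)
    (hY : Y.Lefschetz) : S.CPlus ↔ ∀ m ≤ Y.dim, HasPrimitive Y m → ∀ e, m + 2 ≤ e + s →
      s ≤ e + m → e ≤ m + s → Even (e + m + s) → e < Z.dim → (GZ.sec e).CPlus :=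
  (cplus_iff_condition hP G PT hZ hY).trans (condition_iff GZ PZ hZ s)

/-- **Complete intersections and cyclic covers.** -/
theorem stable {s n : ℕ} (D : PolarMap T S s) (PT : Duality T) (PS : Duality S)
    (GT : Sections T) (GS : Sections S) (hT : T.CPlus) (h : GT.CPlusUpTo n)
    (hn : s = 0 ∨ S.dim ≤ n) : S.CPlus ∧ GS.CPlusUpTo n := by
  have h1 := (cplusUpTo_iff GT PT hT n).mp h
  have hS : S.CPlus := by
    refine cplus_of_left D.toLefschetzMap PT hT fun j hj _ => ?_
    rcases hn with rfl | hn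
    · exact leftInverseIn_zero T j
    · have hd := D.dim
      exact (h1 j (by omega) (by omega)).mono (by omega)
  exact ⟨hS, (cplusUpTo_iff GS PS hS n).mpr fun j hj => almostIn_of_map D (h1 j hj)⟩

end Pool.Agent.Helper47.PC
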