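import Pool.Agent.Helper47.PC.Statement

/-!
# Generic complete intersections of all codimensions

Additions to `Pool.Agent.Helper47.PC.Statement`.
-/

namespace Pool.Agent.Helper47.PC

open Pool.Agent.Helper29.CPB Pool.Agent.Helper47.PB

universe u v

variable {F : Type u} [Field F]

/-- One generic complete intersection `X_e = sec e` of each codimension `e`, `1 ≤ e < dim X`. -/
structure Sections (X : Variety.{u, v} F) where
  sec : ℕ → Variety.{u, v} F
  gen : ∀ e, 1 ≤ e → e < X.dim → GenericSection X (sec e) e

/-- `C⁺(X_e)` holds for all the generic complete intersections `X_e`, `e ≥ 1`, of dimension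
`dim X - e ≤ n` (and `≥ 1`). -/
def Sections.CPlusUpTo {X : Variety.{u, v} F} (G : Sections X) (n : ℕ) : Prop :=
  ∀ e, 1 ≤ e → e < X.dim → X.dim ≤ e + n → (G.sec e).CPlus

end Pool.Agent.Helper47.PC
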