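import Pool.Agent.Helper47.PC.PadeE

/-!
# The Smith normal form of `(x + y)^s` on `ℚ[x][y] / y^(m+1)`

`f_k = y^k` for `k + s ≤ m`, and `f_k` is the (homogenised) Padé polynomial of degree `k` otherwise. Then
`(x + y)^s f_k = x^(s + k - dg k) g_k` where `g_k` is homogeneous of degree `dg k`. Put `x = 1`. The
matrix `F` of the coefficients of the `f_k` is upper unitriangular, `ψ` is its inverse. The `g_k`, in the
order of their degrees `dg k` (`dg` is a permutation of `0, …, m`), form an upper triangular matrix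
with nonzero diagonal entries; `γ` is the inverse of the matrix of the `g_k`, so that
`γ (matrix of (1 + y)^s) F = 1`, that is `γ (matrix of (1 + y)^s) = ψ`.
-/

namespace Pool.Agent.Helper47.PC

open Polynomial

/-- the degree of `g_k` -/
def dg (m s k : ℕ) : ℕ := if k + s ≤ m then k + s else m - k

private lemma smith_dg_le {m s k : ℕ} (hk : k ≤ m) : dg m s k ≤ m := by
  unfold dg
  split_ifs <;> omega

private lemma smith_dg_inj {m s k k' : ℕ} (hk : k ≤ m) (hk' : k' ≤ m) (h : dg m s k = dg m s k') :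
    k = k' := by
  unfold dg at h
  split_ifs at h <;> omega

private lemma smith_poly (m s k : ℕ) (hk : k ≤ m) :
    ∃ f : ℚ[X], f.Monic ∧ f.natDegree = k ∧
      (∀ j, dg m s k < j → j ≤ m → ((1 + X) ^ s * f).coeff j = 0) ∧
      ((1 + X) ^ s * f).coeff (dg m s k) ≠ 0 := by
  unfold dg
  by_cases h : k + s ≤ m
  · refine ⟨X ^ k, monic_X_pow k, natDegree_X_pow k, fun j hj _ => ?_, ?_⟩
    · rw [if_pos h] at hj
      rw [coeff_mul_X_pow', if_pos (by omega), coeff_one_add_X_pow,
        Nat.choose_eq_zero_of_lt (by omega), Nat.cast_zero]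
    · rw [if_pos h, coeff_mul_X_pow', if_pos (by omega), coeff_one_add_X_pow,
        show k + s - k = s by omega, Nat.choose_self, Nat.cast_one]
      exact one_ne_zero
  · obtain ⟨f, hf, hd, h1, h2⟩ := pade_exists m s k hk (by omega)
    rw [if_neg h]
    exact ⟨f, hf, hd, fun j hj hjm => h1 j (by omega) hjm, h2⟩

private lemma smith_coeff (m s l : ℕ) (hl : l ≤ m) (f : ℚ[X]) :
    ∑ b : Fin (m + 1), (if (b : ℕ) ≤ l then (s.choose (l - b) : ℚ) else 0) * f.coeff b =
      ((1 + X) ^ s * f).coeff l := by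
  rw [← Finset.sum_range (fun b => (if b ≤ l then (s.choose (l - b) : ℚ) else 0) * f.coeff b),
    mul_comm ((1 + X) ^ s) f, coeff_mul, Finset.Nat.sum_antidiagonal_eq_sum_range_succ_mk]
  refine (Finset.sum_subset (s₁ := Finset.range l.succ) ?_ ?_).symm.trans
    (Finset.sum_congr rfl fun b hb => ?_)
  · intro b hb
    rw [Finset.mem_range] at hb ⊢
    omega
  · intro b _ hb
    rw [Finset.mem_range] at hb
    rw [if_neg (by omega), zero_mul]
  · rw [Finset.mem_range] at hb
    rw [if_pos (by omega), coeff_one_add_X_pow, mul_comm]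

/-- an upper triangular matrix with nonzero diagonal entries -/
private lemma smith_inv {n : ℕ} (M : Matrix (Fin n) (Fin n) ℚ) (h : ∀ i j, j < i → M i j = 0)
    (hd : ∀ i, M i i ≠ 0) : M * M⁻¹ = 1 ∧ M⁻¹ * M = 1 ∧ ∀ i j, j < i → M⁻¹ i j = 0 := by
  have hM : M.BlockTriangular id := fun i j hij => h i j hij
  have hdet : IsUnit M.det := by
    rw [Matrix.det_of_isUpperTriangular hM]
    exact (Finset.prod_ne_zero_iff.mpr fun i _ => hd i).isUnit
  have _ : Invertible M := Matrix.invertibleOfIsUnitDet M hdet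
  exact ⟨Matrix.mul_nonsing_inv M hdet, Matrix.nonsing_inv_mul M hdet, fun i j hij =>
    Matrix.blockTriangular_inv_of_blockTriangular hM hij⟩

theorem exists_smith (m s : ℕ) : ∃ φ ψ γ : ℕ → ℕ → ℚ,
    (∀ k l, φ k l ≠ 0 → l ≤ k) ∧ (∀ k l, ψ k l ≠ 0 → k ≤ l) ∧
    (∀ k l, γ k l ≠ 0 → dg m s k ≤ l) ∧
    (∀ l ≤ m, ∀ l' ≤ m, ∑ k ∈ Finset.range (m + 1), φ k l * ψ k l' = if l = l' then 1 else 0) ∧
    (∀ k ≤ m, ∀ l' ≤ m, ∑ l ∈ Finset.range (m + 1),
      γ k l * (if l' ≤ l then (s.choose (l - l') : ℚ) else 0) = ψ k l') := by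
  have h0 : ∀ k : Fin (m + 1), ∃ f : ℚ[X], f.Monic ∧ f.natDegree = (k : ℕ) ∧
      (∀ j, dg m s k < j → j ≤ m → ((1 + X) ^ s * f).coeff j = 0) ∧
      ((1 + X) ^ s * f).coeff (dg m s k) ≠ 0 := fun k => smith_poly m s k (by have := k.2; omega)
  choose f hf hdeg hzero hne using h0
  -- the permutation
  let σ0 : Fin (m + 1) → Fin (m + 1) := fun k =>
    ⟨dg m s k, Nat.lt_succ_of_le (smith_dg_le (by have := k.2; omega))⟩
  have hσ0 : Function.Injective σ0 := by
    intro k k' h
    have h1 : dg m s k = dg m s k' := congrArg Fin.val h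
    exact Fin.ext (smith_dg_inj (by have := k.2; omega) (by have := k'.2; omega) h1)
  let σ : Fin (m + 1) ≃ Fin (m + 1) :=
    Equiv.ofBijective σ0 (Finite.injective_iff_bijective.mp hσ0)
  have hσ : ∀ k, ((σ k : Fin (m + 1)) : ℕ) = dg m s k := fun k => rfl
  -- the matrices
  let P : Matrix (Fin (m + 1)) (Fin (m + 1)) ℚ := fun l k => (f k).coeff l
  let G : Matrix (Fin (m + 1)) (Fin (m + 1)) ℚ := fun l b =>
    if (b : ℕ) ≤ l then (s.choose (l - b) : ℚ) else 0
  have hGP : ∀ l k, (G * P) l k = ((1 + X) ^ s * f k).coeff l := by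
    intro l k
    rw [Matrix.mul_apply]
    exact smith_coeff m s l (by have := l.2; omega) (f k)
  obtain ⟨hP1, hP2, hP3⟩ := smith_inv P
    (fun l k hkl => coeff_eq_zero_of_natDegree_lt (by rw [hdeg]; exact hkl))
    (fun k => by
      show (f k).coeff k ≠ 0
      have h1 := (hf k).coeff_natDegree
      rw [hdeg] at h1
      rw [h1]
      exact one_ne_zero)
  let Q : Matrix (Fin (m + 1)) (Fin (m + 1)) ℚ := fun l d => (G * P) l (σ.symm d)
  obtain ⟨-, hQ2, hQ3⟩ := smith_inv Q
    (fun l d hdl => by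
      show (G * P) l (σ.symm d) = 0
      rw [hGP]
      refine hzero _ _ ?_ (by have := l.2; omega)
      rw [← hσ, Equiv.apply_symm_apply]
      exact hdl)
    (fun d => by
      show (G * P) d (σ.symm d) ≠ 0
      rw [hGP]
      have h1 := hne (σ.symm d)
      rw [← hσ, Equiv.apply_symm_apply] at h1
      exact h1)
  let Γ : Matrix (Fin (m + 1)) (Fin (m + 1)) ℚ := fun k l => Q⁻¹ (σ k) l
  have hΓ : Γ * (G * P) = 1 := by
    ext k k'
    have h1 : (Γ * (G * P)) k k' = (Q⁻¹ * Q) (σ k) (σ k') := by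
      rw [Matrix.mul_apply, Matrix.mul_apply]
      refine Finset.sum_congr rfl fun l _ => ?_
      show Q⁻¹ (σ k) l * (G * P) l k' = Q⁻¹ (σ k) l * (G * P) l (σ.symm (σ k'))
      rw [Equiv.symm_apply_apply]
    rw [h1, hQ2, Matrix.one_apply, Matrix.one_apply]
    simp only [EmbeddingLike.apply_eq_iff_eq]
  have hΓG : Γ * G = P⁻¹ := by
    rw [← Matrix.mul_assoc] at hΓ
    exact (Matrix.inv_eq_left_inv hΓ).symm
  -- the functions
  refine ⟨fun k l => if h : k < m + 1 then (f ⟨k, h⟩).coeff l else 0,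
    fun k l => if h : k < m + 1 ∧ l < m + 1 then P⁻¹ ⟨k, h.1⟩ ⟨l, h.2⟩ else 0,
    fun k l => if h : k < m + 1 ∧ l < m + 1 then Γ ⟨k, h.1⟩ ⟨l, h.2⟩ else 0, ?_, ?_, ?_, ?_, ?_⟩
  · intro k l h
    by_cases hk : k < m + 1
    · simp only [dif_pos hk] at h
      by_contra hlk
      apply h
      refine coeff_eq_zero_of_natDegree_lt ?_
      rw [hdeg]
      simpa using hlk
    · simp only [dif_neg hk] at h
      exact absurd rfl h
  · intro k l h
    by_cases hk : k < m + 1 ∧ l < m + 1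
    · simp only [dif_pos hk] at h
      by_contra hkl
      exact h (hP3 _ _ (by simpa using hkl))
    · simp only [dif_neg hk] at h
      exact absurd rfl h
  · intro k l h
    by_cases hk : k < m + 1 ∧ l < m + 1
    · simp only [dif_pos hk] at h
      by_contra hkl
      apply h
      show Q⁻¹ (σ ⟨k, hk.1⟩) ⟨l, hk.2⟩ = 0
      apply hQ3
      show l < dg m s k
      omega
    · simp only [dif_neg hk] at h
      exact absurd rfl h
  · intro l hl l' hl'
    have hl2 : l < m + 1 := by omega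
    have hl2' : l' < m + 1 := by omega
    have h1 : (P * P⁻¹) ⟨l, hl2⟩ ⟨l', hl2'⟩ = if l = l' then 1 else 0 := by
      rw [hP1, Matrix.one_apply]
      simp only [Fin.mk.injEq]
    rw [← h1, Matrix.mul_apply, Finset.sum_range]
    refine Finset.sum_congr rfl fun k _ => ?_
    dsimp only
    rw [dif_pos k.2, dif_pos ⟨k.2, hl2'⟩]
  · intro k hk l' hl'
    have hk2 : k < m + 1 := by omega
    have hl2' : l' < m + 1 := by omega
    have h1 : (Γ * G) ⟨k, hk2⟩ ⟨l', hl2'⟩ = P⁻¹ ⟨k, hk2⟩ ⟨l', hl2'⟩ := by rw [hΓG]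
    dsimp only
    rw [dif_pos ⟨hk2, hl2'⟩, ← h1, Matrix.mul_apply, Finset.sum_range]
    refine Finset.sum_congr rfl fun l _ => ?_
    rw [dif_pos ⟨hk2, l.2⟩]

end Pool.Agent.Helper47.PC
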