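import Pool.Agent.Helper47.PB.Statement

/-!
# The class of varieties with `C⁺` and weak forms of `B`

Additions to `Pool.Agent.Helper29.CPB.Statement` and `Pool.Agent.Helper47.PB.Statement`.
-/

namespace Pool.Agent.Helper47.PC

open Pool.Agent.Helper29.CPB Pool.Agent.Helper47.PB

universe u v

variable {F : Type u} [Field F]

/-- Some algebraic correspondence is a left inverse of `L^e` on `H^j(X)`. -/
def LeftInverseIn (X : Variety.{u, v} F) (e j : ℕ) : Prop :=
  ∃ θ, X.alg (-e) θ ∧ ∀ x, X.π j x = x → θ ((X.L ^ e) x) = x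

/-- A weak form of the Lefschetz standard conjecture in degree `j`: `L^(d-j-1)`, `d = dim X`, has an
algebraic left inverse on `H^j(X)`. (In the Lefschetz standard conjecture it is `L^(d-j)`.) There is
no condition for `j ≥ d - 1`. -/
def AlmostIn (X : Variety.{u, v} F) (j : ℕ) : Prop :=
  j < X.dim → LeftInverseIn X (X.dim - j - 1) j

/-- `C⁺(X)`, `B(X)` in the degrees `≤ z` and the weak form of `B(X)` in the degrees `≤ k`. -/
structure Almost (z k : ℕ) (X : Variety.{u, v} F) : Prop where
  cplus : X.CPlus
  low : ∀ i ≤ z, LefschetzIn X i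
  mid : ∀ j ≤ k, AlmostIn X j

/-- Poincaré duality: `pair x y` is the degree of `x y`; the transposes of algebraic correspondences
are algebraic. -/
structure Duality (X : Variety.{u, v} F) where
  pair : X.H →ₗ[F] X.H →ₗ[F] F
  perfect : ∀ y, (∀ x, pair x y = 0) → y = 0
  grade : ∀ i x y, pair (X.π i x) y = pair x (X.π (2 * X.dim - i) y)
  polar : ∀ x y, pair (X.L x) y = pair x (X.L y)
  transpose : ∀ r f, X.alg r f → ∃ g, X.alg r g ∧ ∀ x y, pair (f x) y = pair x (g y)

/-- A `LefschetzMap` (see there) for which the polarisation of `S` is the pull-back of the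
polarisation of `T`; cycles of all codimensions can be pulled back along `S × S → T × T`. -/
structure PolarMap (T S : Variety.{u, v} F) (s : ℕ) extends LefschetzMap T S s where
  up_L : ∀ x, up (T.L x) = S.L (up x)
  restrict_all : ∀ (r : ℤ) (γ : Module.End F T.H), T.alg (r - s) γ →
    ∃ f, S.alg r f ∧ ∀ y, f y = up (γ (dn y))

end Pool.Agent.Helper47.PC
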