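import Pool.Agent.Helper47.PC.Statement
import Pool.Agent.Helper47.PB.Low
import Pool.Agent.Helper47.PB.Main

/-!
# Primitive decomposition in the degrees in which `B` is known: definitions
-/

set_option linter.unusedSectionVars false

namespace Pool.Agent.Helper47.PC

open Pool.Agent.Helper29.CPB Pool.Agent.Helper47.PB

universe u v

variable {F : Type u} [Field F] [CharZero F]

/-- the projector to the span of the strings `w, L w, …, L^(d-i) w`, `w` primitive of degree `i`;
`c i a` is the operator which maps `x` to the primitive class `w` of degree `i` such that `L^a w` is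
the component of `x` -/
noncomputable def block (X : Variety.{u, v} F) (c : ℕ → ℕ → Module.End F X.H) (i : ℕ) :
    Module.End F X.H :=
  ∑ a ∈ Finset.range (X.dim - i + 1), X.L ^ a * c i a

/-- the projector to the span of the strings which start in the degrees `i ∈ I` -/
noncomputable def lowPart (X : Variety.{u, v} F) (I : Finset ℕ)
    (c : ℕ → ℕ → Module.End F X.H) : Module.End F X.H :=
  ∑ i ∈ I, block X c i

/-- Algebraic coordinates for the strings which start in the degrees `i ∈ I`. -/
structure IsStrings (X : Variety.{u, v} F) (I : Finset ℕ) (c : ℕ → ℕ → Module.End F X.H) :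
    Prop where
  le : ∀ i ∈ I, i ≤ X.dim
  corr : ∀ i ∈ I, ∀ a ≤ X.dim - i, c i a ∈ X.corr (-(a : ℤ))
  deg : ∀ i ∈ I, ∀ a ≤ X.dim - i, ∀ x, X.π i (c i a x) = c i a x
  top : ∀ i ∈ I, ∀ a ≤ X.dim - i, X.L ^ (X.dim - i + 1) * c i a = 0
  coord : ∀ i ∈ I, ∀ i' ∈ I, ∀ a ≤ X.dim - i, ∀ a' ≤ X.dim - i', ∀ a'' ≤ X.dim - i',
    c i a * X.L ^ a' * c i' a'' = if i = i' ∧ a = a' then c i' a'' else 0
  succ : ∀ i ∈ I, ∀ a < X.dim - i, c i (a + 1) * X.L = c i a
  zero : ∀ i ∈ I, c i 0 * X.L = 0
  span : ∀ i ∈ I, ∀ x, X.π i x = x → lowPart X I c x = x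

end Pool.Agent.Helper47.PC
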