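import Pool.Agent.Helper47.PC.StrLeft

/-!
# Left inverses on the product of `H(Z)` with the strings of `H(Y)`, all degrees

The same as `exists_string_left_inverse`, in a degree `j` of `H(T)` and for an exponent `s` which need
not be `dim T - j - 1`.
-/

set_option linter.unusedSectionVars false

namespace Pool.Agent.Helper47.PC

open Pool.Agent.Helper29.CPB Pool.Agent.Helper47.PB TensorProduct

universe u v

variable {F : Type u} [Field F] [CharZero F] {Z Y T : Variety.{u, v} F}
  {τ : (Z.H ⊗[F] Y.H) ≃ₗ[F] T.H} {K : Finset ℕ} {e : ℕ → ℕ → Module.End F Y.H}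

lemma exists_theta_gen (m s k b j : ℕ) (hk : k ≤ m) (hZ : m < k + s → ∀ i, i + b + 2 * k = j →
      LeftInverseIn Z (2 * k + s - m) i) :
    ∃ θ ∈ Z.corr (-((s + k - dg m s k : ℕ) : ℤ)), ∀ (p : ℤ) (x : Z.H), Z.π p x = x →
      p + 2 * k + b = j → θ ((Z.L ^ (s + k - dg m s k)) x) = x := by
  by_cases h : k + s ≤ m
  · have h0 : s + k - dg m s k = 0 := by
      unfold dg
      rw [if_pos h]
      omega
    refine ⟨1, ?_, fun p x _ _ => ?_⟩
    · rw [h0]
      simpa using Z.corr_one
    · rw [h0, pow_zero]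
      rfl
  · have h0 : s + k - dg m s k = 2 * k + s - m := by
      unfold dg
      rw [if_neg h]
      omega
    rw [h0]
    rcases le_or_gt (b + 2 * k) j with h1 | h1
    · obtain ⟨θ, hθ, hθ2⟩ := hZ (by omega) (j - b - 2 * k) (by omega)
      refine ⟨θ, hθ, fun p x hx hp => hθ2 x ?_⟩
      rw [show ((j - b - 2 * k : ℕ) : ℤ) = p by omega]
      exact hx
    · refine ⟨0, (Z.corr _).zero_mem, fun p x hx hp => ?_⟩
      have h2 : x = 0 := Z.homog_zero (Or.inl (by omega)) hx
      rw [h2, map_zero, map_zero]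

/-- `e b l L^s` on products, before the sum over `l` -/
private lemma strG_row (hP : IsTen Z Y T τ) (he : IsStrings Y K e) {b l m : ℕ} (hb : b ∈ K)
    (hm : m = Y.dim - b) (hl : l ≤ m) (s d : ℕ) (a : Z.H) (y : Y.H) :
    ext τ (Z.L ^ d) (e b l) ((T.L ^ s) (τ (a ⊗ₜ y))) =
      ∑ l' ∈ Finset.range (m + 1), (if l' ≤ l then ((s.choose (l - l') : ℕ) : F) else 0) •
        τ ((Z.L ^ d) ((Z.L ^ (s - (l - l'))) a) ⊗ₜ (e b l' y)) := by
  set G : ℕ → T.H := fun q => ((s.choose q : ℕ) : F) •
    τ ((Z.L ^ d) ((Z.L ^ (s - q)) a) ⊗ₜ (e b l ((Y.L ^ q) y))) with hG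
  have h1 : ext τ (Z.L ^ d) (e b l) ((T.L ^ s) (τ (a ⊗ₜ y))) = ∑ q ∈ Finset.range (s + 1), G q := by
    rw [hP.Lpow_apply, map_sum]
    refine Finset.sum_congr rfl fun q _ => ?_
    rw [map_smul, ext_apply]
  have h2 : ∀ q, l < q → G q = 0 := by
    intro q hq
    have h3 := congrArg (fun g => g y) (coord_Lpow he hb (hm ▸ hl) q)
    rw [if_neg (by omega)] at h3
    simp only [Module.End.mul_apply, LinearMap.zero_apply] at h3
    simp only [hG, h3, tmul_zero, map_zero, smul_zero]
  have h2' : ∀ q, s < q → G q = 0 := by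
    intro q hq
    simp only [hG, Nat.choose_eq_zero_of_lt hq, Nat.cast_zero, zero_smul]
  have h3 : ∑ q ∈ Finset.range (s + 1), G q = ∑ q ∈ Finset.range (l + 1), G q := by
    have h4 : ∑ q ∈ Finset.range (s + 1), G q = ∑ q ∈ Finset.range (s + l + 1), G q := by
      refine Finset.sum_subset (Finset.range_subset_range.2 (by omega)) fun q _ hq => h2' q ?_
      rw [Finset.mem_range] at hq
      omega
    have h5 : ∑ q ∈ Finset.range (l + 1), G q = ∑ q ∈ Finset.range (s + l + 1), G q := by
      refine Finset.sum_subset (Finset.range_subset_range.2 (by omega)) fun q _ hq => h2 q ?_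
      rw [Finset.mem_range] at hq
      omega
    rw [h4, h5]
  rw [h1, h3]
  set H : ℕ → T.H := fun l' => (if l' ≤ l then ((s.choose (l - l') : ℕ) : F) else 0) •
        τ ((Z.L ^ d) ((Z.L ^ (s - (l - l'))) a) ⊗ₜ (e b l' y)) with hH
  have h6 : ∑ l' ∈ Finset.range (l + 1), H l' = ∑ l' ∈ Finset.range (m + 1), H l' := by
    refine Finset.sum_subset (Finset.range_subset_range.2 (by omega)) fun q _ hq => ?_
    rw [Finset.mem_range] at hq
    simp only [hH, if_neg (show ¬ q ≤ l by omega), zero_smul]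
  rw [← h6, ← Finset.sum_flip H]
  refine Finset.sum_congr rfl fun q hq => ?_
  have hq' : q ≤ l := by
    have := Finset.mem_range.mp hq
    omega
  have h7 := congrArg (fun g => g y) (coord_Lpow he hb (hm ▸ hl) q)
  rw [if_pos hq'] at h7
  simp only [Module.End.mul_apply] at h7
  simp only [hG, hH, h7, if_pos (Nat.sub_le l q), show l - (l - q) = q by omega]

theorem exists_string_left_inverse_gen (hP : IsTen Z Y T τ) (he : IsStrings Y K e) {b : ℕ}
    (hb : b ∈ K) (s j : ℕ) (hZ : ∀ k ≤ Y.dim - b, Y.dim - b < k + s → ∀ i, i + b + 2 * k = j →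
      LeftInverseIn Z (2 * k + s - (Y.dim - b)) i) :
    ∃ Θ ∈ T.corr (-s), ∀ (p q : ℤ) (a : Z.H) (y : Y.H), Z.π p a = a → Y.π q y = y →
      p + q = j → Θ ((T.L ^ s) (τ (a ⊗ₜ y))) = τ (a ⊗ₜ (block Y e b y)) := by
  have hbd := he.le b hb
  obtain ⟨m, hm⟩ : ∃ m, m = Y.dim - b := ⟨_, rfl⟩
  rw [← hm] at hZ
  have hdim := hP.dim
  obtain ⟨φ, ψ, γ, hφ, hψ, hγ, hφψ, hγψ⟩ := exists_smith m s
  have h0 : ∀ k, ∃ θ, k ≤ m → (θ ∈ Z.corr (-((s + k - dg m s k : ℕ) : ℤ)) ∧
      ∀ (p : ℤ) (x : Z.H), Z.π p x = x →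
        p + 2 * k + b = j → θ ((Z.L ^ (s + k - dg m s k)) x) = x) := by
    intro k
    by_cases hk : k ≤ m
    · obtain ⟨θ, h1, h2⟩ := exists_theta_gen (Z := Z) m s k b j hk (hZ k hk)
      exact ⟨θ, fun _ => ⟨h1, h2⟩⟩
    · exact ⟨0, fun h => absurd h hk⟩
  choose θ hθ using h0
  have hdg : ∀ k ≤ m, dg m s k ≤ s + k := by
    intro k hk
    unfold dg
    split_ifs <;> omega
  refine ⟨∑ k ∈ Finset.range (m + 1),
    (∑ l ∈ Finset.range (m + 1), ((φ k l : ℚ) : F) • ext τ (Z.L ^ (k - l)) (Y.L ^ l)) *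
    (ext τ (θ k) 1 *
    (∑ l ∈ Finset.range (m + 1), ((γ k l : ℚ) : F) • ext τ (Z.L ^ (l - dg m s k)) (e b l))),
    ?_, ?_⟩
  · refine T.corr_sum _ _ fun k hk => ?_
    have hk' : k ≤ m := by
      have := Finset.mem_range.mp hk
      omega
    have hd := hdg k hk'
    refine T.corr_mul' (r := k) (s := -(s : ℤ) - k) (by ring) ?_
      (T.corr_mul' (r := -((s + k - dg m s k : ℕ) : ℤ)) (s := -(dg m s k : ℤ)) (by omega) ?_ ?_)
    · refine T.corr_sum _ _ fun l _ => ?_
      by_cases h : φ k l = 0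
      · rw [h, Rat.cast_zero, zero_smul]
        exact (T.corr _).zero_mem
      · have hl := hφ k l h
        exact T.corr_smul _ _ _ (hP.ext_corr (Z.Lpow_corr (k - l)) (Y.Lpow_corr l) (by omega))
    · exact hP.ext_corr (hθ k hk').1 Y.corr_one (by ring)
    · refine T.corr_sum _ _ fun l hl => ?_
      have hl' : l ≤ m := by
        have := Finset.mem_range.mp hl
        omega
      by_cases h : γ k l = 0
      · rw [h, Rat.cast_zero, zero_smul]
        exact (T.corr _).zero_mem
      · have hl2 := hγ k l h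
        exact T.corr_smul _ _ _ (hP.ext_corr (Z.Lpow_corr (l - dg m s k))
          (he.corr b hb l (hm ▸ hl')) (by omega))
  · intro p q a y ha hy hpq
    -- the coordinates of `L^s (a ⊗ y)`
    have h1 : ∀ k ≤ m, (∑ l ∈ Finset.range (m + 1),
        ((γ k l : ℚ) : F) • ext τ (Z.L ^ (l - dg m s k)) (e b l)) ((T.L ^ s) (τ (a ⊗ₜ y))) =
        ∑ l' ∈ Finset.range (m + 1), ((ψ k l' : ℚ) : F) •
          τ ((Z.L ^ (s + l' - dg m s k)) a ⊗ₜ (e b l' y)) := by
      intro k hk
      rw [LinearMap.sum_apply]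
      have h2 : ∀ l ∈ Finset.range (m + 1), (((γ k l : ℚ) : F) •
          ext τ (Z.L ^ (l - dg m s k)) (e b l)) ((T.L ^ s) (τ (a ⊗ₜ y))) =
          ∑ l' ∈ Finset.range (m + 1), (((γ k l : ℚ) : F) *
            (if l' ≤ l then ((s.choose (l - l') : ℕ) : F) else 0)) •
            τ ((Z.L ^ (s + l' - dg m s k)) a ⊗ₜ (e b l' y)) := by
        intro l hl
        have hl' : l ≤ m := by
          have := Finset.mem_range.mp hl
          omega
        rw [LinearMap.smul_apply, strG_row hP he hb hm hl', Finset.smul_sum]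
        refine Finset.sum_congr rfl fun l' _ => ?_
        rw [smul_smul]
        by_cases h3 : γ k l = 0
        · rw [h3, Rat.cast_zero, zero_mul, zero_smul, zero_smul]
        · have h4 := hγ k l h3
          by_cases h5 : l' ≤ l
          · rw [if_pos h5]
            rcases le_or_gt (l - l') s with h6 | h6
            · rw [← Module.End.mul_apply, ← pow_add,
                show l - dg m s k + (s - (l - l')) = s + l' - dg m s k by omega]
            · rw [Nat.choose_eq_zero_of_lt h6, Nat.cast_zero, mul_zero, zero_smul, zero_smul]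
          · rw [if_neg h5, mul_zero, zero_smul, zero_smul]
      rw [Finset.sum_congr rfl h2, Finset.sum_comm]
      refine Finset.sum_congr rfl fun l' hl' => ?_
      have hl'' : l' ≤ m := by
        have := Finset.mem_range.mp hl'
        omega
      rw [← Finset.sum_smul, ← hγψ k hk l' hl'', Rat.cast_sum]
      congr 1
      refine Finset.sum_congr rfl fun l _ => ?_
      rw [Rat.cast_mul]
      split_ifs
      · rw [Rat.cast_natCast]
      · rw [Rat.cast_zero]
    -- the left inverses on `H(Z)`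
    have h2 : ∀ k ≤ m, ext τ (θ k) 1 ((∑ l ∈ Finset.range (m + 1),
        ((γ k l : ℚ) : F) • ext τ (Z.L ^ (l - dg m s k)) (e b l)) ((T.L ^ s) (τ (a ⊗ₜ y)))) =
        ∑ l' ∈ Finset.range (m + 1), ((ψ k l' : ℚ) : F) •
          τ ((Z.L ^ (l' - k)) a ⊗ₜ (e b l' y)) := by
      intro k hk
      rw [h1 k hk, map_sum]
      refine Finset.sum_congr rfl fun l' hl' => ?_
      have hl'' : l' ≤ m := by
        have := Finset.mem_range.mp hl'
        omega
      rw [map_smul, ext_apply, Module.End.one_apply]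
      by_cases h3 : ψ k l' = 0
      · rw [h3, Rat.cast_zero, zero_smul, zero_smul]
      have h4 := hψ k l' h3
      by_cases h5 : e b l' y = 0
      · rw [h5, tmul_zero, tmul_zero]
      have h6 : q = b + 2 * l' := by
        by_contra hne
        apply h5
        have h7 := he.deg b hb l' (hm ▸ hl'') y
        have h8 : Y.π (q - 2 * l') (e b l' y) = e b l' y :=
          Y.corr_homog (he.corr b hb l' (hm ▸ hl'')) (by ring) hy
        rw [← h7]
        exact Y.π_apply_ne (by omega) h8
      have hd := hdg k hk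
      have h7 : (Z.L ^ (s + l' - dg m s k)) a =
          (Z.L ^ (s + k - dg m s k)) ((Z.L ^ (l' - k)) a) := by
        rw [← Module.End.mul_apply, ← pow_add]
        congr 2
        omega
      have h8 : Z.π (p + 2 * (l' - k : ℕ)) ((Z.L ^ (l' - k)) a) = (Z.L ^ (l' - k)) a :=
        Z.corr_homog (Z.Lpow_corr (l' - k)) rfl ha
      rw [h7, (hθ k hk).2 _ _ h8 (by omega)]
    rw [LinearMap.sum_apply]
    have h3 : ∀ k ∈ Finset.range (m + 1),
        ((∑ l ∈ Finset.range (m + 1), ((φ k l : ℚ) : F) • ext τ (Z.L ^ (k - l)) (Y.L ^ l)) *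
        (ext τ (θ k) 1 * (∑ l ∈ Finset.range (m + 1),
          ((γ k l : ℚ) : F) • ext τ (Z.L ^ (l - dg m s k)) (e b l))))
          ((T.L ^ s) (τ (a ⊗ₜ y))) =
        ∑ l ∈ Finset.range (m + 1), ∑ l' ∈ Finset.range (m + 1),
          ((φ k l * ψ k l' : ℚ) : F) • τ ((Z.L ^ (l' - l)) a ⊗ₜ ((Y.L ^ l) (e b l' y))) := by
      intro k hk
      have hk' : k ≤ m := by
        have := Finset.mem_range.mp hk
        omega
      rw [Module.End.mul_apply, Module.End.mul_apply, h2 k hk', LinearMap.sum_apply]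
      refine Finset.sum_congr rfl fun l _ => ?_
      rw [map_sum]
      refine Finset.sum_congr rfl fun l' _ => ?_
      rw [map_smul, LinearMap.smul_apply, ext_apply, smul_smul, Rat.cast_mul,
        mul_comm ((ψ k l' : ℚ) : F)]
      by_cases h4 : φ k l = 0
      · rw [h4, Rat.cast_zero, zero_mul, zero_smul, zero_smul]
      by_cases h5 : ψ k l' = 0
      · rw [h5, Rat.cast_zero, mul_zero, zero_smul, zero_smul]
      have h6 := hφ k l h4
      have h7 := hψ k l' h5
      rw [← Module.End.mul_apply (Z.L ^ (k - l)), ← pow_add,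
        show k - l + (l' - k) = l' - l by omega]
    rw [Finset.sum_congr rfl h3, Finset.sum_comm]
    have h4 : block Y e b y = ∑ l ∈ Finset.range (m + 1), (Y.L ^ l) (e b l y) := by
      unfold block
      rw [LinearMap.sum_apply, hm]
      rfl
    rw [h4, tmul_sum, map_sum]
    refine Finset.sum_congr rfl fun l hl => ?_
    have hl' : l ≤ m := by
      have := Finset.mem_range.mp hl
      omega
    rw [Finset.sum_comm, Finset.sum_eq_single l]
    · rw [← Finset.sum_smul, ← Rat.cast_sum, hφψ l hl' l hl', if_pos rfl, Rat.cast_one, one_smul,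
        Nat.sub_self, pow_zero, Module.End.one_apply]
    · intro l' hl2 hne
      have hl2' : l' ≤ m := by
        have := Finset.mem_range.mp hl2
        omega
      rw [← Finset.sum_smul, ← Rat.cast_sum, hφψ l hl' l' hl2', if_neg hne.symm, Rat.cast_zero,
        zero_smul]
    · intro h
      exact absurd hl h

end Pool.Agent.Helper47.PC
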