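import Pool.Agent.Helper47.PC.Glue

/-!
# Complete intersections, cyclic covers and the basic members of the class
-/

set_option linter.unusedSectionVars false

namespace Pool.Agent.Helper47.PC

open Pool.Agent.Helper29.CPB Pool.Agent.Helper47.PB

universe u v

variable {F : Type u} [Field F] [CharZero F] {X T S : Variety.{u, v} F}

lemma LeftInverseIn.mono {e e' j : ℕ} (h : LeftInverseIn X e' j) (he : e ≤ e') :
    LeftInverseIn X e j := by
  obtain ⟨θ, hθ, h⟩ := h
  refine ⟨θ * X.L ^ (e' - e), ?_, ?_⟩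
  · have h1 : θ ∈ X.corr (-e') := hθ
    have h2 : ((e' - e : ℕ) : ℤ) = e' - e := by omega
    exact X.corr_mul' (by rw [h2]; ring) h1 (X.Lpow_corr (e' - e))
  · intro x hx
    rw [Module.End.mul_apply, ← Module.End.mul_apply (X.L ^ (e' - e)), ← pow_add,
      Nat.sub_add_cancel he]
    exact h x hx

lemma leftInverseIn_zero (X : Variety.{u, v} F) (j : ℕ) : LeftInverseIn X 0 j := by
  refine ⟨1, ?_, fun x _ => rfl⟩
  have h := X.cycles.one
  rwa [show (0 : ℤ) = -((0 : ℕ) : ℤ) by simp] at h

lemma lefschetzIn_iff {i : ℕ} :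
    LefschetzIn X i ↔ (i ≤ X.dim → LeftInverseIn X (X.dim - i) i) := by
  unfold LefschetzIn LeftInverseIn
  refine forall_congr' fun hi => ?_
  have h1 : -((X.dim - i : ℕ) : ℤ) = i - X.dim := by omega
  rw [h1]

/-- left inverses pass to complete intersections and cyclic covers -/
theorem PolarMap.leftInverse {s : ℕ} (D : PolarMap T S s) {e j : ℕ} (hj : j < S.dim)
    (h : LeftInverseIn T (s + e) j) : LeftInverseIn S e j := by
  obtain ⟨θ, hθ, h⟩ := h
  have hm := D.NF_ne
  have hθ' : T.alg (-(e : ℤ) - s) θ := by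
    have h1 : -(e : ℤ) - s = -((s + e : ℕ) : ℤ) := by push_cast; ring
    rw [h1]; exact hθ
  obtain ⟨f, hf, hfy⟩ := D.restrict_all _ θ hθ'
  refine ⟨((D.N : F)⁻¹) • f, ?_, ?_⟩
  · have h1 := S.corr_smul ((D.N : ℚ)⁻¹) _ f hf
    push_cast at h1
    exact h1
  · intro y hy
    obtain ⟨x0, hx0⟩ := D.onto j (by exact_mod_cast hj) y hy
    set x := T.π j x0 with hx
    have hxj : T.π j x = x := T.π_apply_idem _ _
    have hxy : D.up x = y := by rw [hx, D.up_deg, hx0, hy]
    have hup : ∀ k, (S.L ^ k) (D.up x) = D.up ((T.L ^ k) x) := by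
      intro k
      induction k with
      | zero => rfl
      | succ k ih =>
        rw [pow_succ', Module.End.mul_apply, ih, ← D.up_L, pow_succ', Module.End.mul_apply]
    rw [LinearMap.smul_apply, hfy, ← hxy, hup, D.dn_up, map_smul, map_smul, smul_smul,
      inv_mul_cancel₀ hm, one_smul, ← Module.End.mul_apply (T.L ^ s), ← pow_add, h x hxj]

theorem almostIn_of_map {s : ℕ} (D : PolarMap T S s) {j : ℕ} (h : AlmostIn T j) :
    AlmostIn S j := by
  intro hj
  have hd := D.dim
  refine D.leftInverse hj ?_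
  have h1 := h (by omega)
  rwa [show T.dim - j - 1 = s + (S.dim - j - 1) by omega] at h1

theorem lefschetzIn_of_map {s : ℕ} (D : PolarMap T S s) {i : ℕ} (h : LefschetzIn T i) :
    LefschetzIn S i := by
  rw [lefschetzIn_iff] at h ⊢
  intro hi
  have hd := D.dim
  rcases Nat.lt_or_ge i S.dim with hlt | hge
  · refine D.leftInverse hlt ?_
    have h1 := h (by omega)
    rwa [show T.dim - i = s + (S.dim - i) by omega] at h1
  · rw [show S.dim - i = 0 by omega]
    exact leftInverseIn_zero S i

/-- The weak form of `B(T)` in the degrees `< dim S`, `≡ dim S - 1`, gives `C⁺(S)`. -/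
theorem cplus_of_almost {s : ℕ} (D : LefschetzMap T S s) (P : Duality T) (hT : T.CPlus)
    (h : ∀ j < S.dim, Even (j + S.dim + 1) → AlmostIn T j) : S.CPlus := by
  refine D.cplus hT (quasiInverse_of_left P D.dim fun j hj he => ?_)
  have hd := D.dim
  exact (h j hj he (by omega)).mono (by omega)

/-- **Complete intersections and cyclic covers.** -/
theorem Almost.map {z k s : ℕ} (h : Almost z k T) (D : PolarMap T S s) (P : Duality T)
    (hS : s = 0 ∨ S.dim ≤ k + 1) : Almost z k S := by
  refine ⟨?_, fun i hi => lefschetzIn_of_map D (h.low i hi), fun j hj =>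
    almostIn_of_map D (h.mid j hj)⟩
  rcases hS with rfl | hS
  · refine D.toLefschetzMap.cplus h.cplus ⟨1, ?_, fun j x _ _ => rfl⟩
    have h1 := T.cycles.one
    rwa [show (0 : ℤ) = -((0 : ℕ) : ℤ) by simp] at h1
  · exact cplus_of_almost D.toLefschetzMap P h.cplus fun j hj _ => h.mid j (by omega)

/-- varieties of small dimension -/
theorem almost_of_dim {z : ℕ} (hX : X.CPlus) (hd : X.dim ≤ z + 2)
    (hB : ∀ i ≤ z, LefschetzIn X i) (k : ℕ) : Almost z k X := by
  refine ⟨hX, hB, fun j _ hj => ?_⟩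
  rcases Nat.lt_or_ge z j with h | h
  · rw [show X.dim - j - 1 = 0 by omega]
    exact leftInverseIn_zero X j
  · exact (lefschetzIn_iff.mp (hB j h) (by omega)).mono (by omega)

/-- varieties for which `B` holds -/
theorem almost_of_lefschetz (hX : X.CPlus) (hB : X.Lefschetz) (z k : ℕ) : Almost z k X := by
  have h1 : ∀ i, LefschetzIn X i := fun i hi => hB i hi
  exact ⟨hX, fun i _ => h1 i, fun j _ hj =>
    (lefschetzIn_iff.mp (h1 j) hj.le).mono (by omega)⟩

end Pool.Agent.Helper47.PC
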